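import Pool.Agent.Lib.MP_651af7_nt.Bx.Min

/-! Values of determinants of derivatives. -/

namespace Pool.Agent.Lib.MP_8865d3_nt.Lr

open Pool.Agent.Lib.MP_651af7_nt.Bx

variable {k F Γ κ : Type} [Field k] [Field F] [Algebra k F] [LinearOrderedCommGroupWithZero Γ]
  (v : Valuation F Γ) {D : ℕ}

theorem val_det_le {M : Matrix (Fin D) (Fin D) F} {c : Fin D → Γ} (h : ∀ i j, v (M i j) ≤ c j) :
    v M.det ≤ ∏ j, c j := by
  rw [Matrix.det_apply']
  refine v.map_sum_le fun σ _ => ?_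
  have h1 : v ((Equiv.Perm.sign σ : ℤ) : F) = 1 := by
    rcases Int.units_eq_one_or (Equiv.Perm.sign σ) with h | h <;> simp [h]
  rw [map_mul, h1, one_mul, map_prod]
  exact Finset.prod_le_prod' fun j _ => h _ _

theorem minors_cons {R : Type} [CommRing R] (x : κ → R) (u : Fin D → κ → R) (S : Fin (D + 1) → κ) :
    minors (Fin.cons x u) S = ∑ l : Fin (D + 1), (-1) ^ (l : ℕ) * x (S l) *
      (Matrix.of fun j m => u j (S (l.succAbove m))).det := by
  rw [minors, Matrix.det_succ_row_zero]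
  rfl

/-- The rows `s ξ`, `θ (s ξ)`. -/
theorem minors_der (θ : Fin D → Derivation k F F) (s : F) (ξ : κ → F) (S : Fin (D + 1) → κ) :
    minors (Fin.cons (fun l => s * ξ l) fun j l => θ j (s * ξ l)) S =
      s ^ (D + 1) * minors (Fin.cons ξ fun j l => θ j (ξ l)) S := by
  rw [pow_succ', ← minors_tri s s (fun j => θ j s)]
  simp only [Derivation.leibniz, smul_eq_mul, mul_comm (ξ _)]

/-- The value of the minors from the values of the Jacobian determinants. -/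
theorem val_minors_le {θ : Fin D → Derivation k F F} (hθ : ∀ i z, v (θ i z) ≤ v z) {ξ : κ → F}
    (hξ : ∀ l, v (ξ l) ≤ 1) {z : Fin D → F} {e : Fin D → ℕ} {f : F}
    (h : ∀ T : Fin D → κ, ∃ o, v o ≤ 1 ∧ f * (Matrix.of fun i m => θ i (ξ (T m))).det =
      o * (∏ j, z j ^ e j) * (Matrix.of fun i j => θ i (z j)).det) (S : Fin (D + 1) → κ) :
    v (f * minors (Fin.cons ξ fun j l => θ j (ξ l)) S) ≤ ∏ j, v (z j) ^ (e j + 1) := by
  rw [minors_cons, Finset.mul_sum]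
  refine v.map_sum_le fun l _ => ?_
  obtain ⟨o, h1, h2⟩ := h fun m => S (l.succAbove m)
  have h3 : v (Matrix.of fun i j => θ i (z j)).det ≤ ∏ j, v (z j) :=
    val_det_le v fun i j => hθ i _
  rw [mul_left_comm, h2]
  simp only [map_mul, map_pow, map_prod, Valuation.map_neg, map_one, one_pow, one_mul, pow_succ,
    Finset.prod_mul_distrib]
  exact (mul_le_of_le_one_left' (hξ _)).trans
    (mul_le_mul' (mul_le_of_le_one_left' h1) h3)

theorem exists_rat (e : Fin D → ℕ) :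
    ∃ c : ℚ, 0 < c ∧ c < 1 ∧ ∀ j, e j ≤ ⌊c * e j⌋₊ + 1 := by
  have h0 : (0 : ℚ) ≤ ((∑ j, e j : ℕ) : ℚ) := Nat.cast_nonneg _
  refine ⟨1 - 1 / (((∑ j, e j : ℕ) : ℚ) + 2), ?_, ?_, fun j => ?_⟩
  · rw [sub_pos, div_lt_one (by linarith)]; linarith
  · rw [sub_lt_self_iff]; positivity
  · have h1 : (e j : ℚ) ≤ ((∑ j, e j : ℕ) : ℚ) :=
      Nat.cast_le.2 (Finset.single_le_sum (fun _ _ => Nat.zero_le _) (Finset.mem_univ j))
    have h2 := Nat.lt_floor_add_one ((1 - 1 / (((∑ j, e j : ℕ) : ℚ) + 2)) * e j)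
    have h3 : 1 / (((∑ j, e j : ℕ) : ℚ) + 2) * e j < 1 := by
      rw [one_div, inv_mul_lt_iff₀ (by linarith)]; linarith
    have h4 : (e j : ℚ) < ((⌊(1 - 1 / (((∑ j, e j : ℕ) : ℚ) + 2)) * e j⌋₊ + 1 + 1 : ℕ) : ℚ) := by
      push_cast at h2 h3 ⊢
      linarith
    exact Nat.lt_succ_iff.1 (Nat.cast_lt.1 h4)

end Pool.Agent.Lib.MP_8865d3_nt.Lr
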