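import Pool.Agent.Lib.MP_8865d3_nt.Lr.Val
import Pool.Agent.Lib.MP_8865d3_nt.Lr.Det

/-! From the inequality for valuations to the inequality for orders. -/

namespace Pool.Agent.Lib.MP_8865d3_nt.Lr

open MvPolynomial WithZero Pool.Agent.Lib.MP_651af7_nt.Av Pool.Agent.Lib.MP_651af7_nt.Bx

noncomputable section

theorem td_prod {R α : Type} [CommRing R] [IsDomain R] (s : Finset α) (f : α → Polynomial R) :
    (∏ a ∈ s, f a).trailingDegree = ∑ a ∈ s, (f a).trailingDegree := by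
  classical
  induction s using Finset.induction_on with
  | empty => simp
  | insert a s ha ih =>
    rw [Finset.prod_insert ha, Finset.sum_insert ha, Polynomial.trailingDegree_mul, ih]

theorem td_pow {R : Type} [CommRing R] [IsDomain R] (f : Polynomial R) (m : ℕ) :
    (f ^ m).trailingDegree = m * f.trailingDegree := by
  have h := td_prod (Finset.range m) fun _ => f
  rwa [Finset.prod_const, Finset.sum_const, Finset.card_range, nsmul_eq_mul] at h

theorem le_add_iInf {α : Type} {a b c : ℕ∞} {f : α → ℕ∞} (h : ∀ x, a ≤ b + f x + c) :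
    a ≤ b + (⨅ x, f x) + c := by
  rcases isEmpty_or_nonempty α with h0 | h0
  · rw [iInf_of_empty, add_top, top_add]; exact le_top
  · obtain ⟨x, hx⟩ := ENat.exists_eq_iInf f
    exact hx ▸ h x

variable {k K ι κ β : Type} [Field k] [Field K] [Algebra k K] {n D : ℕ}

/-- The inequality for the valuation `v` at the point `ξ`. -/
def VIneq {F : Type} [Field F] [Algebra k F] (v : Valuation F ℤᵐ⁰) (ξ : κ → F) (D : ℕ)
    (I : β → MvPolynomial κ k) (f : MvPolynomial κ k) : Prop :=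
  ∀ θ : Fin D → Derivation k F F, (∀ i z, v (θ i z) ≤ v z) → ∀ S : Fin (D + 1) → κ,
    ∃ i l, ξ i ≠ 0 ∧ (∀ s, v (ξ s) ≤ v (ξ i)) ∧ v (aeval (fun s => ξ s / ξ i) f *
      minors (Fin.cons (fun s => ξ s / ξ i) fun j s => θ j (ξ s / ξ i)) S) ≤
        v (aeval (fun s => ξ s / ξ i) (I l))

variable {P : Ideal (MvPolynomial (ι ⊕ Fin (n + 1)) K)} {lam : Fin (n + 1) → ℕ}

theorem td_le [P.IsPrime]
    {v : Valuation (FractionRing (MvPolynomial (ι ⊕ Fin (n + 1)) K ⧸ P)) ℤᵐ⁰}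
    (hz : ∀ p ∈ P, sg P lam p = 0)
    (hv : ∀ p, p ∉ P → v (aeval (gp P) p) = exp (-((sg P lam p).natTrailingDegree : ℤ)))
    {p q : MvPolynomial (ι ⊕ Fin (n + 1)) K} (h : v (aeval (gp P) p) ≤ v (aeval (gp P) q)) :
    (sg P lam q).trailingDegree ≤ (sg P lam p).trailingDegree := by
  by_cases hp : p ∈ P
  · rw [hz p hp]; exact le_top
  have hq : q ∉ P := fun hq => by
    rw [aeval_gp_eq_zero.2 hq, map_zero, hv p hp] at h
    exact exp_ne_zero (le_zero_iff.1 h)
  rw [hv p hp, hv q hq, exp_le_exp] at h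
  rw [Polynomial.trailingDegree_eq_natTrailingDegree (sg_ne hp),
    Polynomial.trailingDegree_eq_natTrailingDegree (sg_ne hq), Nat.cast_le]
  omega

/-- The hypothesis on orders of `Sv.main_W`. -/
theorem ord_le {J₀ : Ideal (MvPolynomial ι K)} [P.IsPrime] (hP : P = J₀.map (rename Sum.inl))
    {γ T B : Type} {ψ : κ → MvPolynomial (ι ⊕ Fin (n + 1)) K}
    {Ψ : T → κ → MvPolynomial (ι ⊕ Fin (n + 1)) K} (hΨ : ∀ t i l, Ψ t i * ψ l - Ψ t l * ψ i ∈ P)
    {W : B → Fin D → ι ⊕ Fin (n + 1) → MvPolynomial (ι ⊕ Fin (n + 1)) K}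
    (hW : ∀ b j, ∀ p ∈ P, dP X (W b j) p ∈ P)
    (hw : ∀ b j s, sg P lam (W b j s) = Polynomial.X ^ Sum.elim (fun _ => 0) lam s *
      Polynomial.C (Ideal.Quotient.mk P (W b j s)))
    {I : β → MvPolynomial κ k} {J : γ → MvPolynomial κ k} {eI eJ : ℕ}
    (hI : ∀ l, (I l).IsHomogeneous eI) (hJ : ∀ l, (J l).IsHomogeneous eJ)
    (h : ∀ v : Valuation (FractionRing (MvPolynomial (ι ⊕ Fin (n + 1)) K ⧸ P)) ℤᵐ⁰,
      (∀ c : k, v (algebraMap k _ c) ≤ 1) →
        ∀ l, VIneq v (fun i => aeval (gp P) (ψ i)) D I (J l)) :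
    Sv.Stm.ord P lam (fun p : T × κ => Ψ p.1 p.2 ^ (D + 1)) +
        Sv.Stm.ord P lam (fun l => aeval ψ (I l) * ∏ j, X (.inr j)) + eJ * Sv.Stm.ord P lam ψ ≤
      (∑ j, lam j : ℕ) + Sv.Stm.ord P lam (fun p : γ × B × T × (Fin (D + 1) → κ) =>
        aeval ψ (J p.1) * minors (Fin.cons (Ψ p.2.2.1) fun j i => dP X (W p.2.1 j) (Ψ p.2.2.1 i))
          p.2.2.2) + eI * Sv.Stm.ord P lam ψ := by
  obtain ⟨v, h1, h2⟩ := exists_vl hP lam
  have hz : ∀ p ∈ P, sg P lam p = 0 := fun p hp => sg_zero hP hp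
  have h3 : ∀ c : k, v (algebraMap k _ c) ≤ 1 := fun c => by
    have h4 : algebraMap k (FractionRing (MvPolynomial (ι ⊕ Fin (n + 1)) K ⧸ P)) c =
        aeval (gp P) (C (algebraMap k K c) : MvPolynomial (ι ⊕ Fin (n + 1)) K) := by
      rw [aeval_C, ← IsScalarTower.algebraMap_apply]
    rw [h4]
    by_cases hc : C (algebraMap k K c) ∈ P
    · rw [aeval_gp_eq_zero.2 hc, map_zero]; exact zero_le
    · rw [h1 _ hc, ← exp_zero, exp_le_exp]; omega
  refine le_add_iInf ?_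
  rintro ⟨l', b, t, S⟩
  choose θ h4 h5 using fun j => h2 (W b j) (hW b j) (hw b j)
  obtain ⟨i, l, h6, h7, h8⟩ := h v h3 l' (fun j => (θ j).restrictScalars k) h5 S
  set ξ := fun i => aeval (gp P) (ψ i) with hξ
  have h0 : aeval (gp P) (ψ i) = ξ i := rfl
  have h9 : ∀ {f : MvPolynomial κ k} {e : ℕ}, f.IsHomogeneous e →
      aeval (gp P) (aeval ψ f) = ξ i ^ e * aeval (fun s => ξ s / ξ i) f := fun {f e} hf => by
    rw [← aeval_mul_of_hom hf]
    simp only [mul_div_cancel₀ _ h6]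
    exact (MvPolynomial.comp_aeval_apply ψ ((aeval (gp P) : _ →ₐ[K] _).restrictScalars k) f)
  have h10 : ∀ s, aeval (gp P) (Ψ t s) = aeval (gp P) (Ψ t i) * (ξ s / ξ i) := fun s => by
    have h11 := aeval_gp_eq_zero.2 (hΨ t i s)
    rw [map_sub, map_mul, map_mul, sub_eq_zero] at h11
    rw [← mul_div_assoc, eq_div_iff h6]
    exact h11.symm
  have h11 : aeval (gp P) (minors (Fin.cons (Ψ t) fun j i => dP X (W b j) (Ψ t i)) S) =
      aeval (gp P) (Ψ t i) ^ (D + 1) * minors (Fin.cons (fun s => ξ s / ξ i)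
        fun j s => (θ j).restrictScalars k (ξ s / ξ i)) S := by
    rw [← minors_der]
    refine (map_minors (aeval (gp P) : _ →ₐ[K] _).toRingHom _ S).trans ?_
    congr 1
    funext j s
    refine Fin.cases (h10 s) (fun j => ?_) j
    rw [Fin.cons_succ, Fin.cons_succ, ← h10]
    exact (h4 j _).symm
  have h12 := td_le hz h1 (p := aeval ψ (J l') * minors (Fin.cons (Ψ t)
      fun j i => dP X (W b j) (Ψ t i)) S * ψ i ^ eI)
      (q := Ψ t i ^ (D + 1) * aeval ψ (I l) * ψ i ^ eJ) (by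
    simp only [map_mul, map_pow, h9 (hI l), h9 (hJ l'), h11, h0] at h8 ⊢
    refine le_of_eq_of_le ?_ ((mul_le_mul_right h8 (v (aeval (gp P) (Ψ t i)) ^ (D + 1) *
      v (ξ i) ^ eI * v (ξ i) ^ eJ)).trans_eq ?_) <;> ac_rfl)
  have h13 : Sv.Stm.ord P lam ψ = (sg P lam (ψ i)).trailingDegree :=
    le_antisymm (iInf_le _ i) (le_iInf fun s => td_le hz h1 (h7 s))
  have h14 : (sg P lam (∏ j, X (.inr j))).trailingDegree = (∑ j, lam j : ℕ) := by
    rw [map_prod, td_prod, Nat.cast_sum]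
    refine Finset.sum_congr rfl fun j _ => ?_
    rw [sg_X, Polynomial.trailingDegree_mul, Polynomial.trailingDegree_X_pow,
      Polynomial.trailingDegree_C (mt Ideal.Quotient.eq_zero_iff_mem.1 (X_inr_notMem hP j)),
      add_zero, Sum.elim_inr]
  have h15 := iInf_le (fun p : T × κ => (sg P lam (Ψ p.1 p.2 ^ (D + 1))).trailingDegree) (t, i)
  have h16 := iInf_le (fun l => (sg P lam (aeval ψ (I l) * ∏ j, X (.inr j))).trailingDegree) l
  rw [h13, ord_eq, ord_eq]
  refine (add_le_add_left (add_le_add h15 h16) _).trans ?_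
  rw [map_mul _ _ (ψ i ^ eI), map_mul, map_mul, map_pow _ (ψ i), map_pow _ (ψ i),
    Polynomial.trailingDegree_mul, Polynomial.trailingDegree_mul,
    Polynomial.trailingDegree_mul, td_pow (sg P lam (ψ i)), td_pow (sg P lam (ψ i))] at h12
  rw [map_mul, Polynomial.trailingDegree_mul, h14]
  refine le_of_eq_of_le ?_ ((add_le_add_right h12 (∑ j, lam j : ℕ)).trans_eq
    (add_assoc _ _ _).symm)
  ac_rfl

end

end Pool.Agent.Lib.MP_8865d3_nt.Lr
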