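import Pool.Agent.Lib.MP_8865d3_nt.Lr.Wr
import Pool.Agent.Lib.MP_8865d3_nt.Sv.Fin
import Pool.Agent.Lib.MP_651af7_nt.Bx.Loc

/-! From the inequality on the product to the inequality on the variety. -/

namespace Pool.Agent.Lib.MP_8865d3_nt.Lr

open MvPolynomial Module Pool.Agent.Lib.MP_651af7_nt Av Bx Height NumberField Sv Vj

set_option linter.unusedSectionVars false

noncomputable section

variable {k : Type} [Field k] [NumberField k] {ι κ L L' : Type} [Fintype ι] [Fintype κ] [Fintype L]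
  [Fintype L'] {n r : ℕ} {A : AV k ι} {σ : Fin r → ι → k}
  {ψ : κ → MvPolynomial (ι ⊕ Fin (n + 1)) k} {p : ι → k} {y : Fin (n + 1) → k}
  {Γ : L → MvPolynomial (ι ⊕ Fin (n + 1)) k} {Γ' : L' → MvPolynomial (ι ⊕ Fin (n + 1)) k}
  {d d' : ℕ × ℕ} (v : AbsoluteValue k ℝ)

theorem ne_mul {f : L → k} {g : L' → k} (hf : f ≠ 0) (hg : g ≠ 0) :
    (fun q : L × L' => f q.1 * g q.2) ≠ 0 := by
  obtain ⟨a, ha⟩ := Function.ne_iff.1 hf
  obtain ⟨b, hb⟩ := Function.ne_iff.1 hg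
  exact Function.ne_iff.2 ⟨(a, b), mul_ne_zero ha hb⟩

theorem log_nm_mul {c : k} {f : L → k} (hc : c ≠ 0) (hf : f ≠ 0) :
    Real.log (nm v fun a => c * f a) = Real.log (v c) + Real.log (nm v f) := by
  rw [nm_mul_left, Real.log_mul (v.pos hc).ne' (nm_pos v hf).ne']

theorem mv_pow (h : (fun l => eval (Sum.elim p y) (Γ l)) ≠ 0) (m : ℕ) :
    mv v (m • d) (fun l => Γ l ^ m) p y = m * mv v d Γ p y := by
  obtain ⟨l, -⟩ := Function.ne_iff.1 h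
  have : Nonempty L := ⟨l⟩
  have h1 : (nm v fun l => eval (Sum.elim p y) (Γ l ^ m)) =
      (nm v fun l => eval (Sum.elim p y) (Γ l)) ^ m := by
    simp only [nm, map_pow]
    exact (Real.iSup_pow (fun l => v.nonneg _) m).symm
  simp only [mv, h1, Real.log_pow, Prod.smul_fst, Prod.smul_snd, smul_eq_mul]
  push_cast
  ring

theorem mv_mul (h : (fun l => eval (Sum.elim p y) (Γ l)) ≠ 0)
    (h' : (fun l => eval (Sum.elim p y) (Γ' l)) ≠ 0) :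
    mv v (d + d') (fun q : L × L' => Γ q.1 * Γ' q.2) p y = mv v d Γ p y + mv v d' Γ' p y := by
  have h1 : (nm v fun q : L × L' => eval (Sum.elim p y) (Γ q.1 * Γ' q.2)) =
      (nm v fun l => eval (Sum.elim p y) (Γ l)) * nm v fun l => eval (Sum.elim p y) (Γ' l) := by
    simp only [map_mul (eval (Sum.elim p y))]
    exact Real.iSup_fun_mul_eq_iSup_mul_iSup_of_nonneg v (fun l => eval (Sum.elim p y) (Γ l))
      fun l => eval (Sum.elim p y) (Γ' l)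
  simp only [mv, h1, Real.log_mul (nm_pos v h).ne' (nm_pos v h').ne', Prod.fst_add, Prod.snd_add]
  push_cast
  ring

theorem mv_bdy (h : (fun l => eval (Sum.elim p y) (Γ l)) ≠ 0) (hy : ∀ j, y j ≠ 0) :
    mv v (d + (0, n + 1)) (fun l => Γ l * ∏ j, X (.inr j)) p y = mv v d Γ p y + bdy v y := by
  have h1 : (fun l => eval (Sum.elim p y) (Γ l * ∏ j, X (.inr j))) =
      fun l => (∏ j, y j) * eval (Sum.elim p y) (Γ l) := funext fun l => by simp [mul_comm]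
  simp only [mv, h1]
  rw [log_nm_mul v (Finset.prod_ne_zero_iff.2 fun j _ => hy j) h, map_prod,
    Real.log_prod fun j _ => (v.pos (hy j)).ne', bdy, Finset.sum_sub_distrib]
  simp
  ring

theorem ev_psi {P : MvPolynomial κ k} {e : ℕ} (hP : P.IsHomogeneous e) {x : κ → k} {c : k}
    (h : ∀ l, aeval (Sum.elim p y) (ψ l) = c * x l) :
    eval (Sum.elim p y) (aeval ψ P) = c ^ e * eval x P := by
  rw [← aeval_eq_eval, trans_aev, funext h, aeval_mul_of_hom hP, aeval_eq_eval]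

theorem lam_mv {D : L → MvPolynomial κ k} {e : ℕ} (hD : ∀ l, (D l).IsHomogeneous e) {x : κ → k}
    {c : k} (hc : c ≠ 0) (hx : x ≠ 0) (h : ∀ l, aeval (Sum.elim p y) (ψ l) = c * x l)
    (h0 : (fun l => eval x (D l)) ≠ 0) :
    lam v D e x = mv v (e • d) (fun l => aeval ψ (D l)) p y - e * mv v d ψ p y := by
  have h1 : (fun l => eval (Sum.elim p y) (ψ l)) = fun l => c * x l := funext h
  simp only [mv, ev_psi (hD _) h, h1, Prod.smul_fst, Prod.smul_snd, smul_eq_mul]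
  rw [log_nm_mul v (pow_ne_zero e hc) h0, log_nm_mul v hc hx, map_pow, Real.log_pow, lam]
  change Real.log (nm v x ^ e / nm v fun l => eval x (D l)) = _
  rw [Real.log_div (pow_pos (nm_pos v hx) e).ne' (nm_pos v h0).ne', Real.log_pow]
  push_cast
  ring

theorem gsum_bdy (hy : ∀ j, y j ≠ 0) : gsum (fun v => bdy v y) = (n + 1) * logHeight y := by
  simp only [bdy]
  rw [gsum_sum Finset.univ fun j _ => finS_sub (finS_nm y) (finS_log _)]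
  simp only [gsum_sub (finS_nm y) (finS_log _), gsum_log (hy _),
    gsum_nm (Function.ne_iff.2 ⟨0, hy 0⟩ : y ≠ 0)]
  simp

variable {I : Ideal (MvPolynomial κ k)} {φ₁ : ι → MvPolynomial κ k}
  {φ₂ : Fin (n + 1) → MvPolynomial κ k} {T : Type} [Fintype T]
  {Ψ : T → κ → MvPolynomial (ι ⊕ Fin (n + 1)) k} {x : κ → k}

/-- The canonical height through the Wronskians. -/
theorem hK_eq (hσ : A.LieBasis σ) (hI : ∀ P ∈ I, ∀ d, homogeneousComponent d P ∈ I)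
    (h : Bir I A.I φ₁ φ₂ ψ) (hΨ : ∀ t i, (Ψ t i).IsWeightedHomogeneous (bw ι (Fin (n + 1))) d)
    (hp : ∀ t i l, Ψ t i * ψ l - Ψ t l * ψ i ∈ pr A.I n) (g : Good I φ₁ φ₂ ψ x p y)
    (hy : ∀ j, y j ≠ 0) (h0 : (fun q : T × κ => eval (Sum.elim p y) (Ψ q.1 q.2)) ≠ 0) :
    (fun q : ι × T × (Fin (r + n + 1) → κ) =>
      eval (Sum.elim p y) (wr A σ (Ψ q.2.1) q.1 q.2.2)) ≠ 0 ∧
    ∀ β : Fin (r + n + 1) → κ → k, LinearIndependent k β → (∀ l, β l ∈ tsp I x) →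
      hK x β = (r + n + 1 : ℕ) * gsum (fun v => mv v d (fun q : T × κ => Ψ q.1 q.2) p y) -
        gsum fun v => mv v ((r + n + 1) * d.1 + r, (r + n + 1) * d.2)
          (fun q : ι × T × (Fin (r + n + 1) → κ) => wr A σ (Ψ q.2.1) q.1 q.2.2) p y := by
  obtain ⟨c, w, μ, hc, hw, hi, -, h1⟩ := exists_frame hσ g.p0 (g.zp h)
  have hw' : ∀ j, w j ∈ tsp A.I p := fun j => tsp_eq (A := A) p ▸ hw j
  choose s h2 h3 using fun t => prp_val (hp t) (pr_zero (g.zp h) y) g.ψ0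
  obtain ⟨c', hc', e⟩ := g.pt h
  have h4 : (fun q : T × κ => eval (Sum.elim p y) (Ψ q.1 q.2)) =
      fun q => s q.1 * (c' • x) q.2 := funext fun q => (h2 q.1 q.2).trans (by rw [e]; rfl)
  have h5 : s ≠ 0 := fun h => h0 (h4.trans (funext fun p => by rw [h]; exact zero_mul _))
  have h6 : ∀ {α : Type} {z : α → k} (n : ℕ), z ≠ 0 → z ^ n ≠ 0 := fun n hz =>
    Function.ne_iff.2 ((Function.ne_iff.1 hz).imp fun _ h => pow_ne_zero n h)
  have hf := g.indep h hw' hi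
  have hπ := minors_ne_zero hf
  have h7 := ne_mul (h6 (r + n + 1) h5) hπ
  have h8 : (fun q : ι × T × (Fin (r + n + 1) → κ) =>
      eval (Sum.elim p y) (wr A σ (Ψ q.2.1) q.1 q.2.2)) = (c ^ r * ∏ j : Fin n, y j.succ) •
        fun q => (p ^ r) q.1 * ((s ^ (r + n + 1)) q.2.1 * minors (fr ψ (Sum.elim p y) w) q.2.2) :=
    funext fun q => wr_val (hΨ q.2.1) h1 (h2 _) (fun j => h3 _ _ (fv_mem (g.zp h) hw' j)) q.1 q.2.2
  have h9 : c ^ r * ∏ j : Fin n, y j.succ ≠ 0 :=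
    mul_ne_zero (pow_ne_zero _ hc) (Finset.prod_ne_zero_iff.2 fun j _ => hy _)
  have h10 := smul_ne_zero h9 (ne_mul (h6 r g.p0) h7)
  rw [← h8] at h10
  refine ⟨h10, fun β β1 β2 => ?_⟩
  have y0 : y ≠ 0 := Function.ne_iff.2 ⟨0, g.y0⟩
  obtain ⟨c'', hc'', h11⟩ := minors_prop (g.rank hI A.hom h
    (tsp_eq (A := A) p ▸ rank_tan hσ g.p0 (g.zp h))) hf β1 (g.mem hI h hw') β2
  rw [gsum_mv g.p0 y0 h0, gsum_mv g.p0 y0 h10, h8, h4, logHeight_smul_eq_logHeight _ h9,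
    logHeight_fun_mul_eq (h6 r g.p0) h7, logHeight_fun_mul_eq (h6 _ h5) hπ, logHeight_pow,
    logHeight_pow, logHeight_fun_mul_eq h5 (smul_ne_zero hc' g.ne), hK, h11,
    logHeight_smul_eq_logHeight _ hc', logHeight_smul_eq_logHeight _ hc'']
  push_cast
  ring

/-- The conclusion of the theorem on the product. -/
def Eng (A : AV k ι) {L₁ L₂ L₃ L₄ : Type} (Γ₁ : L₁ → MvPolynomial (ι ⊕ Fin (n + 1)) k)
    (Γ₂ : L₂ → MvPolynomial (ι ⊕ Fin (n + 1)) k) (Γ₃ : L₃ → MvPolynomial (ι ⊕ Fin (n + 1)) k)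
    (Γ₄ : L₄ → MvPolynomial (ι ⊕ Fin (n + 1)) k) (d₁ d₂ d₃ d₄ : ℕ × ℕ) (a b : ℕ) (ε : ℝ) : Prop :=
  ∃ (Θ : MvPolynomial (ι ⊕ Fin (n + 1)) k) (e : ℕ × ℕ),
    Θ.IsWeightedHomogeneous (bw ι (Fin (n + 1))) e ∧ Θ ∉ A.I.map (rename Sum.inl) ∧
    ∀ T : Finset (AbsoluteValue k ℝ), ∃ c C : ℝ, ∀ (x : ι → k) (y : Fin (n + 1) → k), x ≠ 0 →
      (∀ f ∈ A.I, eval x f = 0) → eval (Sum.elim x y) Θ ≠ 0 →
      (fun l => eval (Sum.elim x y) (Γ₂ l)) ≠ 0 → (fun l => eval (Sum.elim x y) (Γ₃ l)) ≠ 0 →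
      (fun l => eval (Sum.elim x y) (Γ₄ l)) ≠ 0 →
      (∀ j, y j ≠ 0) ∧ (fun l => eval (Sum.elim x y) (Γ₁ l)) ≠ 0 ∧
      osum T (fun v => mv v d₁ Γ₁ x y) + (isum T (fun v => mv v d₁ Γ₁ x y + mv v d₂ Γ₂ x y +
        a * mv v d₄ Γ₄ x y - mv v d₃ Γ₃ x y - b * mv v d₄ Γ₄ x y) - (n + 1) * logHeight y) ≤
        ε * (logHeight x + logHeight y) + c * osum T (fun v => bdy v y) + C

theorem psi_hom {b : ℕ × ℕ} (hb : ∀ i, (ψ i).IsWeightedHomogeneous (bw ι (Fin (n + 1))) b)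
    {P : MvPolynomial κ k} {e : ℕ} (hP : P.IsHomogeneous e) :
    (aeval ψ P).IsWeightedHomogeneous (bw ι (Fin (n + 1))) (e • b) :=
  homog_aeval (w := 1) ((multiplesHom (ℕ × ℕ) b)) (fun s => by simpa using hb s) hP

theorem prod_hom : (∏ j, X (.inr j) : MvPolynomial (ι ⊕ Fin (n + 1)) k).IsWeightedHomogeneous
    (bw ι (Fin (n + 1))) (0, n + 1) := by
  have h := IsWeightedHomogeneous.prod (w := bw ι (Fin (n + 1))) Finset.univ _ _
    fun (j : Fin (n + 1)) _ => isWeightedHomogeneous_X k (bw ι (Fin (n + 1))) (.inr j)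
  simpa [bw] using h

/-- A form off which all points are good. -/
theorem exists_good (h : Bir I A.I φ₁ φ₂ ψ)
    {H : MvPolynomial (ι ⊕ Fin (n + 1)) k} {e : ℕ × ℕ}
    (hH : H.IsWeightedHomogeneous (bw ι (Fin (n + 1))) e) (h0 : H ∉ pr A.I n) :
    ∃ (Θ : MvPolynomial κ k) (t : ℕ), Θ.IsHomogeneous t ∧ Θ ∉ I ∧ ∀ x : κ → k, x ≠ 0 →
      (∀ P ∈ I, eval x P = 0) → eval x Θ ≠ 0 →
      Good I φ₁ φ₂ ψ x (fun a => eval x (φ₁ a)) (fun j => eval x (φ₂ j)) ∧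
      (∀ j, eval x (φ₂ j) ≠ 0) ∧
      eval (Sum.elim (fun a => eval x (φ₁ a)) fun j => eval x (φ₂ j)) H ≠ 0 := by
  have hP : (pr A.I n).IsPrime := p0_prime_inl A.isPrime
  obtain ⟨a₁, h₁⟩ := h.hom₁
  obtain ⟨a₂, h₂⟩ := h.hom₂
  obtain ⟨b, hb⟩ := h.hom
  obtain ⟨i, hi⟩ := h.id.1
  have ha : (X (.inl A.ao) : MvPolynomial (ι ⊕ Fin (n + 1)) k) ∉ pr A.I n := fun e => by
    have h1 := pr_zero (AV.rep_zero (A := A) (R := k)).zero 0 _ e
    rw [aeval_X, Sum.elim_inl, A.o_ao, map_one] at h1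
    exact one_ne_zero h1
  have h1 := ((hH.mul (isWeightedHomogeneous_X k _ (.inl A.ao))).mul prod_hom).mul (hb i)
  let f : ℕ × ℕ →+ ℕ := (multiplesHom ℕ a₁).coprod (multiplesHom ℕ a₂)
  have h2 := homog_aeval (w' := 1) (g := Sum.elim φ₁ φ₂) f (by
    rintro (a | j)
    · simpa [f, bw, IsHomogeneous] using h₁ a
    · simpa [f, bw, IsHomogeneous] using h₂ j) h1
  refine ⟨_, _, h2, h.pull' hP h1 fun hm => ?_, fun x x0 xz xΘ => ?_⟩
  · simp only [hP.mul_mem_iff_mem_or_mem, h0, ha, false_or] at hm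
    exact hm.elim (prod_notMem hP _ fun j _ => X_notMem A.isPrime j) fun e => hi (h.map_pr _ e)
  · rw [← aeval_eq_eval, ev_elim] at xΘ
    simp only [map_mul, mul_ne_zero_iff, map_prod, Finset.prod_ne_zero_iff, aeval_X,
      Sum.elim_inl, Sum.elim_inr] at xΘ
    exact ⟨⟨x0, xz, rfl, rfl, Function.ne_iff.2 ⟨_, xΘ.1.1.2⟩, xΘ.1.2 0 (Finset.mem_univ _),
      Function.ne_iff.2 ⟨i, xΘ.2⟩⟩, fun j => xΘ.1.2 j (Finset.mem_univ _), xΘ.1.1.1⟩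

theorem Good.map {F : Type} [Field F] [Algebra k F] (g : Good I φ₁ φ₂ ψ x p y) :
    Good I φ₁ φ₂ ψ (fun a => algebraMap k F (x a)) (fun a => algebraMap k F (p a))
      fun a => algebraMap k F (y a) := by
  have e : ∀ {τ : Type} (x : τ → k) (P : MvPolynomial τ k),
      aeval (fun a => algebraMap k F (x a)) P = algebraMap k F (aeval x P) :=
    fun x P => aeval_algebraMap_apply _ x P
  have inj := (algebraMap k F).injective
  have ne : ∀ {τ : Type} {x : τ → k}, x ≠ 0 → (fun a => algebraMap k F (x a)) ≠ 0 := fun h0 hc =>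
    h0 (funext fun a => inj ((congrFun hc a).trans (map_zero _).symm))
  refine ⟨ne g.ne, fun P hP => by rw [e, g.zero P hP, map_zero], by simp only [e, g.hp],
    by simp only [e, g.hy], ne g.p0, (map_ne_zero _).2 g.y0, ?_⟩
  have h1 := ne g.ψ0
  simp only [← e] at h1
  refine fun h2 => h1 (Eq.trans (funext fun l => ?_) h2)
  congr 2
  funext c
  cases c <;> rfl

theorem main_of (hσ : A.LieBasis σ) (hI : ∀ P ∈ I, ∀ d, homogeneousComponent d P ∈ I)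
    (h : Bir I A.I φ₁ φ₂ ψ) {b : ℕ × ℕ}
    (hΨ : ∀ t i, (Ψ t i).IsWeightedHomogeneous (bw ι (Fin (n + 1))) d)
    (hp : ∀ t i l, Ψ t i * ψ l - Ψ t l * ψ i ∈ pr A.I n) (h0 : ∃ t i, Ψ t i ∉ pr A.I n)
    {𝓘 : L → MvPolynomial κ k} {𝓙 : L' → MvPolynomial κ k} {eI eJ : ℕ}
    (h𝓘 : ∀ l, (𝓘 l).IsHomogeneous eI) (h𝓙 : ∀ l, (𝓙 l).IsHomogeneous eJ)
    (hE : ∀ ε : ℝ, 0 < ε → Eng A (fun q : T × κ => Ψ q.1 q.2 ^ (r + n + 1))
      (fun l => aeval ψ (𝓘 l) * ∏ j, X (.inr j))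
      (fun q : L' × ι × T × (Fin (r + n + 1) → κ) =>
        aeval ψ (𝓙 q.1) * wr A σ (Ψ q.2.2.1) q.2.1 q.2.2.2) ψ ((r + n + 1) • d) (eI • b + (0, n + 1))
      (eJ • b + ((r + n + 1) * d.1 + r, (r + n + 1) * d.2)) b eJ eI ε) {ε : ℝ} (hε : 0 < ε) :
    ∃ (Θ : MvPolynomial κ k) (t : ℕ), Θ.IsHomogeneous t ∧ Θ ∉ I ∧
      ∀ S : Finset (FinitePlace k), ∃ c C : ℝ, ∀ x : κ → k, x ≠ 0 → (∀ P ∈ I, eval x P = 0) →
        eval x Θ ≠ 0 → (fun l => eval x (𝓘 l)) ≠ 0 → (fun l => eval x (𝓙 l)) ≠ 0 →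
        (∀ j, eval x (φ₂ j) ≠ 0) ∧ finrank k (tsp I x) = r + n + 1 ∧
        ∀ β : Fin (r + n + 1) → κ → k, LinearIndependent k β → (∀ l, β l ∈ tsp I x) →
        hK x β + (∑ w : InfinitePlace k, w.mult * (lam w.1 𝓘 eI x - lam w.1 𝓙 eJ x) +
          ∑ w ∈ S, (lam w.1 𝓘 eI x - lam w.1 𝓙 eJ x)) ≤
          ε * logHeight x + c * Stm.cnt S (fun j => eval x (φ₂ j)) + C := by
  obtain ⟨a₁, h₁⟩ := h.hom₁
  obtain ⟨a₂, h₂⟩ := h.hom₂
  obtain ⟨C₁, k₁⟩ := logHeight_eval_le' h₁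
  obtain ⟨C₂, k₂⟩ := logHeight_eval_le' h₂
  have hε' : 0 < ε / (a₁ + a₂ + 1) := by positivity
  obtain ⟨Θ₀, e, e1, e2, e3⟩ := hE _ hε'
  obtain ⟨t₀, i₀, h0⟩ := h0
  obtain ⟨Θ, t, t1, t2, t3⟩ := exists_good h (e1.mul (hΨ t₀ i₀)) fun hm =>
    ((p0_prime_inl A.isPrime).mem_or_mem hm).elim e2 h0
  obtain ⟨C₃, -, k₃⟩ := mv_bd fun q : ι × T × (Fin (r + n + 1) → κ) =>
    wr_hom (A := A) (σ := σ) (hΨ q.2.1) q.1 q.2.2
  refine ⟨Θ, t, t1, t2, fun S => ?_⟩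
  obtain ⟨c, C, e4⟩ := e3 (plc S)
  refine ⟨c + 1, C + C₃ + ε / (a₁ + a₂ + 1) * (C₁ + C₂), fun x x0 xz xΘ xI xJ => ?_⟩
  obtain ⟨g, hy, t4⟩ := t3 x x0 xz xΘ
  refine ⟨hy, g.rank hI A.hom h (by rw [tsp_eq, rank_tan hσ g.p0 (g.zp h)]), fun β β1 β2 => ?_⟩
  have k₄ := k₁ x
  have k₅ := k₂ x
  generalize (fun a => eval x (φ₁ a)) = p at *
  generalize (fun j => eval x (φ₂ j)) = y at g t4 k₅ ⊢
  have hy : ∀ j, y j ≠ 0 := fun j => by rw [g.hy]; exact hy j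
  rw [map_mul, mul_ne_zero_iff] at t4
  have n₁ : (fun q : T × κ => eval (Sum.elim p y) (Ψ q.1 q.2)) ≠ 0 :=
    Function.ne_iff.2 ⟨(t₀, i₀), t4.2⟩
  obtain ⟨n₂, e5⟩ := hK_eq hσ hI h hΨ hp g hy n₁
  obtain ⟨c', hc', e6⟩ := g.pt h
  have n₃ : ∀ {L : Type} {D : L → MvPolynomial κ k} {e : ℕ}, (∀ l, (D l).IsHomogeneous e) →
      (fun l => eval x (D l)) ≠ 0 → (fun l => eval (Sum.elim p y) (aeval ψ (D l))) ≠ 0 :=
    fun hD h0 => Function.ne_iff.2 ((Function.ne_iff.1 h0).imp fun l hl => by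
      rw [ev_psi (hD l) e6]
      exact mul_ne_zero (pow_ne_zero _ hc') hl)
  obtain ⟨-, -, e7⟩ := e4 p y g.p0 (g.zp h) t4.1
    (Function.ne_iff.2 ((Function.ne_iff.1 (n₃ h𝓘 xI)).imp fun l hl => by
      rw [map_mul]
      exact mul_ne_zero hl (by simpa [Finset.prod_ne_zero_iff] using hy)))
    (by simpa only [map_mul] using ne_mul (n₃ h𝓙 xJ) n₂) g.ψ0
  have y0 : y ≠ 0 := Function.ne_iff.2 ⟨0, g.y0⟩
  have e8 := (k₃ p y g.p0 y0 n₂ (plc S)).2.1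
  have e9 := isum_add_osum (plc S) (finS_bdy y)
  rw [gsum_bdy hy] at e9
  simp only [mv_pow _ n₁, mv_bdy _ (n₃ h𝓘 xI) hy, mv_mul _ (n₃ h𝓙 xJ) n₂, isum_add, isum_sub,
    isum_const_mul, osum_const_mul _ (finS_mv p y)] at e7
  rw [← isum_plc S fun v => lam v 𝓘 eI x - lam v 𝓙 eJ x, cnt_eq S hy, e5 β β1 β2,
    ← isum_add_osum (plc S) (finS_mv p y), ← isum_add_osum (plc S) (finS_mv (Γ := fun q :
      ι × T × (Fin (r + n + 1) → κ) => wr A σ (Ψ q.2.1) q.1 q.2.2) p y)]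
  simp only [lam_mv (d := b) _ h𝓘 hc' x0 e6 xI, lam_mv (d := b) _ h𝓙 hc' x0 e6 xJ, isum_sub,
    isum_const_mul]
  have e10 := mul_le_mul_of_nonneg_left (add_le_add k₄ k₅) hε'.le
  have e11 : ε / (a₁ + a₂ + 1) * ((a₁ + a₂) * logHeight x) ≤ ε * logHeight x := by
    rw [← mul_assoc]
    refine mul_le_mul_of_nonneg_right ?_ (logHeight_nonneg x)
    rw [div_mul_eq_mul_div, div_le_iff₀ (by positivity)]
    nlinarith
  linarith

end

end Pool.Agent.Lib.MP_8865d3_nt.Lr
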