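import Pool.Agent.Lib.MP_8865d3_nt.Lr.Desc
import Pool.Agent.Lib.MP_8865d3_nt.Lr.Ht
import Pool.Agent.Lib.MP_651af7_nt.Ds.Ht

/-! The inequality over the ground field from the inequality over a finite extension. -/

namespace Pool.Agent.Lib.MP_8865d3_nt.Lr

open MvPolynomial Module NumberField Height Pool.Agent.Lib.MP_651af7_nt Bx Ds

variable {k K : Type} [Field k] [NumberField k] [Field K] [NumberField K] [Algebra k K] {n : ℕ}

theorem cnt_lam (S : Finset (FinitePlace k)) {y : Fin (n + 1) → k} (hy : ∀ j, y j ≠ 0) :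
    cnt S y = (n + 1) * logHeight y -
      (∑ w : InfinitePlace k, w.mult * lam w.1 (fun _ : Unit => ∏ j, X j) (n + 1) y +
        ∑ w ∈ S, lam w.1 (fun _ : Unit => ∏ j, X j) (n + 1) y) := by
  have h1 := Sv.isum_add_osum (Sv.plc S) (Sv.finS_bdy y)
  have h2 : ∀ v : AbsoluteValue k ℝ,
      lam v (fun _ : Unit => ∏ j, X j) (n + 1) y = Sv.bdy v y := fun v => by
    have h0 : ∀ j, 0 < v (y j) := fun j => v.pos (hy j)
    have h1 := Av.nm_pos v (Function.ne_iff.2 ⟨0, hy 0⟩ : y ≠ 0)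
    rw [lam, ciSup_const, map_prod]
    simp only [eval_X]
    change Real.log (Av.nm v y ^ (n + 1) / v (∏ j, y j)) = _
    rw [map_prod, Real.log_div (pow_pos h1 _).ne' (Finset.prod_pos fun j _ => h0 j).ne',
      Real.log_pow, Real.log_prod fun j _ => (h0 j).ne', Sv.bdy, Finset.sum_sub_distrib]
    simp
  rw [gsum_bdy hy, Sv.isum_plc, ← Sv.cnt_eq S hy] at h1
  simp only [h2]
  exact eq_sub_of_add_eq' h1

theorem exists_places (S : Finset (FinitePlace k)) : ∃ T : Finset (FinitePlace K),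
    (∀ {ι α : Type} [Fintype ι] [Fintype α] (D : α → MvPolynomial ι k) (e : ℕ) (x : ι → k),
      x ≠ 0 → (fun j => eval x (D j)) ≠ 0 →
      ∑ w ∈ T, lam w.1 (fun j => map (algebraMap k K) (D j)) e
        (fun a => algebraMap k K (x a)) = finrank k K * ∑ v ∈ S, lam v.1 D e x) ∧
    ∀ y : Fin (n + 1) → k, (∀ j, y j ≠ 0) →
      cnt T (fun j => algebraMap k K (y j)) = finrank k K * cnt S y := by
  classical
  choose T m h1 h2 h3 using fun v : FinitePlace k => exists_above (K := K) v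
  have key : ∀ {ι α : Type} [Fintype ι] [Fintype α] (D : α → MvPolynomial ι k) (e : ℕ) (x : ι → k),
      x ≠ 0 → (fun j => eval x (D j)) ≠ 0 →
      ∑ w ∈ S.biUnion T, lam w.1 (fun j => map (algebraMap k K) (D j)) e
        (fun a => algebraMap k K (x a)) = finrank k K * ∑ v ∈ S, lam v.1 D e x := by
    intro ι α _ _ D e x hx hD
    rw [Finset.sum_biUnion, Finset.mul_sum]
    · refine Finset.sum_congr rfl fun v _ => ?_
      rw [← h1 v, Nat.cast_sum, Finset.sum_mul]
      exact Finset.sum_congr rfl fun w hw => lam_pow (h2 v w hw) hx hD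
    · intro v _ v' _ hne
      refine Finset.disjoint_left.2 fun w hw hw' => hne (FinitePlace.maximalIdeal_injective ?_)
      exact IsDedekindDomain.HeightOneSpectrum.ext ((h3 v w hw).symm.trans (h3 v' w hw'))
  refine ⟨S.biUnion T, key, fun y hy => ?_⟩
  have y0 : y ≠ 0 := Function.ne_iff.2 ⟨0, hy 0⟩
  have y1 : (fun _ : Unit => eval y (∏ j, X j)) ≠ 0 := Function.ne_iff.2 ⟨(), by
    simpa [Finset.prod_eq_zero_iff] using hy⟩
  have e1 := key (fun _ : Unit => ∏ j, X j) (n + 1) y y0 y1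
  have e2 := sum_inf (K := K) (fun _ : Unit => ∏ j, X j) (n + 1) y0 y1
  simp only [map_prod, map_X] at e1 e2
  rw [cnt_lam _ fun j => (map_ne_zero _).2 (hy j), cnt_lam S hy, e1, e2,
    MP_651af7_nt.Final.logHeight_algebraMap]
  ring

/-- The conclusion. -/
def Concl {κ β γ : Type} [Fintype κ] (I : Ideal (MvPolynomial κ k)) (g : ℕ)
    (χ : Fin (n + 1) → MvPolynomial κ k) (F : β → MvPolynomial κ k) (e : ℕ)
    (G : γ → MvPolynomial κ k) (e' : ℕ) (ε : ℝ) : Prop :=
  ∃ (Θ : MvPolynomial κ k) (t : ℕ), Θ.IsHomogeneous t ∧ Θ ∉ I ∧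
    ∀ S : Finset (FinitePlace k), ∃ c C : ℝ, ∀ x : κ → k, x ≠ 0 → (∀ P ∈ I, eval x P = 0) →
      eval x Θ ≠ 0 → (fun l => eval x (F l)) ≠ 0 → (fun l => eval x (G l)) ≠ 0 →
      (∀ j, eval x (χ j) ≠ 0) ∧ finrank k (tsp I x) = g + 1 ∧
      ∀ β : Fin (g + 1) → κ → k, LinearIndependent k β → (∀ l, β l ∈ tsp I x) →
      hK x β + (∑ w : InfinitePlace k, w.mult * (lam w.1 F e x - lam w.1 G e' x) +
        ∑ w ∈ S, (lam w.1 F e x - lam w.1 G e' x)) ≤
        ε * logHeight x + c * cnt S (fun j => eval x (χ j)) + C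

theorem Concl.down {κ β γ : Type} [Fintype κ] [Fintype β] [Fintype γ]
    {I : Ideal (MvPolynomial κ k)} {g : ℕ} {χ : Fin (n + 1) → MvPolynomial κ k}
    {F : β → MvPolynomial κ k} {e : ℕ} {G : γ → MvPolynomial κ k} {e' : ℕ} {ε : ℝ}
    (h : Concl (I.map (map (algebraMap k K))) g (fun j => map (algebraMap k K) (χ j))
      (fun l => map (algebraMap k K) (F l)) e (fun l => map (algebraMap k K) (G l)) e' ε) :
    Concl I g χ F e G e' ε := by
  obtain ⟨Θ, t, t1, t2, t3⟩ := h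
  obtain ⟨Θ₀, u1, u2, u3⟩ := exists_theta (I := I) t1 t2
  refine ⟨Θ₀, t, u1, u2, fun S => ?_⟩
  obtain ⟨T, hT, hT'⟩ := exists_places (K := K) (n := n) S
  obtain ⟨c, C, hC⟩ := t3 T
  have hn : (0 : ℝ) < finrank k K := Nat.cast_pos.2 finrank_pos
  have hne : ∀ {α : Type} {y : α → k}, y ≠ 0 → (fun a => algebraMap k K (y a)) ≠ 0 := fun h h' =>
    h (funext fun a => (map_eq_zero _).1 (congrFun h' a))
  have hev : ∀ (x : κ → k) (P : MvPolynomial κ k),
      aeval (fun a => algebraMap k K (x a)) P = algebraMap k K (eval x P) := fun x P => by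
    rw [← aeval_eq_eval, ← aeval_algebraMap_apply]
    rfl
  have hev' : ∀ (x : κ → k) (P : MvPolynomial κ k), eval (fun a => algebraMap k K (x a))
      (map (algebraMap k K) P) = algebraMap k K (eval x P) := fun x P => by
    rw [eval_map, ← aeval_def, hev]
  refine ⟨c, C / finrank k K, fun x x0 xz xΘ xF xG => ?_⟩
  have hz : ∀ P ∈ I, aeval (fun a => algebraMap k K (x a)) P = 0 := fun P hP => by
    rw [hev, xz P hP, map_zero]
  have e2 := hC _ (hne x0) (zero_map.2 hz) (u3 x xΘ)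
  rw [tsp_map hz, finrank_tsp (F := K) x] at e2
  simp only [hev'] at e2
  obtain ⟨e3, e4, e5⟩ := e2 (hne xF) (hne xG)
  have e6 : ∀ j, eval x (χ j) ≠ 0 := fun j => (map_ne_zero _).1 (e3 j)
  refine ⟨e6, e4, fun β b1 b2 => ?_⟩
  have e7 := e5 (fun l a => algebraMap k K (β l a)) (linearIndependent_algebraMap_comp_iff.2 b1)
    fun l => (tsp_alg (Algebra.ofId k K)).2 (b2 l)
  simp only [mul_sub, Finset.sum_sub_distrib] at e7 ⊢
  rw [sum_inf F e x0 xF, sum_inf G e' x0 xG, hT F e x x0 xF, hT G e' x x0 xG, hT' _ e6, hK_alg,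
    MP_651af7_nt.Final.logHeight_algebraMap] at e7
  refine le_of_mul_le_mul_left ?_ hn
  rw [mul_add _ (ε * _ + _), mul_div_cancel₀ _ hn.ne']
  linarith

end Pool.Agent.Lib.MP_8865d3_nt.Lr
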