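import Pool.Agent.Lib.MP_8865d3_nt.Lr.Bir
import Pool.Agent.Lib.MP_8865d3_nt.Sv.FinD

/-! Wronskians on the product. -/

namespace Pool.Agent.Lib.MP_8865d3_nt.Lr

open MvPolynomial Module Pool.Agent.Lib.MP_651af7_nt Av Bx Height

set_option linter.unusedSectionVars false

noncomputable section

variable {k : Type} [Field k] [CharZero k] {ι κ : Type} [Fintype ι] [Fintype κ] {n r : ℕ}
  {A : AV k ι} {σ : Fin r → ι → k} {ψ ψ' : κ → MvPolynomial (ι ⊕ Fin (n + 1)) k}
  {F : Type} [Field F] [Algebra k F] {p : ι → F} {y : Fin (n + 1) → F}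

theorem dP_hom {τ M : Type} [AddCommMonoid M] {w : τ → M} {δ d : M} {V : τ → MvPolynomial τ k}
    (hV : ∀ s, (V s).IsWeightedHomogeneous w (w s + δ)) {P : MvPolynomial τ k}
    (hP : P.IsWeightedHomogeneous w d) : (dP X V P).IsWeightedHomogeneous w (d + δ) := by
  classical
  have h1 : ∀ m c, ∃ e, (monomial m c : MvPolynomial τ k).IsWeightedHomogeneous w e ∧
      (dP X V (monomial m c)).IsWeightedHomogeneous w (e + δ) :=
    induction_on_monomial (motive := fun Q => ∃ e, Q.IsWeightedHomogeneous w e ∧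
      (dP X V Q).IsWeightedHomogeneous w (e + δ))
      (fun c => ⟨0, isWeightedHomogeneous_C _ _, dP_C X V c ▸ isWeightedHomogeneous_zero _ _ _⟩)
      fun Q s ⟨e, h, h'⟩ => ⟨e + w s, h.mul (isWeightedHomogeneous_X _ _ _), by
        rw [dP_mul_pol, dP_X, aeval_X_left_apply, aeval_X]
        exact (add_assoc e _ δ ▸ h.mul (hV s)).add
          (add_right_comm e δ _ ▸ h'.mul (isWeightedHomogeneous_X _ _ _))⟩
  rw [P.as_sum, dP, map_sum, TrivSqZeroExt.snd_sum]
  refine IsWeightedHomogeneous.sum _ _ _ fun m hm => ?_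
  obtain ⟨e, h, h'⟩ := h1 m (coeff m P)
  have hm' := mem_support_iff.1 hm
  rw [← hP hm', h (d := m) (by rwa [coeff_monomial, if_pos rfl])]
  exact h'

theorem minors_whom {τ M : Type} [AddCommMonoid M] {w : τ → M} {g : ℕ}
    {b : Fin (g + 1) → κ → MvPolynomial τ k} {δ : Fin (g + 1) → M}
    (h : ∀ j a, (b j a).IsWeightedHomogeneous w (δ j)) (T : Fin (g + 1) → κ) :
    (minors b T).IsWeightedHomogeneous w (∑ j, δ j) := by
  rw [minors, ← Matrix.det_transpose, Matrix.det_apply']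
  refine IsWeightedHomogeneous.sum _ _ _ fun σ _ => ?_
  rw [← zero_add (∑ j, δ j), ← map_intCast (C : k →+* MvPolynomial τ k)]
  exact (isWeightedHomogeneous_C _ _).mul (IsWeightedHomogeneous.prod _ _ _ fun j _ => h j _)

theorem minors_tri' {R : Type} [CommRing R] {g : ℕ} (s : R) (t ν : Fin g → R) (x : κ → R)
    (u : Fin g → κ → R) (T : Fin (g + 1) → κ) :
    minors (Fin.cons (fun a => s * x a) fun j a => t j * u j a + ν j * x a) T =
      s * (∏ j, t j) * minors (Fin.cons x u) T := by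
  let B : Matrix (Fin (g + 1)) (Fin (g + 1)) R := .of
    (Fin.cons (Fin.cons s 0) fun j => Fin.cons (ν j) (Matrix.diagonal t j))
  have h1 : B.det = s * ∏ j, t j := by
    have h2 : B.submatrix Fin.succ (Fin.succAbove 0) = Matrix.diagonal t := rfl
    rw [Matrix.det_succ_row_zero, Fin.sum_univ_succ, h2, Matrix.det_diagonal]
    simp [B]
  rw [← h1, ← minors_mul]
  congr 1
  funext l a
  refine Fin.cases ?_ (fun j => ?_) l
  · simp [B, Fin.sum_univ_succ]
  · simp [B, Fin.sum_univ_succ, Matrix.diagonal_apply, add_comm]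

/-- The invariant vector fields of the product of `A` and the torus. -/
def vp (A : AV k ι) (σ : Fin r → ι → k) (n : ℕ) (b : ι) :
    Fin (r + n) → ι ⊕ Fin (n + 1) → MvPolynomial (ι ⊕ Fin (n + 1)) k :=
  Fin.append (fun i => Sum.elim (fun a => rename Sum.inl (vf A (σ i) b a)) 0)
    fun j => Sum.elim 0 (Pi.single j.succ (X (.inr j.succ)))

/-- The Wronskian forms. -/
def wr (A : AV k ι) (σ : Fin r → ι → k) (ψ : κ → MvPolynomial (ι ⊕ Fin (n + 1)) k) (b : ι) :
    (Fin (r + n + 1) → κ) → MvPolynomial (ι ⊕ Fin (n + 1)) k :=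
  minors (Fin.cons ψ fun i l =>
    dP (X : _ → MvPolynomial (ι ⊕ Fin (n + 1)) k) (vp A σ n b i) (ψ l))

theorem wr_hom {d : ℕ × ℕ} (h : ∀ i, (ψ i).IsWeightedHomogeneous (bw ι (Fin (n + 1))) d) (b : ι)
    (S : Fin (r + n + 1) → κ) : (wr A σ ψ b S).IsWeightedHomogeneous (bw ι (Fin (n + 1)))
      ((r + n + 1) * d.1 + r, (r + n + 1) * d.2) := by
  let δ : Fin (r + n) → ℕ × ℕ := Fin.append (fun _ => (1, 0)) 0
  have h1 := minors_whom (w := bw ι (Fin (n + 1))) (δ := Fin.cons d fun i => d + δ i)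
    (b := Fin.cons ψ fun i l =>
      dP (X : _ → MvPolynomial (ι ⊕ Fin (n + 1)) k) (vp A σ n b i) (ψ l)) (fun j a => by
      refine Fin.cases (h a) (fun j => ?_) j
      simp only [Fin.cons_succ]
      refine dP_hom (fun s => ?_) (h a)
      refine Fin.addCases (fun i => ?_) (fun i => ?_) j
      · simp only [vp, δ, Fin.append_left]
        rcases s with s | s
        · exact Sv.homog_rename (w' := bw ι (Fin (n + 1))) (g := Sum.inl) (AddMonoidHom.inl ℕ ℕ)
            (fun _ => rfl) (vf_hom (A := A) (σ i) b s)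
        · exact isWeightedHomogeneous_zero _ _ _
      · simp only [vp, δ, Fin.append_right]
        rcases s with s | s
        · exact isWeightedHomogeneous_zero _ _ _
        · rw [Sum.elim_inr, Pi.single_apply]
          split_ifs
          · exact isWeightedHomogeneous_X k (bw ι (Fin (n + 1))) (.inr i.succ)
          · exact isWeightedHomogeneous_zero _ _ _) S
  have h2 : ∑ j, (Fin.cons d fun i => d + δ i : Fin (r + n + 1) → ℕ × ℕ) j =
      ((r + n + 1) * d.1 + r, (r + n + 1) * d.2) := by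
    rw [Fin.sum_univ_succ]
    simp only [Fin.cons_zero, Fin.cons_succ, Finset.sum_add_distrib, Fin.sum_univ_add, δ,
      Fin.append_left, Fin.append_right]
    ext <;> simp <;> ring
  rwa [h2] at h1

theorem vp_val {c : F} {w : Fin r → ι → F} {μ : ι → Fin r → F}
    (h1 : ∀ b j a, aeval p (vf A (σ j) b a) = c * p b * w j a + μ b j * p a) (b : ι)
    (i : Fin (r + n)) : (fun s => aeval (Sum.elim p y) (vp A σ n b i s)) =
      (Fin.append (fun _ => c * p b) fun j : Fin n => y j.succ : Fin (r + n) → F) i • fv n w i +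
        Sum.elim (fun a => (Fin.append (μ b) 0 : Fin (r + n) → F) i * p a) fun j => 0 * y j := by
  funext s
  refine Fin.addCases (fun i => ?_) (fun i => ?_) i <;> rcases s with s | s
  · simp [vp, fv, aeval_rename, h1]
  · simp [vp, fv]
  · simp [vp, fv]
  · simp only [vp, fv, Fin.append_right, Sum.elim_inr, Pi.single_apply, Pi.add_apply,
      Pi.smul_apply]
    split_ifs <;> simp

/-- The vector fields are tangent to the product. -/
theorem vp_tan (hσ : A.LieBasis σ) (b : ι) (i : Fin (r + n)) :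
    ∀ P ∈ pr A.I n, dP (X : _ → MvPolynomial (ι ⊕ Fin (n + 1)) k) (vp A σ n b i) P ∈ pr A.I n := by
  intro P hP
  have : (pr A.I n).IsPrime := Sv.p0_prime_inl A.isPrime
  obtain ⟨M, _, _, z, hz, -⟩ := tr_point (pr A.I n)
  obtain ⟨p, y, rfl⟩ : ∃ p y, z = Sum.elim p y := ⟨_, _, (Sum.elim_comp_inl_inr z).symm⟩
  have e : ∀ Q : MvPolynomial ι k, aeval (Sum.elim p y) (rename Sum.inl Q) = aeval p Q :=
    fun Q => aeval_rename _ _ _
  have hp : ∀ Q ∈ A.I, aeval p Q = 0 := fun Q hQ => by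
    rw [← e, (hz _).2 (Ideal.mem_map_of_mem _ hQ)]
  have h0 : p ≠ 0 := fun h => by
    have h1 := pr_zero (AV.rep_zero (A := A) (R := k)).zero 0 _
      ((hz (X (.inl A.ao))).1 (by rw [aeval_X, h]; rfl))
    rw [aeval_X, Sum.elim_inl, A.o_ao, map_one] at h1
    exact one_ne_zero h1
  obtain ⟨c, w, μ, -, hw, -, -, h1⟩ := exists_frame hσ h0 hp
  have h2 := map_dP (aeval (Sum.elim p y)) X (vp A σ n b i) P
  simp only [aeval_X] at h2
  rw [← hz, h2, vp_val h1]
  exact mem_tsp.1 (add_mem (Submodule.smul_mem _ _ (fv_mem hp (fun j => tsp_eq (A := A) p ▸ hw j) i)) (pr_tan hp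
    (Submodule.smul_mem _ _ (tsp_self A.hom hp)) _ _)) P hP

theorem prp_val {τ : Type} [Fintype τ] {J : Ideal (MvPolynomial τ k)} {ψ ψ' : κ → MvPolynomial τ k}
    (h : ∀ i l, ψ' i * ψ l - ψ' l * ψ i ∈ J) {z : τ → F} (hy : ∀ P ∈ J, aeval z P = 0)
    (h0 : (fun i => aeval z (ψ i)) ≠ 0) :
    ∃ s : F, (∀ i, aeval z (ψ' i) = s * aeval z (ψ i)) ∧ ∀ w ∈ tsp J z, ∃ ν : F,
      ∀ i, dP z w (ψ' i) = s * dP z w (ψ i) + ν * aeval z (ψ i) := by
  obtain ⟨l, hl⟩ := Function.ne_iff.1 h0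
  have hl' : aeval z (ψ l) ≠ 0 := hl
  have h1 : ∀ i, aeval z (ψ' i) = aeval z (ψ' l) / aeval z (ψ l) * aeval z (ψ i) := fun i => by
    have h2 := hy _ (h i l)
    rw [map_sub, map_mul, map_mul, sub_eq_zero] at h2
    field_simp
    exact h2
  refine ⟨_, h1, fun w hw => ⟨(dP z w (ψ' l) - aeval z (ψ' l) / aeval z (ψ l) * dP z w (ψ l)) /
    aeval z (ψ l), fun i => ?_⟩⟩
  have h2 := dP_add_pol z w (ψ' i * ψ l - ψ' l * ψ i) (ψ' l * ψ i)
  rw [sub_add_cancel, mem_tsp.1 hw _ (h i l), zero_add, dP_mul_pol, dP_mul_pol, h1 i] at h2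
  field_simp at h2 ⊢
  linear_combination h2

theorem wr_val {e : ℕ × ℕ} (hψ : ∀ i, (ψ' i).IsWeightedHomogeneous (bw ι (Fin (n + 1))) e)
    {c s : F} {w : Fin r → ι → F} {μ : ι → Fin r → F}
    (h1 : ∀ b j a, aeval p (vf A (σ j) b a) = c * p b * w j a + μ b j * p a)
    (h2 : ∀ i, aeval (Sum.elim p y) (ψ' i) = s * aeval (Sum.elim p y) (ψ i))
    (h3 : ∀ j, ∃ ν : F, ∀ i, dP (Sum.elim p y) (fv n w j) (ψ' i) =
      s * dP (Sum.elim p y) (fv n w j) (ψ i) + ν * aeval (Sum.elim p y) (ψ i)) (b : ι)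
    (S : Fin (r + n + 1) → κ) : aeval (Sum.elim p y) (wr A σ ψ' b S) = (c ^ r * ∏ j : Fin n, y j.succ) *
      (p b ^ r * (s ^ (r + n + 1) * minors (fr ψ (Sum.elim p y) w) S)) := by
  choose ν hν using h3
  set t : Fin (r + n) → F := Fin.append (fun _ => c * p b) fun j : Fin n => y j.succ with ht
  have h4 := map_minors (aeval (Sum.elim p y) : _ →ₐ[k] F).toRingHom (Fin.cons ψ' fun i l =>
    dP (X : _ → MvPolynomial (ι ⊕ Fin (n + 1)) k) (vp A σ n b i) (ψ' l)) S
  have h5 : (fun j a => (aeval (Sum.elim p y) : _ →ₐ[k] F).toRingHom ((Fin.cons ψ' fun i l =>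
      dP (X : _ → MvPolynomial (ι ⊕ Fin (n + 1)) k) (vp A σ n b i) (ψ' l) :
        Fin (r + n + 1) → κ → MvPolynomial (ι ⊕ Fin (n + 1)) k) j a)) =
      Fin.cons (fun a => s * aeval (Sum.elim p y) (ψ a)) fun j a =>
        t j * s * dP (Sum.elim p y) (fv n w j) (ψ a) + (t j * ν j +
          (Fin.append (μ b) 0 : Fin (r + n) → F) j * e.1 * s) * aeval (Sum.elim p y) (ψ a) := by
    funext j a
    refine Fin.cases (h2 a) (fun j => ?_) j
    have h7 := map_dP (aeval (Sum.elim p y) : _ →ₐ[k] F) X (vp A σ n b j) (ψ' a)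
    simp only [aeval_X] at h7
    rw [vp_val h1, dP_lin, euler (hψ a), hν, h2] at h7
    refine h7.trans ?_
    simp only [Fin.cons_succ]
    ring
  rw [h5, minors_tri'] at h4
  refine h4.trans ?_
  rw [fr, Finset.prod_mul_distrib, Fin.prod_univ_add]
  simp only [ht, Fin.append_left, Fin.append_right, Finset.prod_const, Finset.card_univ,
    Fintype.card_fin]
  ring

end

end Pool.Agent.Lib.MP_8865d3_nt.Lr
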