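import Pool.Agent.Lib.MP_651af7_nt.Bx.Defs
import Pool.Agent.Lib.MP_651af7_nt.Av.Defs

/-! Birational maps to the product of a variety and a projective space. -/

namespace Pool.Agent.Lib.MP_8865d3_nt.Lr

open MvPolynomial Pool.Agent.Lib.MP_651af7_nt

variable {k : Type} [Field k] {ι κ : Type} {n : ℕ}

/-- The ideal of the product of the variety of `J` and projective space of dimension `n`. -/
noncomputable def pr (J : Ideal (MvPolynomial ι k)) (n : ℕ) :
    Ideal (MvPolynomial (ι ⊕ Fin (n + 1)) k) :=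
  J.map (rename Sum.inl)

/-- The tuple `f` is not zero and proportional to `g` modulo `I`. -/
def Same {R α : Type} [CommRing R] (I : Ideal R) (f g : α → R) : Prop :=
  (∃ a, f a ∉ I) ∧ ∀ a b, f a * g b - f b * g a ∈ I

/-- The forms `φ₁`, `φ₂` give a birational map from the variety of `I` to the product of the
variety of `J` and projective space, with inverse given by the forms `ψ`. -/
structure Bir (I : Ideal (MvPolynomial κ k)) (J : Ideal (MvPolynomial ι k))
    (φ₁ : ι → MvPolynomial κ k) (φ₂ : Fin (n + 1) → MvPolynomial κ k)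
    (ψ : κ → MvPolynomial (ι ⊕ Fin (n + 1)) k) : Prop where
  hom₁ : ∃ a, ∀ j, (φ₁ j).IsHomogeneous a
  hom₂ : ∃ a, ∀ j, (φ₂ j).IsHomogeneous a
  hom : ∃ b, ∀ i, (ψ i).IsWeightedHomogeneous (Av.bw ι (Fin (n + 1))) b
  map₁ : ∀ P ∈ J, aeval φ₁ P ∈ I
  map : ∀ P ∈ I, aeval ψ P ∈ pr J n
  id : Same I (fun i => aeval (Sum.elim φ₁ φ₂) (ψ i)) X
  id₁ : Same (pr J n) (fun a => aeval ψ (φ₁ a)) fun a => X (.inl a)
  id₂ : Same (pr J n) (fun j => aeval ψ (φ₂ j)) fun j => X (.inr j)

end Pool.Agent.Lib.MP_8865d3_nt.Lr
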