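import Pool.Agent.Lib.MP_651af7_nt.Bx.Rep
import Pool.Agent.Lib.MP_8865d3_nt.Sv.FinB
import Pool.Agent.Lib.MP_8865d3_nt.Lr.BDef

/-! A rational map from the product of an abelian variety and a projective space is defined in
codimension one. -/

namespace Pool.Agent.Lib.MP_8865d3_nt.Lr

open MvPolynomial Module Pool.Agent.Lib.MP_651af7_nt.Av Pool.Agent.Lib.MP_651af7_nt.Bx

set_option linter.unusedSectionVars false

noncomputable section

variable {k : Type} [Field k] {ι κ : Type} {n : ℕ}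

/-- The common zeros of the forms `Γ l` have codimension at least two in the product. -/
def Ht2 {L : Type} (P : Ideal (MvPolynomial (ι ⊕ Fin (n + 1)) k))
    (Γ : L → MvPolynomial (ι ⊕ Fin (n + 1)) k) : Prop :=
  ∀ 𝔭 : Ideal (MvPolynomial (ι ⊕ Fin (n + 1)) k ⧸ P), 𝔭.IsPrime →
    (∀ l, Ideal.Quotient.mk P (Γ l) ∈ 𝔭) → (∃ a, Ideal.Quotient.mk P (X (.inl a)) ∉ 𝔭) →
    (∃ j, Ideal.Quotient.mk P (X (.inr j)) ∉ 𝔭) → 2 ≤ 𝔭.height

/-- `ψ'` is a tuple of forms of bidegree `e` proportional to `ψ`. -/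
structure Prp (P : Ideal (MvPolynomial (ι ⊕ Fin (n + 1)) k))
    (ψ ψ' : κ → MvPolynomial (ι ⊕ Fin (n + 1)) k) (e : ℕ × ℕ) : Prop where
  hom : ∀ i, (ψ' i).IsWeightedHomogeneous (bw ι (Fin (n + 1))) e
  prp : ∀ i l, ψ' i * ψ l - ψ' l * ψ i ∈ P

theorem Ht2.of_rad {L L' : Type} {P : Ideal (MvPolynomial (ι ⊕ Fin (n + 1)) k)}
    {Γ : L → MvPolynomial (ι ⊕ Fin (n + 1)) k} {Γ' : L' → MvPolynomial (ι ⊕ Fin (n + 1)) k}
    (h : Ht2 P Γ) (h' : ∀ l, ∃ l' m, Γ' l' = Γ l ^ m) : Ht2 P Γ' := fun 𝔭 hp h1 =>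
  h 𝔭 hp fun l => by
    obtain ⟨l', m, e⟩ := h' l
    have h2 := h1 l'
    rw [e, map_pow] at h2
    exact hp.mem_of_pow_mem _ h2

theorem Ht2.pow {L : Type} {P : Ideal (MvPolynomial (ι ⊕ Fin (n + 1)) k)}
    {Γ : L → MvPolynomial (ι ⊕ Fin (n + 1)) k} (h : Ht2 P Γ) (m : ℕ) : Ht2 P fun l => Γ l ^ m :=
  h.of_rad fun l => ⟨l, m, rfl⟩

/-- In a graded ring: take `i₀` such that `ψ i₀` divides all `ψ i` in the local ring, clear
denominators and take homogeneous components. -/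
theorem rep_gr {S M : Type} [CommRing S] [Algebra k S] [DecidableEq M] [AddCancelCommMonoid M]
    [Fintype κ] (𝒜 : M → Submodule k S) [GradedAlgebra 𝒜] {J : Ideal S} [J.IsPrime]
    (hJ : J.IsHomogeneous 𝒜) (𝔭 : Ideal (S ⧸ J)) [𝔭.IsPrime]
    (hv : PreValuationRing (Localization.AtPrime 𝔭)) {ψ : κ → S} {b : M} (hψ : ∀ i, ψ i ∈ 𝒜 b)
    (h0 : ∃ i, ψ i ∉ J) : ∃ (ψ' : κ → S) (e : M), (∀ i, ψ' i ∈ 𝒜 e) ∧
      (∀ i l, ψ' i * ψ l - ψ' l * ψ i ∈ J) ∧ ∃ i, Ideal.Quotient.mk J (ψ' i) ∉ 𝔭 := by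
  classical
  have hp : J.IsPrime := inferInstance
  obtain ⟨i₁, hi₁⟩ := h0
  obtain ⟨i₀, hi₀⟩ := rep2_min (fun i => algebraMap (S ⧸ J) (Localization.AtPrime 𝔭)
    (Ideal.Quotient.mk J (ψ i))) Finset.univ ⟨i₁, Finset.mem_univ _⟩
  choose u hu using fun i => hi₀ i (Finset.mem_univ i)
  obtain ⟨c, hc⟩ := IsLocalization.exist_integer_multiples_of_finite 𝔭.primeCompl u
  choose β hβ using hc
  have hinj : Function.Injective (algebraMap (S ⧸ J) (Localization.AtPrime 𝔭)) :=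
    IsLocalization.injective (Localization.AtPrime 𝔭) 𝔭.primeCompl_le_nonZeroDivisors
  obtain ⟨C, hC⟩ := Ideal.Quotient.mk_surjective (c : S ⧸ J)
  choose B hB using fun i => Ideal.Quotient.mk_surjective (β i)
  have h1 : ∀ i, C * ψ i - B i * ψ i₀ ∈ J := fun i => by
    rw [← Ideal.Quotient.eq, map_mul, map_mul, hC, hB]
    apply hinj
    rw [map_mul, map_mul, hβ, hu i, Algebra.smul_def]
    ring
  obtain ⟨e, he⟩ : ∃ e, Ideal.Quotient.mk J (DirectSum.decompose 𝒜 C e : S) ∉ 𝔭 := by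
    by_contra hn
    apply c.2
    rw [← hC, ← DirectSum.sum_support_decompose 𝒜 C, map_sum]
    exact 𝔭.sum_mem fun d _ => not_not.1 fun h => hn ⟨d, h⟩
  have h2 : ∀ i, (DirectSum.decompose 𝒜 C e : S) * ψ i -
      (DirectSum.decompose 𝒜 (B i) e : S) * ψ i₀ ∈ J := fun i => by
    have := hJ (e + b) (h1 i)
    rwa [DirectSum.decompose_sub, DirectSum.sub_apply, Submodule.coe_sub,
      DirectSum.coe_decompose_mul_add_of_right_mem 𝒜 (hψ i),
      DirectSum.coe_decompose_mul_add_of_right_mem 𝒜 (hψ i₀)] at this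
  have h3 : ψ i₀ ∉ J := fun h => by
    have h4 : (DirectSum.decompose 𝒜 C e : S) * ψ i₁ ∈ J := by
      simpa using J.add_mem (h2 i₁) (J.mul_mem_left (DirectSum.decompose 𝒜 (B i₁) e : S) h)
    rcases hp.mem_or_mem h4 with h5 | h5
    · exact he (by rw [Ideal.Quotient.eq_zero_iff_mem.2 h5]; exact 𝔭.zero_mem)
    · exact hi₁ h5
  refine ⟨fun i => (DirectSum.decompose 𝒜 (B i) e : S), e,
    fun i => (DirectSum.decompose 𝒜 (B i) e).2, fun i l => ?_, i₀, ?_⟩
  · refine (hp.mem_or_mem (x := ψ i₀) ?_).resolve_left h3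
    have := J.sub_mem (J.mul_mem_left (ψ i) (h2 l)) (J.mul_mem_left (ψ l) (h2 i))
    refine (congrArg (· ∈ J) ?_).mp this
    ring
  · have h4 : (DirectSum.decompose 𝒜 C e : S) - (DirectSum.decompose 𝒜 (B i₀) e : S) ∈ J :=
      (hp.mem_or_mem (y := ψ i₀) (by rw [sub_mul]; exact h2 i₀)).resolve_right h3
    rw [← Ideal.Quotient.eq.2 h4]
    exact he

theorem rename_inl_hom {τ : Type} {f : MvPolynomial ι k} {d : ℕ} (hf : f.IsHomogeneous d) :
    (rename (Sum.inl : ι → ι ⊕ τ) f).IsWeightedHomogeneous (bw ι τ) (d, 0) :=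
  Sv.homog_rename (w := 1) (w' := bw ι τ) (AddMonoidHom.inl ℕ ℕ) (g := Sum.inl) (fun _ => rfl) hf

theorem pr_prime {J : Ideal (MvPolynomial ι k)} (hp : J.IsPrime) (n : ℕ) : (pr J n).IsPrime :=
  Sv.p0_prime_inl hp

theorem rep_at [Fintype κ] {J : Ideal (MvPolynomial ι k)} (hp : J.IsPrime)
    (hJ : ∀ P ∈ J, ∀ d, homogeneousComponent d P ∈ J)
    (𝔭 : Ideal (MvPolynomial (ι ⊕ Fin (n + 1)) k ⧸ pr J n)) [𝔭.IsPrime]
    (hv : PreValuationRing (Localization.AtPrime 𝔭)) {ψ : κ → MvPolynomial (ι ⊕ Fin (n + 1)) k}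
    {b : ℕ × ℕ} (hψ : ∀ i, (ψ i).IsWeightedHomogeneous (bw ι (Fin (n + 1))) b)
    (h0 : ∃ i, ψ i ∉ pr J n) :
    ∃ ψ' e, Prp (pr J n) ψ ψ' e ∧ ∃ i, Ideal.Quotient.mk (pr J n) (ψ' i) ∉ 𝔭 := by
  have := pr_prime hp n
  let _ := weightedGradedAlgebra k (bw ι (Fin (n + 1)))
  have e : pr J n = Ideal.span {g | ∃ f ∈ J, ∃ d, f.IsHomogeneous d ∧ g = rename Sum.inl f} := by
    refine le_antisymm (Ideal.map_le_iff_le_comap.2 fun f hf => ?_) (Ideal.span_le.2 ?_)
    · rw [Ideal.mem_comap, ← sum_homogeneousComponent f, map_sum]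
      exact Ideal.sum_mem _ fun d _ => Ideal.subset_span
        ⟨_, hJ f hf d, d, homogeneousComponent_isHomogeneous d f, rfl⟩
    · rintro _ ⟨f, hf, -, -, rfl⟩
      exact Ideal.mem_map_of_mem _ hf
  have hh : (pr J n).IsHomogeneous (weightedHomogeneousSubmodule k (bw ι (Fin (n + 1)))) := by
    rw [e]
    refine Ideal.homogeneous_span _ _ ?_
    rintro _ ⟨f, -, d, hf, rfl⟩
    exact ⟨(d, 0), rename_inl_hom hf⟩
  obtain ⟨ψ', e, h1, h2, h3⟩ := rep_gr _ hh 𝔭 hv (ψ := ψ) (b := b) hψ h0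
  exact ⟨ψ', e, ⟨h1, h2⟩, h3⟩

variable [CharZero k]

/-- The cotangent space is at most a line if all tangent vectors lie in a space of dimension at
most `N + 1` and the residue field has transcendence degree at least `N`. -/
theorem cot_le {τ R : Type} [Fintype τ] [CommRing R] [IsLocalRing R] [IsNoetherianRing R]
    [Algebra k R] {x : τ → R}
    (hg : ∀ t : R, ∃ P Q : MvPolynomial τ k, IsUnit (aeval x Q) ∧ t * aeval x Q = aeval x P)
    {N : ℕ} (U : Submodule (IsLocalRing.ResidueField R) (τ → IsLocalRing.ResidueField R))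
    (hU : finrank (IsLocalRing.ResidueField R) U ≤ N + 1)
    (hx : ∀ δ : Derivation k R (IsLocalRing.ResidueField R), (fun c => δ (x c)) ∈ U)
    {z : Fin N → R}
    (hz : AlgebraicIndependent k fun t => algebraMap R (IsLocalRing.ResidueField R) (z t)) :
    finrank (IsLocalRing.ResidueField R) (IsLocalRing.CotangentSpace R) ≤ 1 := by
  classical
  by_contra hn
  have h2 : 2 ≤ finrank (IsLocalRing.ResidueField R) (IsLocalRing.CotangentSpace R) := by omega
  let b := finBasis (IsLocalRing.ResidueField R) (IsLocalRing.CotangentSpace R)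
  choose δ hδ using fun i : Fin 2 => exists_der_cot (k := k) (b.coord (Fin.castLE h2 i))
  choose m hm using fun i : Fin 2 =>
    (IsLocalRing.maximalIdeal R).toCotangent_surjective (b (Fin.castLE h2 i))
  choose D hD using fun t : Fin N => exists_derivation hz (Pi.single t 1)
  let E : Fin 2 ⊕ Fin N → Derivation k R (IsLocalRing.ResidueField R) :=
    Sum.elim δ fun t => (D t).compAlgebraMap R
  let w : Fin 2 ⊕ Fin N → U := fun i => ⟨fun c => E i (x c), hx _⟩
  have hw : LinearIndependent (IsLocalRing.ResidueField R) w := by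
    refine Fintype.linearIndependent_iff.mpr fun g hg0 => ?_
    have hs : ∀ t, (∑ i, g i • E i) t = ∑ i, g i * E i t := fun t =>
      (congrFun (map_sum Derivation.coeFnAddMonoidHom (fun i => g i • E i) Finset.univ) t).trans
        ((Finset.sum_apply _ _ _).trans (Finset.sum_congr rfl fun _ _ => rfl))
    have h3 : (fun c => (∑ i, g i • E i) (x c)) = 0 := funext fun c => by
      have := congrFun (congrArg Subtype.val hg0) c
      rw [Submodule.coe_sum, Finset.sum_apply] at this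
      exact (hs _).trans this
    have h4 : ∀ P : MvPolynomial τ k, (∑ i, g i • E i) (aeval x P) = 0 := fun P => by
      rw [← rep1_chain, h3, dP_zero]
    have h5 : ∀ t, ∑ i, g i * E i t = 0 := fun t => by
      obtain ⟨P, Q, hQ, e⟩ := hg t
      have h6 := h4 P
      rw [← e, Derivation.leibniz, h4 Q, smul_zero, zero_add, hQ.smul_eq_zero] at h6
      exact (hs t).symm.trans h6
    have h7 : ∀ i, g (.inl i) = 0 := fun i => by
      have h6 := h5 (m i)
      have h8 : algebraMap R (IsLocalRing.ResidueField R) (m i) = 0 :=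
        (IsLocalRing.residue_eq_zero_iff _).mpr (m i).2
      have h10 : ∀ j, E (.inl j) (m i) = if i = j then 1 else 0 := fun j => by
        rw [show E (.inl j) = δ j from rfl, hδ, hm, Basis.coord_apply, Basis.repr_self,
          Finsupp.single_apply]
        simp only [Fin.castLE_inj]
      have h11 : ∀ t, E (.inr t) (m i) = 0 := fun t => (congrArg (D t) h8).trans (map_zero _)
      simpa only [Fintype.sum_sum_type, h10, h11, mul_zero, Finset.sum_const_zero, add_zero,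
        mul_ite, mul_one, Finset.sum_ite_eq, Finset.mem_univ, if_true] using h6
    rintro (i | s)
    · exact h7 i
    · have h10 : ∀ t, E (.inr t) (z s) = if s = t then 1 else 0 := fun t =>
        (hD t s).trans (Pi.single_apply _ _ _)
      simpa only [Fintype.sum_sum_type, h7, h10, zero_mul, mul_zero, Finset.sum_const_zero,
        zero_add, mul_ite, mul_one, Finset.sum_ite_eq, Finset.mem_univ, if_true] using h5 (z s)
  have h9 := hw.fintype_card_le_finrank
  simp at h9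
  omega

variable [Fintype ι] {r : ℕ} {A : AV k ι} {σ : Fin r → ι → k}

theorem rank_prod (hσ : A.LieBasis σ) {F : Type} [Field F] [Algebra k F] {y : ι → F} (h0 : y ≠ 0)
    (hy : ∀ P ∈ A.I, aeval y P = 0) :
    finrank F ((A.Tan y).comap (LinearMap.funLeft F F (Sum.inl : ι → ι ⊕ Fin (n + 1)))) ≤
      n + 1 + r + 1 := by
  let f : (A.Tan y).comap (LinearMap.funLeft F F (Sum.inl : ι → ι ⊕ Fin (n + 1))) →ₗ[F]
      (Fin (n + 1) → F) × A.Tan y :=
    ((LinearMap.funLeft F F Sum.inr).domRestrict _).prod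
      ((LinearMap.funLeft F F Sum.inl).restrict fun _ h => h)
  have hf : Function.Injective f := fun v w h => Subtype.ext (funext fun c => by
    rcases c with a | j
    · exact congrFun (congrArg Subtype.val (congrArg Prod.snd h)) a
    · exact congrFun (congrArg Prod.fst h) j)
  have h := LinearMap.finrank_le_finrank_of_injective hf
  rwa [finrank_prod, rank_tan hσ h0 hy, finrank_fin_fun] at h

theorem val_loc (hσ : A.LieBasis σ) {B : Type} [CommRing B] [IsDomain B] [Algebra k B]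
    [Algebra.FiniteType k B] (π : MvPolynomial (ι ⊕ Fin (n + 1)) k →ₐ[k] B)
    (hπ : Function.Surjective π) (hI : ∀ P ∈ A.I, π (rename Sum.inl P) = 0) (𝔭 : Ideal B)
    [𝔭.IsPrime] (h : 𝔭.height ≤ 1) {z : Fin (n + 1 + r + 1) → B} (hz : AlgebraicIndependent k z)
    {a : ι} (ha : π (X (.inl a)) ∉ 𝔭) : PreValuationRing (Localization.AtPrime 𝔭) := by
  have := Algebra.FiniteType.isNoetherianRing k B
  obtain ⟨z', hz'⟩ := ht_indep 𝔭 h hz
  have hf : ∀ P, aeval (fun c => algebraMap B (Localization.AtPrime 𝔭) (π (X c))) P =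
      algebraMap B (Localization.AtPrime 𝔭) (π P) := fun P => by
    rw [rep1_ev, aeval_unique π]
    simp [Function.comp_def]
  have hx : ∀ P ∈ A.I,
      aeval (fun c => algebraMap B (Localization.AtPrime 𝔭) (π (X (.inl c)))) P = 0 :=
    fun P hP => by
      have e := hf (rename Sum.inl P)
      rwa [aeval_rename, hI P hP, map_zero] at e
  have h1 := cot_le (x := fun c => algebraMap B (Localization.AtPrime 𝔭) (π (X c)))
    (z := fun t => algebraMap B (Localization.AtPrime 𝔭) (z' t)) (fun t => ?_) _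
    (rank_prod (n := n) hσ (y := fun c => algebraMap _ (IsLocalRing.ResidueField _)
      (algebraMap B (Localization.AtPrime 𝔭) (π (X (.inl c))))) (fun e => ha
        ((IsLocalization.AtPrime.to_map_mem_maximal_iff _ 𝔭 _).mp
          ((IsLocalRing.residue_eq_zero_iff _).mp (congrFun e a))))
      fun P hP => by rw [rep1_ev, hx P hP, map_zero])
    (fun δ P hP => (rep1_chain δ _ P).trans (by rw [hx P hP, map_zero])) ?_
  · have h2 : ValuationRing (Localization.AtPrime 𝔭) :=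
      ((tfae_of_isNoetherianRing_of_isLocalRing_of_isDomain _).out 5 1).mp h1
    exact h2.toPreValuationRing
  · obtain ⟨⟨p, s⟩, e⟩ := IsLocalization.surj 𝔭.primeCompl t
    obtain ⟨P, hP⟩ := hπ p
    obtain ⟨Q, hQ⟩ := hπ s.1
    exact ⟨P, Q, by rw [hf, hQ]; exact IsLocalization.map_units _ s, by rw [hf, hf, hP, hQ, e]⟩
  · refine algebraicIndependent_iff.mpr fun p hp => algebraicIndependent_iff.mp hz' p ?_
    rw [rep1_ev, rep1_ev] at hp
    have h3 := (IsLocalization.AtPrime.to_map_mem_maximal_iff _ 𝔭 _).mp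
      ((IsLocalRing.residue_eq_zero_iff _).mp hp)
    exact (rep1_ev (F := B ⧸ 𝔭) z' p).trans (Ideal.Quotient.eq_zero_iff_mem.mpr h3)

theorem indep_prod (hσ : A.LieBasis σ) :
    ∃ z : Fin (n + 1 + r + 1) → MvPolynomial (ι ⊕ Fin (n + 1)) k ⧸ pr A.I n,
      AlgebraicIndependent k z := by
  have := rep1_prime A
  obtain ⟨z, hz⟩ := exists_indep hσ
  choose Z hZ using fun t => Ideal.Quotient.mk_surjective (z t)
  let θ : MvPolynomial (ι ⊕ Fin (n + 1)) k →ₐ[k]
      MvPolynomial (Fin (n + 1)) (MvPolynomial ι k ⧸ A.I) :=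
    aeval (Sum.elim (fun a => C (Ideal.Quotient.mk A.I (X a))) X)
  have h1 : ∀ f, θ (rename Sum.inl f) = C (Ideal.Quotient.mk A.I f) := fun f => by
    have e : θ.comp (rename Sum.inl) =
        (IsScalarTower.toAlgHom k _ _).comp (Ideal.Quotient.mkₐ k A.I) :=
      algHom_ext fun a => by simp [θ]
    exact DFunLike.congr_fun e f
  have h2 : ∀ f ∈ pr A.I n, θ f = 0 := fun f hf => by
    have e : pr A.I n ≤ RingHom.ker θ := Ideal.map_le_iff_le_comap.2 fun g hg => by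
      rw [Ideal.mem_comap, RingHom.mem_ker, h1, Ideal.Quotient.eq_zero_iff_mem.2 hg, map_zero]
    exact e hf
  have h3 := hz.sumElim_comp (algebraicIndependent_X (Fin (n + 1)) (MvPolynomial ι k ⧸ A.I))
  have h4 : AlgebraicIndependent k (Sum.elim (fun j => Ideal.Quotient.mk (pr A.I n) (X (.inr j)))
      fun t => Ideal.Quotient.mk (pr A.I n) (rename Sum.inl (Z t))) := by
    have e : ∀ f, Ideal.Quotient.liftₐ _ θ h2 (Ideal.Quotient.mk (pr A.I n) f) = θ f :=
      fun f => DFunLike.congr_fun (Ideal.Quotient.liftₐ_comp _ θ h2) f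
    refine .of_comp (Ideal.Quotient.liftₐ _ θ h2)
      ((congrArg (fun u => AlgebraicIndependent k u) (_root_.funext ?_)).mp h3)
    rintro (j | t)
    · rw [Function.comp_apply, Sum.elim_inl, Sum.elim_inl, e, aeval_X, Sum.elim_inr]
    · rw [Function.comp_apply, Sum.elim_inr, Sum.elim_inr, e, h1, hZ, Function.comp_apply,
        algebraMap_eq]
  exact ⟨_, h4.comp _ (finSumFinEquiv (m := n + 1) (n := r + 1)).symm.injective⟩

theorem val_at (hσ : A.LieBasis σ) (𝔭 : Ideal (MvPolynomial (ι ⊕ Fin (n + 1)) k ⧸ pr A.I n))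
    [𝔭.IsPrime] (h : 𝔭.height ≤ 1) {a : ι} (ha : Ideal.Quotient.mk (pr A.I n) (X (.inl a)) ∉ 𝔭) :
    PreValuationRing (Localization.AtPrime 𝔭) := by
  have := pr_prime (rep1_prime A) n
  obtain ⟨z, hz⟩ := indep_prod (n := n) hσ
  exact val_loc hσ (Ideal.Quotient.mkₐ k (pr A.I n)) (Ideal.Quotient.mkₐ_surjective k _)
    (fun P hP => Ideal.Quotient.eq_zero_iff_mem.mpr (Ideal.mem_map_of_mem _ hP)) 𝔭 h hz ha

/-- Finitely many proportional tuples generate the ideal of the entries of all of them; raise them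
to one bidegree by powers of the variables. -/
theorem exists_rep [Fintype κ] (A : AV k ι) {ψ : κ → MvPolynomial (ι ⊕ Fin (n + 1)) k} {b : ℕ × ℕ}
    (hψ : ∀ i, (ψ i).IsWeightedHomogeneous (bw ι (Fin (n + 1))) b) (h0 : ∃ i, ψ i ∉ pr A.I n) :
    ∃ (T : Type) (_ : Fintype T) (d : ℕ × ℕ) (Ψ : T → κ → MvPolynomial (ι ⊕ Fin (n + 1)) k),
      (∀ t, Prp (pr A.I n) ψ (Ψ t) d) ∧ Ht2 (pr A.I n) fun p : T × κ => Ψ p.1 p.2 := by
  obtain ⟨r, σ, hσ⟩ := exists_lieBasis A
  obtain ⟨s, hs, hsp⟩ := (Submodule.fg_span_iff_fg_span_finset_subset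
    {f : MvPolynomial (ι ⊕ Fin (n + 1)) k | ∃ χ e i, Prp (pr A.I n) ψ χ e ∧ χ i = f}).1
      (IsNoetherian.noetherian (R := MvPolynomial (ι ⊕ Fin (n + 1)) k) _)
  choose χ e i hχ hi using fun t : s => hs t.2
  obtain ⟨d, hd⟩ : ∃ d : ℕ × ℕ, ∀ t, (e t).1 ≤ d.1 ∧ (e t).2 ≤ d.2 :=
    ⟨(Finset.univ.sup fun t => (e t).1, Finset.univ.sup fun t => (e t).2), fun t =>
      ⟨Finset.le_sup (f := fun t => (e t).1) (Finset.mem_univ t),
        Finset.le_sup (f := fun t => (e t).2) (Finset.mem_univ t)⟩⟩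
  refine ⟨s × ι × Fin (n + 1), inferInstance, d, fun t l => X (.inl t.2.1) ^ (d.1 - (e t.1).1) *
    X (.inr t.2.2) ^ (d.2 - (e t.1).2) * χ t.1 l, fun t => ⟨fun l => ?_, fun l m => ?_⟩, ?_⟩
  · have h := (((isWeightedHomogeneous_X k (bw ι (Fin (n + 1))) (.inl t.2.1)).pow
      (d.1 - (e t.1).1)).mul ((isWeightedHomogeneous_X k (bw ι (Fin (n + 1))) (.inr t.2.2)).pow
        (d.2 - (e t.1).2))).mul ((hχ t.1).hom l)
    refine (congrArg _ (Prod.ext ?_ ?_)).mp h
    · simpa [bw] using Nat.sub_add_cancel (hd t.1).1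
    · simpa [bw] using Nat.sub_add_cancel (hd t.1).2
  · rw [mul_assoc _ (χ t.1 l), mul_assoc _ (χ t.1 m), ← mul_sub]
    exact Ideal.mul_mem_left _ _ ((hχ t.1).prp l m)
  rintro 𝔭 hp h𝔭 ⟨a, ha⟩ ⟨j, hj⟩
  refine not_lt.1 fun h => ?_
  rw [ENat.lt_two_iff] at h
  obtain ⟨ψ', e', h1, l, hl⟩ := rep_at (rep1_prime A) A.hom 𝔭 (val_at hσ 𝔭 h ha) hψ h0
  have h2 : Ideal.span (s : Set (MvPolynomial (ι ⊕ Fin (n + 1)) k)) ≤
      𝔭.comap (Ideal.Quotient.mk (pr A.I n)) := Ideal.span_le.2 fun f hf => by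
    have h3 := h𝔭 ((⟨f, hf⟩, a, j), i ⟨f, hf⟩)
    simp only [map_mul, map_pow, hi] at h3
    exact (hp.mem_or_mem h3).resolve_left fun h4 => (hp.mem_or_mem h4).elim
      (fun h5 => ha (hp.mem_of_pow_mem _ h5)) fun h5 => hj (hp.mem_of_pow_mem _ h5)
  exact hl (h2 (hsp.le (Submodule.subset_span ⟨ψ', e', l, h1, rfl⟩)))

end

end Pool.Agent.Lib.MP_8865d3_nt.Lr
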