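import Pool.Agent.Lib.MP_8865d3_nt.Sv.FinD
import Pool.Agent.Lib.MP_8865d3_nt.Lr.Rep

/-! The inequality in homogeneous coordinates for forms whose common zeros have codimension two in
the product. -/

namespace Pool.Agent.Lib.MP_8865d3_nt.Lr

open MvPolynomial Height Filter Finset NumberField Pool.Agent.Lib.MP_651af7_nt.Av
open Pool.Agent.Lib.MP_651af7_nt.Vj Sv

set_option linter.unusedSectionVars false

section

variable {k ι : Type} [Field k] [CharZero k] [Fintype ι] {s : ℕ}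

theorem chain2 {τ M : Type} [Finite τ] [Field M] [Algebra k M] {I : Ideal (MvPolynomial τ k)}
    {w : τ → M} (hI : ∀ f ∈ I, aeval w f = 0) (hc : ∀ 𝔭 : Ideal (MvPolynomial τ k ⧸ I), 𝔭.IsPrime →
      (∀ f, Ideal.Quotient.mk I f ∈ 𝔭 ↔ aeval w f = 0) → 2 ≤ 𝔭.height) :
    ∃ (M₀ : Type) (_ : Field M₀) (_ : Algebra k M₀) (y : τ → M₀),
      (∀ f ∈ I, aeval y f = 0) ∧ td k (Set.range w) + 1 + 1 ≤ td k (Set.range y) := by
  let p : Ideal (MvPolynomial τ k) := RingHom.ker (aeval w : MvPolynomial τ k →ₐ[k] M)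
  have hp : p.IsPrime := RingHom.ker_isPrime _
  have hIp : I ≤ p := hI
  have hp' : (p.map (Ideal.Quotient.mk I)).IsPrime :=
    Ideal.map_isPrime_of_surjective Ideal.Quotient.mk_surjective (by rwa [Ideal.mk_ker])
  have h3 : ¬ (p.map (Ideal.Quotient.mk I)).height ≤ (1 : ℕ) := fun h =>
    absurd ((hc _ hp' fun f => Ideal.mem_quotient_iff_mem hIp).trans h) (by norm_num)
  rw [Ideal.height_le_iff] at h3
  push Not at h3
  obtain ⟨q₁, hq₁, l₁, h3⟩ := h3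
  have h4 : ¬ q₁.height ≤ (0 : ℕ) := fun h => absurd (h3.trans h) (by norm_num)
  rw [Ideal.height_le_iff] at h4
  push Not at h4
  obtain ⟨q₀, hq₀, l₀, -⟩ := h4
  obtain ⟨M₁, _, _, y₁, hy₁, -⟩ := tr_point (q₁.comap (Ideal.Quotient.mk I))
  obtain ⟨M₂, _, _, y₀, hy₀, -⟩ := tr_point (q₀.comap (Ideal.Quotient.mk I))
  have e₁ : td k (Set.range y₁) < td k (Set.range y₀) := lt_of_not_ge fun h => by
    refine l₀.not_ge fun g hg => ?_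
    obtain ⟨f, rfl⟩ := Ideal.Quotient.mk_surjective g
    exact (hy₀ f).1 ((td_le_of_spec fun f hf => (hy₁ f).2 (l₀.le ((hy₀ f).1 hf))).2 h f
      ((hy₁ f).2 hg))
  have e₂ : td k (Set.range w) < td k (Set.range y₁) := lt_of_not_ge fun h => by
    refine l₁.not_ge (Ideal.map_le_iff_le_comap.2 fun f hf => ?_)
    refine (hy₁ f).1 ((td_le_of_spec fun f hf => ?_).2 h f hf)
    have h5 := Ideal.comap_mono (f := Ideal.Quotient.mk I) l₁.le ((hy₁ f).1 hf)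
    rwa [Ideal.comap_map_of_surjective _ Ideal.Quotient.mk_surjective, ← RingHom.ker_eq_comap_bot,
      Ideal.mk_ker, sup_eq_left.2 hIp] at h5
  refine ⟨M₂, _, _, y₀, fun f hf => (hy₀ f).2 ?_,
    (add_le_add (Order.add_one_le_of_lt e₂) le_rfl).trans (Order.add_one_le_of_lt e₁)⟩
  rw [Ideal.mem_comap, Ideal.Quotient.eq_zero_iff_mem.2 hf]
  exact zero_mem _

theorem Ht2.ne (A : AV k ι) {L : Type} {Γ : L → MvPolynomial (ι ⊕ Fin (s + 1)) k}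
    (h : Ht2 (pr A.I s) Γ) : ∃ l, Γ l ∉ pr A.I s := by
  by_contra h0
  have := pr_prime A.isPrime s
  have h1 := h ⊥ Ideal.isPrime_bot
    (fun l => Ideal.Quotient.eq_zero_iff_mem.2 (not_not.1 fun h' => h0 ⟨l, h'⟩))
    ⟨A.ao, fun e => ?_⟩ ⟨0, fun e => X_notMem A.isPrime 0 (Ideal.Quotient.eq_zero_iff_mem.1 e)⟩
  · rw [Ideal.height_bot] at h1
    exact absurd h1 (by decide)
  · have h2 := aeval_zero_of_mem (AV.rep_zero (A := A) (R := k)).zero (fun _ : Fin (s + 1) => (0 : k))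
      (Ideal.Quotient.eq_zero_iff_mem.1 e)
    simp [A.o_ao] at h2

theorem exists_rep' {κ : Type} [Fintype κ] (A : AV k ι) {ψ : κ → MvPolynomial (ι ⊕ Fin (s + 1)) k}
    {b : ℕ × ℕ} (hψ : ∀ i, (ψ i).IsWeightedHomogeneous (bw ι (Fin (s + 1))) b)
    (h0 : ∃ i, ψ i ∉ pr A.I s) :
    ∃ (T : Type) (_ : Fintype T) (d : ℕ × ℕ) (Ψ : T → κ → MvPolynomial (ι ⊕ Fin (s + 1)) k),
      (∀ t i, (Ψ t i).IsWeightedHomogeneous (bw ι (Fin (s + 1))) d) ∧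
      (∀ t i l, Ψ t i * ψ l - Ψ t l * ψ i ∈ pr A.I s) ∧ (∃ t i, Ψ t i ∉ pr A.I s) ∧
      ∀ m : ℕ, Ht2 (pr A.I s) fun q : T × κ => Ψ q.1 q.2 ^ m := by
  obtain ⟨T, _, d, Ψ, h1, h2⟩ := exists_rep A hψ h0
  obtain ⟨q, hq⟩ := h2.ne A
  exact ⟨T, inferInstance, d, Ψ, fun t => (h1 t).hom, fun t => (h1 t).prp, ⟨q.1, q.2, hq⟩, h2.pow⟩

theorem cod2_of_ht2 (A : AV k ι) {J : Type} (Γ : J → MvPolynomial (ι ⊕ Fin (s + 1)) k)
    {d : ℕ × ℕ} (hΓ : ∀ j, (Γ j).IsWeightedHomogeneous (bw ι (Fin (s + 1))) d)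
    (hc : Ht2 (pr A.I s) Γ) :
    Cod2 A.I (fun j => aeval (Sum.elim (fun a => X (.inl a)) (Fin.cons 1 fun t => X (.inr t)) :
      ι ⊕ Fin (s + 1) → MvPolynomial (ι ⊕ Fin s) k) (Γ j)) (A.dim + s) := by
  intro F _ _ w z h0 hw hz hΓ0
  obtain ⟨b, hb⟩ := Function.ne_iff.1 h0
  have hb' : w b ≠ 0 := hb
  obtain ⟨M, _, _, T, hT⟩ := cod_free F (Fin 2)
  let _ : Algebra k M := ((algebraMap F M).comp (algebraMap k F)).toAlgebra
  have : IsScalarTower k F M := .of_algebraMap_eq fun _ => rfl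
  have hT0 : ∀ i, T i ≠ 0 := fun i h => hT.transcendental i (h ▸ isAlgebraic_zero)
  let v : ι → M := fun a => algebraMap F M (w a)
  let v' : Fin (s + 1) → M := fun t => algebraMap F M ((Fin.cons 1 z : Fin (s + 1) → F) t)
  let c : M := T 0 * algebraMap F M (w b)⁻¹
  have hc0 : c ≠ 0 := mul_ne_zero (hT0 0) ((map_ne_zero _).2 (inv_ne_zero hb'))
  let w' : ι ⊕ Fin (s + 1) → M := Sum.elim (fun a => c * v a) fun t => T 1 * v' t
  have h1 : td k (rat w ∪ Set.range z) + (2 : ℕ) ≤ td k (Set.range w') := by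
    refine (cod_td_free hT _).trans (tr_td_le ?_)
    obtain ⟨L, hL, hS⟩ := tr_cl (K := k) (Set.range w')
    have e1 : T 1 ∈ L := by simpa [w', v'] using hS ⟨.inr 0, rfl⟩
    rw [← hL]
    rintro _ (⟨_, ⟨p, rfl⟩ | ⟨t, rfl⟩, rfl⟩ | ⟨i, rfl⟩)
    · have e2 : c * v p.1 / (c * v p.2) ∈ L := L.div_mem (hS ⟨.inl p.1, rfl⟩) (hS ⟨.inl p.2, rfl⟩)
      rwa [mul_div_mul_left _ _ hc0, ← map_div₀] at e2
    · have e2 : T 1 * v' t.succ / T 1 ∈ L := L.div_mem (hS ⟨.inr t.succ, rfl⟩) e1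
      rwa [mul_div_cancel_left₀ _ (hT0 1)] at e2
    · revert i
      refine Fin.forall_fin_two.2 ⟨?_, e1⟩
      have e2 : c * v b ∈ L := hS ⟨.inl b, rfl⟩
      rwa [mul_assoc, ← map_mul, inv_mul_cancel₀ hb', map_one, mul_one] at e2
  have h2 : ∀ f ∈ A.I.map (rename (Sum.inl : ι → ι ⊕ Fin (s + 1))), aeval w' f = 0 := by
    have e : A.I.map (rename (Sum.inl : ι → ι ⊕ Fin (s + 1))) ≤
        RingHom.ker (aeval w' : MvPolynomial (ι ⊕ Fin (s + 1)) k →ₐ[k] M) :=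
      Ideal.map_le_iff_le_comap.2 fun f hf => by
        rw [Ideal.mem_comap, RingHom.mem_ker, aeval_rename]
        exact zero_mul_of_hom A.hom (fun g hg =>
          (aeval_algebraMap_apply _ w g).trans (by rw [hw g hg, map_zero])) c f hf
    exact e
  have h3 : ∀ j, aeval w' (Γ j) = 0 := fun j => by
    have e1 := congrArg (IsScalarTower.toAlgHom k F M) (hΓ0 j)
    rw [map_zero, ← AlgHom.comp_apply, ← AlgHom.comp_apply, comp_aeval] at e1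
    rw [aeval_mul_of_bih (d := d.1) (e := d.2) (hΓ j), mul_eq_zero]
    refine .inr (Eq.trans ?_ e1)
    congr 2
    ext (a | t)
    · simp [v]
    · refine Fin.cases ?_ (fun t => ?_) t <;> simp [v']
  obtain ⟨M₀, _, _, y, hy, h4⟩ := chain2 (I := pr A.I s) h2 fun 𝔭 hp h𝔭 =>
    hc 𝔭 hp (fun j => (h𝔭 _).2 (h3 j))
      ⟨b, fun h => mul_ne_zero hc0 ((map_ne_zero _).2 hb') ((aeval_X w' _).symm.trans ((h𝔭 _).1 h))⟩
      ⟨0, fun h => hT0 1 (by simpa [w', v'] using (h𝔭 _).1 h)⟩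
  have h5 : td k (Set.range y) ≤ (A.dim + s : ℕ) + (2 : ℕ) := by
    have e1 : Set.range y = Set.range (y ∘ Sum.inl) ∪ Set.range (y ∘ Sum.inr) := by
      rw [← Set.Sum.elim_range, Sum.elim_comp_inl_inr]
    have e2 : td k (rat (y ∘ Sum.inl)) ≤ A.dim := A.td_le_dim fun f hf => by
      rw [← aeval_rename]
      exact hy _ (Ideal.mem_map_of_mem _ hf)
    rw [e1]
    refine (td_union_le _ _).trans ((add_le_add ((td_range_le _).trans (add_le_add e2 le_rfl))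
      (cod_td_range _)).trans (le_of_eq ?_))
    rw [Fintype.card_fin]
    push_cast
    ring
  have h6 : td k (rat w ∪ Set.range z) + 2 + (2 : ℕ) ≤ (A.dim + s : ℕ) + (2 : ℕ) := by
    refine le_trans (le_of_eq ?_) (((add_le_add (add_le_add h1 le_rfl) le_rfl).trans h4).trans h5)
    push_cast
    ring
  exact (ENat.add_le_add_iff_right (ENat.natCast_ne_top 2)).1 h6

end

variable {k ι : Type} [Field k] [NumberField k] [Fintype ι] {n : ℕ}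

theorem gcd_part2 (A : AV k ι) {L : Type} [Fintype L] {Γ : L → MvPolynomial (ι ⊕ Fin (n + 1)) k}
    {d : ℕ × ℕ} (hΓ : ∀ l, (Γ l).IsWeightedHomogeneous (bw ι (Fin (n + 1))) d)
    (hc : Ht2 (pr A.I n) Γ)
    {ε : ℝ} (hε : 0 < ε) : ∃ (Θ : MvPolynomial (ι ⊕ Fin (n + 1)) k) (e : ℕ × ℕ),
      Θ.IsWeightedHomogeneous (bw ι (Fin (n + 1))) e ∧ Θ ∉ A.I.map (rename Sum.inl) ∧
      ∀ T : Finset (AbsoluteValue k ℝ), ∃ c : ℕ, ∀ (P : A.Pt k) (u : Fin n → k), (∀ j, u j ≠ 0) →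
        eval (Sum.elim P.co (Fin.cons 1 u)) Θ ≠ 0 →
        (fun l => eval (Sum.elim P.co (Fin.cons 1 u)) (Γ l)) ≠ 0 →
        osum T (fun v => mv v d Γ P.co (Fin.cons 1 u)) ≤ ε * hp P u + c * df T u + c := by
  have hP := p0_prime_inl (τ := Fin (n + 1)) A.isPrime
  let τ := {t : MvPolynomial (ι ⊕ Fin (n + 1)) k × ℕ × ℕ //
    t.1.IsWeightedHomogeneous (bw ι (Fin (n + 1))) t.2 ∧ t.1 ∉ A.I.map (rename Sum.inl)}
  let β := {b : A.Pt k × (Fin n → k) // (∀ j, b.2 j ≠ 0) ∧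
    (fun l => eval (Sum.elim b.1.co (Fin.cons 1 b.2)) (Γ l)) ≠ 0}
  have : Nonempty τ := ⟨⟨(1, 0), isWeightedHomogeneous_one _ _,
    (Ideal.ne_top_iff_one _).1 hP.ne_top⟩⟩
  obtain ⟨C, hC, hb⟩ := mv_bd hΓ
  refine (bound_of_fib (τ := τ) (β := β) (C₀ := C)
    (p := fun t b => eval (Sum.elim b.1.1.co (Fin.cons 1 b.1.2)) t.1.1 ≠ 0)
    (fun t t' => ⟨⟨(t.1.1 * t'.1.1, t.1.2 + t'.1.2), t.2.1.mul t'.2.1,
      fun h => (hP.mem_or_mem h).elim t.2.2 t'.2.2⟩, fun b hb => by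
        simpa only [map_mul, mul_ne_zero_iff] using hb⟩)
    (H := fun b => hp b.1.1 b.1.2) (D := fun T b => df T b.1.2)
    (f := fun T b => osum T fun v => mv v d Γ b.1.1.co (Fin.cons 1 b.1.2))
    (fun b => hp_nonneg _ _) (fun T b => df_nonneg _ _)
    (fun T b => (hb _ _ (co_ne _) (cons_ne _) b.2.2 T).2.2.2.trans
      (mul_le_mul_of_nonneg_left (add_le_add (ht_le_hp _ _) le_rfl) hC))
    (fun U T h1 h2 => ?_) hε).elim fun t ht => ⟨t.1.1, t.1.2, t.2.1, t.2.2, fun T =>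
      (ht T).imp fun c hc P u h1 h2 h3 => hc ⟨(P, u), h1, h3⟩ h2⟩
  have h3 := seq_gcd A (fun l => deh (Γ l)) (fun l => deh_hom (hΓ l)) (cod2_of_ht2 A Γ hΓ hc) T
    (fun a => a.2.1.1) (fun a => a.2.1.2) (fun a => a.2.2.1) h2 (fun f m hf h0 => by
      obtain ⟨e, g, hg, rfl⟩ := exists_homog hf
      by_contra h4
      obtain ⟨a, h5, h6⟩ := (h0.and (h1 ⟨(g, e), hg, fun h => h4 (deh_mem h)⟩)).exists
      exact h6 (eval_deh _ _ g ▸ h5))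
    (.of_forall fun a => by simpa only [eval_deh] using a.2.2.2)
  refine (h3.add (lo_mul_nonneg h2.tendsto h2.lo d.2.cast_nonneg)).mono (.of_forall fun a => ?_)
  have f1 := finS_sub ((finS_nm a.2.1.1.co).const_mul d.1)
    (finS_nm fun l => eval (Sum.elim a.2.1.1.co a.2.1.2) (deh (Γ l)))
  rw [df, ← osum_const_mul _ (finS_df _), ← osum_add _ f1 ((finS_df _).const_mul _)]
  refine osum_mono _ (finS_mv _ _) (f1.add ((finS_df _).const_mul _)) fun v _ _ => ?_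
  have h4 := mul_le_mul_of_nonneg_left (log_nm_cons v a.2.1.2) (d.2.cast_nonneg (α := ℝ))
  simp only [mv, eval_deh]
  linarith

theorem main_W2 (A : AV k ι) {L₁ L₂ L₃ L₄ : Type} [Fintype L₁] [Fintype L₂] [Fintype L₃]
    [Fintype L₄] {Γ₁ : L₁ → MvPolynomial (ι ⊕ Fin (n + 1)) k}
    {Γ₂ : L₂ → MvPolynomial (ι ⊕ Fin (n + 1)) k} {Γ₃ : L₃ → MvPolynomial (ι ⊕ Fin (n + 1)) k}
    {Γ₄ : L₄ → MvPolynomial (ι ⊕ Fin (n + 1)) k} {d₁ d₂ d₃ d₄ : ℕ × ℕ}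
    (g₁ : ∀ l, (Γ₁ l).IsWeightedHomogeneous (bw ι (Fin (n + 1))) d₁)
    (g₂ : ∀ l, (Γ₂ l).IsWeightedHomogeneous (bw ι (Fin (n + 1))) d₂)
    (g₃ : ∀ l, (Γ₃ l).IsWeightedHomogeneous (bw ι (Fin (n + 1))) d₃)
    (g₄ : ∀ l, (Γ₄ l).IsWeightedHomogeneous (bw ι (Fin (n + 1))) d₄)
    (hc : Ht2 (pr A.I n) Γ₁) (a b : ℕ)
    (h : ∀ lam : Fin (n + 1) → ℕ, (∃ j, lam j = 0) →
      Stm.ord (pr A.I n) lam Γ₁ + Stm.ord (pr A.I n) lam Γ₂ +
          a * Stm.ord (pr A.I n) lam Γ₄ ≤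
        (∑ j, lam j : ℕ) + Stm.ord (pr A.I n) lam Γ₃ +
          b * Stm.ord (pr A.I n) lam Γ₄) {ε : ℝ} (hε : 0 < ε) :
    ∃ (Θ : MvPolynomial (ι ⊕ Fin (n + 1)) k) (e : ℕ × ℕ),
      Θ.IsWeightedHomogeneous (bw ι (Fin (n + 1))) e ∧ Θ ∉ pr A.I n ∧
      ∀ T : Finset (AbsoluteValue k ℝ), ∃ c C : ℝ, ∀ (x : ι → k) (y : Fin (n + 1) → k), x ≠ 0 →
        (∀ f ∈ A.I, eval x f = 0) → eval (Sum.elim x y) Θ ≠ 0 →
        (fun l => eval (Sum.elim x y) (Γ₂ l)) ≠ 0 → (fun l => eval (Sum.elim x y) (Γ₃ l)) ≠ 0 →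
        (fun l => eval (Sum.elim x y) (Γ₄ l)) ≠ 0 →
        (∀ j, y j ≠ 0) ∧ (fun l => eval (Sum.elim x y) (Γ₁ l)) ≠ 0 ∧
        osum T (fun v => mv v d₁ Γ₁ x y) + (isum T (fun v => mv v d₁ Γ₁ x y + mv v d₂ Γ₂ x y +
          a * mv v d₄ Γ₄ x y - mv v d₃ Γ₃ x y - b * mv v d₄ Γ₄ x y) - (n + 1) * logHeight y) ≤
          ε * (logHeight x + logHeight y) + c * osum T (fun v => bdy v y) + C := by
  have hP := p0_prime_inl (τ := Fin (n + 1)) A.isPrime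
  have h₁ : (spt A.I Γ₁).Nonempty := spt_nonempty.2 (hc.ne A)
  by_cases hne : (spt A.I Γ₂).Nonempty ∧ (spt A.I Γ₃).Nonempty ∧ (spt A.I Γ₄).Nonempty
  swap
  · refine ⟨1, 0, isWeightedHomogeneous_one _ _, (Ideal.ne_top_iff_one _).1 hP.ne_top,
      fun T => ⟨0, 0, fun x y _ hx _ k₂ k₃ k₄ => (hne ?_).elim⟩⟩
    have key : ∀ {L : Type} {Γ : L → MvPolynomial (ι ⊕ Fin (n + 1)) k},
        (fun l => eval (Sum.elim x y) (Γ l)) ≠ 0 → (spt A.I Γ).Nonempty := fun h0 =>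
      spt_nonempty.2 ((Function.ne_iff.1 h0).imp fun l hl hm => hl (aeval_zero_of_mem hx y hm))
    exact ⟨key k₂, key k₃, key k₄⟩
  obtain ⟨h₂, h₃, h₄⟩ := hne
  have hε' : 0 < ε / 2 / (n + 1) := by positivity
  obtain ⟨Θ₀, e₀, p₀, q₀, r₀⟩ := gcd_part2 A g₁ hc hε'
  obtain ⟨Θ₁, e₁, p₁, q₁, r₁⟩ := exists_face A.isPrime g₁
  obtain ⟨Θ₂, e₂, p₂, q₂, r₂⟩ := exists_face A.isPrime g₂
  obtain ⟨Θ₃, e₃, p₃, q₃, r₃⟩ := exists_face A.isPrime g₃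
  obtain ⟨Θ₄, e₄, p₄, q₄, r₄⟩ := exists_face A.isPrime g₄
  have hΘ := (((p₀.mul p₁).mul p₂).mul p₃).mul p₄
  refine ⟨Θ₀ * Θ₁ * Θ₂ * Θ₃ * Θ₄ * ∏ j, X (.inr j), _,
    hΘ.mul (IsWeightedHomogeneous.prod _ _ _ fun j _ => isWeightedHomogeneous_X k _ _),
    fun hm => ?_, fun T => ?_⟩
  · unfold pr at hm
    simp only [hP.mul_mem_iff_mem_or_mem, q₀, q₁, q₂, q₃, q₄, false_or] at hm
    exact prod_notMem hP _ (fun j _ => X_notMem A.isPrime j) hm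
  obtain ⟨c₀, hc₀⟩ := r₀ T
  obtain ⟨c₁, hc₁⟩ := trop_part A g₁ g₂ g₃ g₄ h₁ h₂ h₃ h₄ a b (val_real h₁ h₂ h₃ h₄ a b h) T hε'
  refine ⟨(c₀ + c₁) * (2 * n), c₀ + c₁, fun x y hx0 hx h0 k₂ k₃ k₄ => ?_⟩
  rw [map_mul, mul_ne_zero_iff, map_prod, prod_ne_zero_iff] at h0
  have hy : ∀ j, y j ≠ 0 := fun j => by simpa using h0.2 j (mem_univ j)
  obtain ⟨s, u, hs, hu, hdf, hht, rfl⟩ : ∃ (s : k) (u : Fin n → k), s ≠ 0 ∧ (∀ j, u j ≠ 0) ∧
      df T u ≤ 2 * n * osum T (fun v => bdy v y) ∧ ∑ j, logHeight₁ (u j) ≤ n * logHeight y ∧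
      y = fun j => s * (Fin.cons 1 u : Fin (n + 1) → k) j :=
    ⟨y 0, fun j => y j.succ / y 0, hy 0, fun j => div_ne_zero (hy _) (hy 0), df_le_bdy T hy,
      by simpa using sum_le_card_nsmul univ _ _ fun (j : Fin n) _ => logHeight₁_div_le y j.succ 0,
      funext (Fin.cases (mul_one _).symm fun j => (mul_div_cancel₀ _ (hy 0)).symm)⟩
  obtain ⟨P, t, ht⟩ := AV.exists_rep_of_ne (A := A) hx0 (by simpa only [aeval_eq_eval] using hx)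
  obtain rfl : x = fun a => t * P.co a := funext ht
  have h5 := h0.1
  rw [← aeval_eq_eval, aeval_mul_of_bih hΘ, aeval_eq_eval] at h5
  have h6 := right_ne_zero_of_mul h5
  simp only [map_mul, mul_ne_zero_iff] at h6
  obtain ⟨⟨⟨⟨z₀, z₁⟩, z₂⟩, z₃⟩, z₄⟩ := h6
  have n₁ := (r₁ _ _ z₁).ne h₁
  refine ⟨hy, fun h7 => n₁ (funext fun l => ?_), ?_⟩
  · have h8 := congrFun h7 l
    rw [← aeval_eq_eval, aeval_mul_of_bih (g₁ l), aeval_eq_eval] at h8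
    exact (mul_eq_zero.1 h8).resolve_left
      (mul_ne_zero (pow_ne_zero _ t.ne_zero) (pow_ne_zero _ hs))
  have i₀ := hc₀ P u hu z₀ n₁
  have i₁ := hc₁ P u hu (r₁ _ _ z₁) (r₂ _ _ z₂) (r₃ _ _ z₃) (r₄ _ _ z₄)
  simp only [mv_smul g₁ _ (co_ne P) (cons_ne u) n₁ t.ne_zero hs,
    mv_smul g₂ _ (co_ne P) (cons_ne u) ((r₂ _ _ z₂).ne h₂) t.ne_zero hs,
    mv_smul g₃ _ (co_ne P) (cons_ne u) ((r₃ _ _ z₃).ne h₃) t.ne_zero hs,
    mv_smul g₄ _ (co_ne P) (cons_ne u) ((r₄ _ _ z₄).ne h₄) t.ne_zero hs,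
    logHeight_mul_left t.ne_zero, logHeight_mul_left hs] at hht ⊢
  have i₂ : hp P u ≤ (n + 1) * (logHeight P.co + logHeight (Fin.cons 1 u : Fin (n + 1) → k)) := by
    have i₃ := mul_nonneg (n.cast_nonneg (α := ℝ)) (logHeight_nonneg P.co)
    have i₄ := logHeight_nonneg (Fin.cons 1 u : Fin (n + 1) → k)
    change logHeight P.co + _ ≤ _
    linarith
  have i₃ := mul_le_mul_of_nonneg_left i₂ hε'.le
  rw [← mul_assoc, div_mul_cancel₀ _ (by positivity)] at i₃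
  have i₄ := mul_le_mul_of_nonneg_left hdf (show (0 : ℝ) ≤ c₀ + c₁ by positivity)
  linarith

end Pool.Agent.Lib.MP_8865d3_nt.Lr
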