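import Pool.Agent.Lib.MP_8865d3_nt.Lr.Log
import Pool.Agent.Lib.MP_8865d3_nt.Lr.Wr

/-! The inequality for orders from a log resolution. -/

namespace Pool.Agent.Lib.MP_8865d3_nt.Lr

open MvPolynomial Pool.Agent.Lib.MP_651af7_nt Av Bx

variable {k L K ι κ μ β γ T : Type} [Field k] [Field L] [CharZero L] [Algebra k L] [Field K]
  [Algebra k K] [Fintype ι] [Fintype κ] {n r : ℕ} {A : AV L ι} {σ : Fin r → ι → L}

omit [CharZero L] [Fintype ι] [Fintype κ] in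
theorem sg_vp (P : Ideal (MvPolynomial (ι ⊕ Fin (n + 1)) L)) (lam : Fin (n + 1) → ℕ) (b : ι)
    (i : Fin (r + n)) (s : ι ⊕ Fin (n + 1)) : sg P lam (vp A σ n b i s) =
      Polynomial.X ^ Sum.elim (fun _ => 0) lam s *
        Polynomial.C (Ideal.Quotient.mk P (vp A σ n b i s)) := by
  refine Fin.addCases (fun i => ?_) (fun j => ?_) i
  · rw [vp, Fin.append_left]
    cases s <;> simp [sg_inl]
  · rw [vp, Fin.append_right]
    rcases s with a | l
    · simp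
    · by_cases h : l = j.succ
      · subst h
        rw [Sum.elim_inr, Sum.elim_inr, Pi.single_eq_same, sg_X, Sum.elim_inr]
      · simp [Pi.single_eq_of_ne h]

/-- The hypothesis on orders of `Sv.main_W`. -/
theorem ord_key [Finite μ] [Finite β] [Nonempty β] (hσ : A.LieBasis σ)
    {I : Ideal (MvPolynomial κ k)} (hI : (I.map (map (algebraMap k L))).IsPrime)
    {φ₁ : ι → MvPolynomial κ L} {φ₂ : Fin (n + 1) → MvPolynomial κ L}
    {ψ : κ → MvPolynomial (ι ⊕ Fin (n + 1)) L}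
    (hb : Bir (I.map (map (algebraMap k L))) A.I φ₁ φ₂ ψ)
    {Ψ : T → κ → MvPolynomial (ι ⊕ Fin (n + 1)) L}
    (hΨ : ∀ t i l, Ψ t i * ψ l - Ψ t l * ψ i ∈ pr A.I n)
    {F : β → MvPolynomial κ k} {G : γ → MvPolynomial κ k} {e e' : ℕ}
    (hF : ∀ l, (F l).IsHomogeneous e) (hG : ∀ l, (G l).IsHomogeneous e') {ξ : κ → K} {η : μ → K}
    (hr : LogRes I (r + n) F ξ η)
    (hm : ∀ l, ∀ c : ℚ, 0 < c → c < 1 → InMult (r + n) F ξ η c (G l)) (lam : Fin (n + 1) → ℕ) :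
    Sv.Stm.ord (pr A.I n) lam (fun q : T × κ => Ψ q.1 q.2 ^ (r + n + 1)) +
        Sv.Stm.ord (pr A.I n) lam (fun l => aeval ψ (map (algebraMap k L) (F l)) *
          ∏ j, X (.inr j)) + e' * Sv.Stm.ord (pr A.I n) lam ψ ≤
      (∑ j, lam j : ℕ) + Sv.Stm.ord (pr A.I n) lam
        (fun q : γ × ι × T × (Fin (r + n + 1) → κ) => aeval ψ (map (algebraMap k L) (G q.1)) *
          wr A σ (Ψ q.2.2.1) q.2.1 q.2.2.2) + e * Sv.Stm.ord (pr A.I n) lam ψ := by
  have : (pr A.I n).IsPrime := Sv.p0_prime_inl A.isPrime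
  simp only [aeval_map_algebraMap]
  refine ord_le (P := pr A.I n) rfl hΨ (vp_tan hσ) (sg_vp _ lam) hF hG fun v hv l =>
    log_val hr (hm l) (fun P d hP => ?_) v hv
  have h1 : aeval (gp (pr A.I n)) (aeval ψ P) = aeval (fun i => aeval (gp (pr A.I n)) (ψ i)) P :=
    comp_aeval_apply ψ ((aeval (gp (pr A.I n)) : _ →ₐ[L] _).restrictScalars k) P
  rw [← h1, aeval_gp_eq_zero, ← aeval_map_algebraMap L]
  exact ⟨fun h => mem_of_map_mem (not_not.1 fun h0 => hb.pull hI (hP.map _) h0 h),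
    fun h => hb.map _ (Ideal.mem_map_of_mem _ h)⟩

end Pool.Agent.Lib.MP_8865d3_nt.Lr
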