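import Pool.Agent.Lib.MP_8865d3_nt.Lr.Ht
import Pool.Agent.Lib.MP_8865d3_nt.Lr.Key
import Pool.Agent.Lib.MP_8865d3_nt.Lr.Eng
import Pool.Agent.Lib.MP_651af7_nt.Ds.Tan

/-! The inequality over the field of definition of the model. -/

namespace Pool.Agent.Lib.MP_8865d3_nt.Lr

open MvPolynomial Module Pool.Agent.Lib.MP_651af7_nt Av Bx Height NumberField

variable {k L K : Type} [Field k] [Field L] [NumberField L] [Algebra k L] [Algebra.IsAlgebraic k L]
  [Field K] [Algebra k K] {ι κ β γ μ : Type} [Fintype ι] [Fintype κ] [Fintype β] [Fintype γ]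
  [Finite μ] {n r g e e' : ℕ} {I : Ideal (MvPolynomial κ k)} {φ₁ : ι → MvPolynomial κ L}
  {φ₂ : Fin (n + 1) → MvPolynomial κ L} {ψ : κ → MvPolynomial (ι ⊕ Fin (n + 1)) L}

theorem dim_eq {A : AV L ι} {σ : Fin r → ι → L} (hσ : A.LieBasis σ)
    (hI : ∀ P ∈ I, ∀ d, homogeneousComponent d P ∈ I) (hs : Smooth I g)
    (h : Bir (I.map (map (algebraMap k L))) A.I φ₁ φ₂ ψ) {x : κ → L} {p : ι → L}
    {y : Fin (n + 1) → L} (hx : Good (I.map (map (algebraMap k L))) φ₁ φ₂ ψ x p y) : g = r + n := by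
  let f : L →ₐ[k] AlgebraicClosure k := IsAlgClosed.lift
  let _ := f.toRingHom.toAlgebra
  have : IsScalarTower k L (AlgebraicClosure k) := .of_algebraMap_eq fun c => (f.commutes c).symm
  have h1 := hx.map (F := AlgebraicClosure k)
  have h2 := h1.rank (Ds.hom_map hI) A.hom h (by rw [tsp_eq, rank_tan hσ h1.p0 (h1.zp h)])
  rw [Ds.tsp_map (Ds.zero_map.1 h1.zero), hs _ h1.ne (Ds.zero_map.1 h1.zero)] at h2
  omega

theorem core (A : AV L ι) (hI : ∀ P ∈ I, ∀ d, homogeneousComponent d P ∈ I)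
    (hI' : (I.map (map (algebraMap k L))).IsPrime) (hs : Smooth I g)
    (hb : Bir (I.map (map (algebraMap k L))) A.I φ₁ φ₂ ψ) {F : β → MvPolynomial κ k}
    {G : γ → MvPolynomial κ k} (hF : ∀ l, (F l).IsHomogeneous e) (hG : ∀ l, (G l).IsHomogeneous e')
    {ξ : κ → K} {η : μ → K} (hr : LogRes I g F ξ η)
    (hm : ∀ l, ∀ c : ℚ, 0 < c → c < 1 → InMult g F ξ η c (G l)) {ε : ℝ} (hε : 0 < ε) :
    ∃ (Θ : MvPolynomial κ L) (t : ℕ), Θ.IsHomogeneous t ∧ Θ ∉ I.map (map (algebraMap k L)) ∧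
      ∀ S : Finset (FinitePlace L), ∃ c C : ℝ, ∀ x : κ → L, x ≠ 0 →
        (∀ P ∈ I.map (map (algebraMap k L)), eval x P = 0) → eval x Θ ≠ 0 →
        (fun l => eval x (map (algebraMap k L) (F l))) ≠ 0 →
        (fun l => eval x (map (algebraMap k L) (G l))) ≠ 0 →
        (∀ j, eval x (φ₂ j) ≠ 0) ∧ finrank L (tsp (I.map (map (algebraMap k L))) x) = g + 1 ∧
        ∀ b : Fin (g + 1) → κ → L, LinearIndependent L b →
        (∀ l, b l ∈ tsp (I.map (map (algebraMap k L))) x) →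
        hK x b + (∑ w : InfinitePlace L, w.mult * (lam w.1 (fun l => map (algebraMap k L) (F l)) e x -
            lam w.1 (fun l => map (algebraMap k L) (G l)) e' x) +
          ∑ w ∈ S, (lam w.1 (fun l => map (algebraMap k L) (F l)) e x -
            lam w.1 (fun l => map (algebraMap k L) (G l)) e' x)) ≤
          ε * logHeight x + c * cnt S (fun j => eval x (φ₂ j)) + C := by
  have hP := pr_prime A.isPrime n
  obtain ⟨Θ, t, t1, t2, t3⟩ := exists_good hb (isWeightedHomogeneous_one _ _)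
    ((Ideal.ne_top_iff_one _).1 hP.ne_top)
  by_cases h0 : Nonempty β ∧ ∃ (x : κ → L) (p : ι → L) (y : Fin (n + 1) → L),
    Good (I.map (map (algebraMap k L))) φ₁ φ₂ ψ x p y
  swap
  · exact ⟨Θ, t, t1, t2, fun S => ⟨0, 0, fun x x0 xz xΘ xF _ => (h0
      ⟨⟨(Function.ne_iff.1 xF).choose⟩, _, _, _, (t3 x x0 xz xΘ).1⟩).elim⟩⟩
  obtain ⟨_, x, p, y, hx⟩ := h0
  obtain ⟨r, σ, hσ⟩ := exists_lieBasis A
  obtain rfl := dim_eq hσ hI hs hb hx
  obtain ⟨b, hψ⟩ := hb.hom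
  obtain ⟨T, _, d, Ψ, h1, h2, h3, h4⟩ := exists_rep' A hψ
    (hb.id.1.imp fun i hi e => hi (hb.map_pr _ e))
  refine main_of (b := b) hσ (Ds.hom_map hI) hb h1 h2 h3 (fun l => (hF l).map _)
    (fun l => (hG l).map _) (fun ε hε => ?_) hε
  have g1 := fun q : T × κ => (h1 q.1 q.2).pow (r + n + 1)
  have g2 := fun l => (psi_hom hψ ((hF l).map (algebraMap k L))).mul prod_hom
  have g3 := fun q : γ × ι × T × (Fin (r + n + 1) → κ) =>
    (psi_hom hψ ((hG q.1).map (algebraMap k L))).mul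
      (wr_hom (A := A) (σ := σ) (h1 q.2.2.1) q.2.1 q.2.2.2)
  exact main_W2 A g1 g2 g3 hψ (h4 _) e' e (fun lam _ => ord_key hσ hI' hb h2 hF hG hr hm lam) hε

end Pool.Agent.Lib.MP_8865d3_nt.Lr
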