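import Pool.Agent.Lib.MP_8865d3_nt.Lr.BDef
import Pool.Agent.Lib.MP_651af7_nt.Bx.Wr
import Pool.Agent.Lib.MP_651af7_nt.Bx.Trans

/-! Birational maps to a product and tangent spaces. -/

namespace Pool.Agent.Lib.MP_8865d3_nt.Lr

open MvPolynomial Module Pool.Agent.Lib.MP_651af7_nt Av Bx

set_option linter.unusedSectionVars false

noncomputable section

variable {k : Type} [Field k] [CharZero k] {ι κ σ α : Type} [Fintype ι] [Fintype κ] [Fintype σ]
  {n r : ℕ} {F : Type} [Field F] [Algebra k F]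

section same

variable {I : Ideal (MvPolynomial σ k)} {G : α → MvPolynomial σ k} {f : α → σ} {z v : σ → F}

theorem Same.ev (h : Same I G fun a => X (f a)) (hz : ∀ P ∈ I, aeval z P = 0) (a b : α) :
    aeval z (G a) * z (f b) = aeval z (G b) * z (f a) := by
  have h1 := hz _ (h.2 a b)
  rwa [map_sub, map_mul, map_mul, aeval_X, aeval_X, sub_eq_zero] at h1

theorem Same.pt (h : Same I G fun a => X (f a)) (hz : ∀ P ∈ I, aeval z P = 0)
    (h0 : (fun a => z (f a)) ≠ 0) (h1 : (fun a => aeval z (G a)) ≠ 0) :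
    ∃ c : F, c ≠ 0 ∧ ∀ a, aeval z (G a) = c * z (f a) := by
  obtain ⟨b, hb⟩ := Function.ne_iff.1 h0
  have hb' : z (f b) ≠ 0 := hb
  have h2 : ∀ a, aeval z (G a) = aeval z (G b) / z (f b) * z (f a) := fun a => by
    rw [div_mul_eq_mul_div, ← h.ev hz a b, mul_div_cancel_right₀ _ hb']
  exact ⟨_, fun e => h1 (funext fun a => by rw [h2, e, zero_mul]; rfl), h2⟩

theorem Same.inj (h : Same I G fun a => X (f a)) (hz : ∀ P ∈ I, aeval z P = 0)
    (h0 : (fun a => z (f a)) ≠ 0) (h1 : (fun a => aeval z (G a)) ≠ 0) (hv : v ∈ tsp I z) {t : F}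
    (ht : ∀ a, dP z v (G a) = t * aeval z (G a)) : ∃ c : F, ∀ a, v (f a) = c * z (f a) := by
  obtain ⟨c, hc, e⟩ := h.pt hz h0 h1
  obtain ⟨b, hb⟩ := Function.ne_iff.1 h0
  have hb' : z (f b) ≠ 0 := hb
  refine ⟨v (f b) / z (f b), fun a => ?_⟩
  have h2 := dP_add_pol z v (G b * X (f a) - G a * X (f b)) (G a * X (f b))
  rw [sub_add_cancel, mem_tsp.1 hv _ (h.2 b a), zero_add, dP_mul_pol, dP_mul_pol, dP_X, dP_X, ht, ht,
    aeval_X, aeval_X, e, e] at h2
  field_simp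
  refine mul_left_cancel₀ hc ?_
  linear_combination h2

end same

variable {I : Ideal (MvPolynomial κ k)} {J : Ideal (MvPolynomial ι k)}
  {φ₁ : ι → MvPolynomial κ k} {φ₂ : Fin (n + 1) → MvPolynomial κ k}
  {ψ : κ → MvPolynomial (ι ⊕ Fin (n + 1)) k}

theorem pr_le {R : Type} [CommRing R] [Algebra k R] {L : Ideal R} {p : ι → R}
    (hp : ∀ P ∈ J, aeval p P ∈ L) (y : Fin (n + 1) → R) :
    ∀ P ∈ pr J n, aeval (Sum.elim p y) P ∈ L := fun P hP => by
  have h : pr J n ≤ L.comap (aeval (Sum.elim p y) : _ →ₐ[k] R) :=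
    Ideal.map_le_iff_le_comap.2 fun Q hQ => by
      rw [Ideal.mem_comap, Ideal.mem_comap, aeval_rename]
      exact hp Q hQ
  exact h hP

theorem pr_zero {R : Type} [CommRing R] [Algebra k R] {p : ι → R} (hp : ∀ P ∈ J, aeval p P = 0)
    (y : Fin (n + 1) → R) : ∀ P ∈ pr J n, aeval (Sum.elim p y) P = 0 :=
  pr_le (L := ⊥) hp y

theorem pr_tan {p w : ι → F} (hp : ∀ P ∈ J, aeval p P = 0) (hw : w ∈ tsp J p)
    (y u : Fin (n + 1) → F) : Sum.elim w u ∈ tsp (pr J n) (Sum.elim p y) :=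
  mem_tsp.2 fun P hP => by
    rw [dP, ← dw_elim, pr_zero (fun Q hQ => TrivSqZeroExt.ext ((fst_aeval_dw p w Q).trans (hp Q hQ))
      (mem_tsp.1 hw Q hQ)) _ P hP]
    rfl

/-- The identity of Euler in two blocks of variables. -/
theorem euler {P : MvPolynomial (ι ⊕ σ) k} {b : ℕ × ℕ} (hP : P.IsWeightedHomogeneous (bw ι σ) b)
    (p : ι → F) (y : σ → F) (s t : F) :
    dP (Sum.elim p y) (Sum.elim (fun a => s * p a) fun j => t * y j) P =
      (s * b.1 + t * b.2) * aeval (Sum.elim p y) P := by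
  have h : dw (Sum.elim p y) (Sum.elim (fun a => s * p a) fun j => t * y j) =
      Sum.elim (fun a => (1 + TrivSqZeroExt.inr s : DualNumber F) * dw p 0 a)
        fun j => (1 + TrivSqZeroExt.inr t : DualNumber F) * dw y 0 j := by
    funext c
    cases c <;> exact TrivSqZeroExt.ext (by simp) (by simp)
  have h0 := dP_zero (Sum.elim p y) P
  rw [dP, ← Sum.elim_zero_zero] at h0
  rw [dP, h, aeval_mul_of_bih (d := b.1) (e := b.2) hP, dw_elim, DualNumber.snd_mul, h0,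
    fst_aeval_dw, DualNumber.snd_mul]
  simp [TrivSqZeroExt.snd_pow, mul_comm, add_comm]

theorem Bir.map_pr (h : Bir I J φ₁ φ₂ ψ) : ∀ P ∈ pr J n, aeval (Sum.elim φ₁ φ₂) P ∈ I :=
  pr_le h.map₁ φ₂

theorem ev_elim {R : Type} [CommRing R] [Algebra k R] (x : κ → R)
    (P : MvPolynomial (ι ⊕ Fin (n + 1)) k) : aeval x (aeval (Sum.elim φ₁ φ₂) P) =
      aeval (Sum.elim (fun a => aeval x (φ₁ a)) fun j => aeval x (φ₂ j)) P := by
  rw [trans_aev]
  congr 2
  funext c
  cases c <;> rfl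

/-- A form outside `I` stays outside the ideal of the product. -/
theorem Bir.pull (hI : I.IsPrime) (h : Bir I J φ₁ φ₂ ψ) {H : MvPolynomial κ k} {d : ℕ}
    (hH : H.IsHomogeneous d) (h0 : H ∉ I) : aeval ψ H ∉ pr J n := fun hm => by
  obtain ⟨i, hi⟩ := h.id.1
  have h1 := h.map_pr _ hm
  rw [trans_aev, ← Ideal.Quotient.eq_zero_iff_mem] at h1
  have e : ∀ (u : κ → MvPolynomial κ k), Ideal.Quotient.mk I (aeval u H) =
      aeval (fun l => Ideal.Quotient.mk I (u l)) H := fun u =>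
    (aeval_algebraMap_apply (MvPolynomial κ k ⧸ I) u H).symm
  have h2 := aeval_mul_of_hom hH (Ideal.Quotient.mk I (X i))
    fun l => Ideal.Quotient.mk I (aeval (Sum.elim φ₁ φ₂) (ψ l))
  have h3 := aeval_mul_of_hom hH (Ideal.Quotient.mk I (aeval (Sum.elim φ₁ φ₂) (ψ i)))
    fun l => Ideal.Quotient.mk I (X l)
  have h4 : (fun l => Ideal.Quotient.mk I (X i) * Ideal.Quotient.mk I
      (aeval (Sum.elim φ₁ φ₂) (ψ l))) = fun l => Ideal.Quotient.mk I
        (aeval (Sum.elim φ₁ φ₂) (ψ i)) * Ideal.Quotient.mk I (X l) := funext fun l => by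
    rw [← map_mul, ← map_mul, mul_comm, Ideal.Quotient.eq]
    exact h.id.2 l i
  rw [h4, h3, ← e, ← e, h1, mul_zero, aeval_X_left_apply, ← map_pow, ← map_mul,
    Ideal.Quotient.eq_zero_iff_mem] at h2
  exact (hI.mem_or_mem h2).elim (fun e => hi (hI.mem_of_pow_mem _ e)) h0

/-- A bihomogeneous form outside the ideal of the product stays outside `I`. -/
theorem Bir.pull' (hJ : (pr J n).IsPrime) (h : Bir I J φ₁ φ₂ ψ)
    {H : MvPolynomial (ι ⊕ Fin (n + 1)) k} {d : ℕ × ℕ}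
    (hH : H.IsWeightedHomogeneous (bw ι (Fin (n + 1))) d) (h0 : H ∉ pr J n) :
    aeval (Sum.elim φ₁ φ₂) H ∉ I := fun hm => by
  obtain ⟨a, ha⟩ := h.id₁.1
  obtain ⟨j, hj⟩ := h.id₂.1
  have h1 := h.map _ hm
  rw [ev_elim, ← Ideal.Quotient.eq_zero_iff_mem] at h1
  set π := Ideal.Quotient.mk (pr J n) with hπ
  have e : ∀ u w, π (aeval (Sum.elim u w) H) =
      aeval (Sum.elim (fun l => π (u l)) fun l => π (w l)) H := fun u w => by
    refine (aeval_algebraMap_apply (_ ⧸ pr J n) (Sum.elim u w) H).symm.trans ?_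
    congr 2
    funext c
    cases c <;> rfl
  have h2 := aeval_mul_of_bih (d := d.1) (e := d.2) hH (π (X (.inl a))) (π (X (.inr j)))
    (fun l => π (aeval ψ (φ₁ l))) fun l => π (aeval ψ (φ₂ l))
  have h3 := aeval_mul_of_bih (d := d.1) (e := d.2) hH (π (aeval ψ (φ₁ a))) (π (aeval ψ (φ₂ j)))
    (fun l => π (X (.inl l))) fun l => π (X (.inr l))
  have h4 : (fun l => π (X (.inl a)) * π (aeval ψ (φ₁ l))) =
      fun l => π (aeval ψ (φ₁ a)) * π (X (.inl l)) := funext fun l => by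
    rw [← map_mul, ← map_mul, mul_comm, hπ, Ideal.Quotient.eq]
    exact h.id₁.2 l a
  have h5 : (fun l => π (X (.inr j)) * π (aeval ψ (φ₂ l))) =
      fun l => π (aeval ψ (φ₂ j)) * π (X (.inr l)) := funext fun l => by
    rw [← map_mul, ← map_mul, mul_comm, hπ, Ideal.Quotient.eq]
    exact h.id₂.2 l j
  have h6 : (Sum.elim (fun l => X (.inl l)) fun l => X (.inr l) :
      ι ⊕ Fin (n + 1) → MvPolynomial (ι ⊕ Fin (n + 1)) k) = X := funext fun c => by cases c <;> rfl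
  rw [h4, h5, h3, ← e, ← e, h1, mul_zero, h6, aeval_X_left_apply, ← map_pow π, ← map_pow π,
    ← map_mul, ← map_mul, hπ, Ideal.Quotient.eq_zero_iff_mem] at h2
  exact (hJ.mem_or_mem h2).elim (fun e => (hJ.mem_or_mem e).elim
    (fun e => ha (hJ.mem_of_pow_mem _ e)) fun e => hj (hJ.mem_of_pow_mem _ e)) h0

/-- The point `x` has the image `(p, y)` and the inverse map is defined there. -/
structure Good (I : Ideal (MvPolynomial κ k)) (φ₁ : ι → MvPolynomial κ k)
    (φ₂ : Fin (n + 1) → MvPolynomial κ k) (ψ : κ → MvPolynomial (ι ⊕ Fin (n + 1)) k) (x : κ → F)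
    (p : ι → F) (y : Fin (n + 1) → F) : Prop where
  ne : x ≠ 0
  zero : ∀ P ∈ I, aeval x P = 0
  hp : p = fun a => aeval x (φ₁ a)
  hy : y = fun j => aeval x (φ₂ j)
  p0 : p ≠ 0
  y0 : y 0 ≠ 0
  ψ0 : (fun l => aeval (Sum.elim p y) (ψ l)) ≠ 0

variable {x : κ → F} {p : ι → F} {y : Fin (n + 1) → F}

theorem Good.zp (h : Bir I J φ₁ φ₂ ψ) (g : Good I φ₁ φ₂ ψ x p y) : ∀ P ∈ J, aeval p P = 0 :=
  fun P hP => by rw [g.hp, ← trans_aev, g.zero _ (h.map₁ P hP)]

theorem Good.pt (h : Bir I J φ₁ φ₂ ψ) (g : Good I φ₁ φ₂ ψ x p y) :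
    ∃ c : F, c ≠ 0 ∧ ∀ l, aeval (Sum.elim p y) (ψ l) = c * x l := by
  have h1 := g.ψ0
  rw [g.hp, g.hy] at h1 ⊢
  simp only [← ev_elim] at h1 ⊢
  exact Same.pt (f := id) h.id g.zero g.ne h1

/-- The tangent vectors of the product. -/
def fv (n : ℕ) (w : Fin r → ι → F) : Fin (r + n) → ι ⊕ Fin (n + 1) → F :=
  Fin.append (fun i => Sum.elim (w i) 0) fun j => Sum.elim 0 (Pi.single j.succ 1)

/-- The tangent frame at the image point. -/
def fr (ψ : κ → MvPolynomial (ι ⊕ Fin (n + 1)) k) (z : ι ⊕ Fin (n + 1) → F) (w : Fin r → ι → F) :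
    Fin (r + n + 1) → κ → F :=
  Fin.cons (fun l => aeval z (ψ l)) fun i l => dP z (fv n w i) (ψ l)

theorem fv_mem {w : Fin r → ι → F} (hp : ∀ P ∈ J, aeval p P = 0) (hw : ∀ i, w i ∈ tsp J p)
    (i : Fin (r + n)) : fv n w i ∈ tsp (pr J n) (Sum.elim p y) := by
  refine Fin.addCases (fun i => ?_) (fun j => ?_) i
  · rw [fv, Fin.append_left]
    exact pr_tan hp (hw i) _ _
  · rw [fv, Fin.append_right]
    exact pr_tan hp (zero_mem _) _ _

theorem Good.mem (hI : ∀ P ∈ I, ∀ d, homogeneousComponent d P ∈ I) (h : Bir I J φ₁ φ₂ ψ)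
    (g : Good I φ₁ φ₂ ψ x p y) {w : Fin r → ι → F} (hw : ∀ i, w i ∈ tsp J p)
    (i : Fin (r + n + 1)) : fr ψ (Sum.elim p y) w i ∈ tsp I x := by
  obtain ⟨c, hc, e⟩ := g.pt h
  rw [← tsp_smul hI g.zero hc, ← funext e]
  refine Fin.cases ?_ (fun i => ?_) i
  · exact tsp_self hI fun P hP => by rw [← trans_aev, pr_zero (g.zp h) y _ (h.map P hP)]
  · exact mem_tsp.2 fun P hP => by
      rw [fr, Fin.cons_succ, ← dP_comp, mem_tsp.1 (fv_mem (g.zp h) hw i) _ (h.map P hP)]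

theorem dP_sum {τ β : Type} [Fintype β] (z : τ → F) (c : β → F) (u : β → τ → F)
    (P : MvPolynomial τ k) : dP z (∑ i, c i • u i) P = ∑ i, c i * dP z (u i) P := by
  classical
  induction (Finset.univ : Finset β) using Finset.induction_on with
  | empty => simpa using dP_zero z P
  | insert a s ha ih => rw [Finset.sum_insert ha, Finset.sum_insert ha, dP_lin, ih]

theorem Good.indep (h : Bir I J φ₁ φ₂ ψ) (g : Good I φ₁ φ₂ ψ x p y) {w : Fin r → ι → F}
    (hw : ∀ i, w i ∈ tsp J p) (hl : LinearIndependent F (Fin.cons p w : Fin (r + 1) → ι → F)) :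
    LinearIndependent F (fr ψ (Sum.elim p y) w) := by
  obtain ⟨c, hc, e⟩ := g.pt h
  obtain ⟨a₁, h₁⟩ := h.hom₁
  obtain ⟨a₂, h₂⟩ := h.hom₂
  have hz := pr_zero (g.zp h) y
  refine Fintype.linearIndependent_iff.2 fun τ hτ => ?_
  set v := ∑ i, τ i.succ • fv n w i with hv
  have v1 : v ∈ tsp (pr J n) (Sum.elim p y) :=
    Submodule.sum_mem _ fun i _ => Submodule.smul_mem _ _ (fv_mem (g.zp h) hw i)
  have v2 : (fun l => dP (Sum.elim p y) v (ψ l)) = (-τ 0) • fun l => aeval (Sum.elim p y) (ψ l) :=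
    funext fun l => by
      have := congrFun hτ l
      rw [Fin.sum_univ_succ] at this
      simp only [fr, Fin.cons_zero, Fin.cons_succ, Pi.add_apply, Finset.sum_apply, Pi.smul_apply,
        smul_eq_mul, Pi.zero_apply] at this
      rw [hv, dP_sum, Pi.smul_apply, smul_eq_mul]
      linear_combination this
  have v3 : ∀ {P : MvPolynomial κ k} {a : ℕ}, P.IsHomogeneous a →
      dP (Sum.elim p y) v (aeval ψ P) = -τ 0 * a * aeval (Sum.elim p y) (aeval ψ P) ∧
      aeval (Sum.elim p y) (aeval ψ P) = c ^ a * aeval x P := fun hP =>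
    ⟨by rw [dP_comp, v2, dP_smul, dP_self hP, trans_aev, mul_assoc],
      by rw [trans_aev, funext e, aeval_mul_of_hom hP]⟩
  have y0 : y ≠ 0 := Function.ne_iff.2 ⟨0, g.y0⟩
  obtain ⟨s, hs⟩ := h.id₁.inj hz g.p0 ((Function.ne_iff.1 g.p0).elim fun a ha =>
    Function.ne_iff.2 ⟨a, by
      rw [(v3 (h₁ a)).2]
      exact mul_ne_zero (pow_ne_zero _ hc) (by rwa [g.hp] at ha)⟩) v1 fun a => (v3 (h₁ a)).1
  obtain ⟨t, ht⟩ := h.id₂.inj hz y0 (Function.ne_iff.2 ⟨0, by
      rw [(v3 (h₂ 0)).2]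
      exact mul_ne_zero (pow_ne_zero _ hc) (by have := g.y0; rwa [g.hy] at this)⟩) v1
    fun a => (v3 (h₂ a)).1
  have v4 : ∀ a, v (.inl a) = ∑ i, τ (Fin.castAdd n i).succ * w i a := fun a => by
    simp [hv, Fin.sum_univ_add, fv]
  have v5 : ∀ j, v (.inr j) = ∑ i : Fin n, τ (Fin.natAdd r i).succ *
      (Pi.single i.succ 1 : Fin (n + 1) → F) j := fun j => by
    simp [hv, Fin.sum_univ_add, fv]
  have t0 : t = 0 := by
    have := ht 0
    rw [v5] at this
    simp only [Pi.single_apply, (Fin.succ_ne_zero _).symm, if_false, mul_zero,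
      Finset.sum_const_zero] at this
    exact (mul_eq_zero.1 this.symm).resolve_right g.y0
  have t1 : ∀ i, τ (Fin.natAdd r i).succ = 0 := fun i => by
    have := ht i.succ
    rw [v5, t0, zero_mul] at this
    simpa [Pi.single_apply] using this
  have t2 : ∀ i, τ (Fin.castAdd n i).succ = 0 := fun i =>
    Fintype.linearIndependent_iff.1 hl (Fin.cons (-s) fun i => τ (Fin.castAdd n i).succ)
      (funext fun a => by
        have := hs a
        rw [v4] at this
        simp only [Fin.sum_univ_succ, Fin.cons_zero, Fin.cons_succ, Finset.sum_apply,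
          Pi.smul_apply, smul_eq_mul, Pi.zero_apply, this, Sum.elim_inl]
        ring) i.succ
  have t3 : ∀ i : Fin (r + n), τ i.succ = 0 := fun i => Fin.addCases t2 t1 i
  refine Fin.cases ?_ t3
  rw [Fin.sum_univ_succ] at hτ
  simp only [t3, zero_smul, Finset.sum_const_zero, add_zero] at hτ
  exact (smul_eq_zero.1 hτ).resolve_right g.ψ0

theorem Good.rank_le (hI : ∀ P ∈ I, ∀ d, homogeneousComponent d P ∈ I)
    (hJ : ∀ P ∈ J, ∀ d, homogeneousComponent d P ∈ J) (h : Bir I J φ₁ φ₂ ψ)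
    (g : Good I φ₁ φ₂ ψ x p y) : finrank F (tsp I x) ≤ finrank F (tsp J p) + n := by
  have hx0 : (⟨x, tsp_self hI g.zero⟩ : tsp I x) ≠ 0 := fun e => g.ne (congrArg Subtype.val e)
  obtain ⟨m, hm⟩ := Nat.exists_eq_succ_of_ne_zero
    ((finrank_pos_iff_exists_ne_zero (R := F)).2 ⟨_, hx0⟩).ne'
  obtain ⟨w, hw⟩ := bir3_ext hx0 m hm.ge
  obtain ⟨b, hb⟩ := h.hom
  have h1 : ∀ v : tsp I x, (fun a => dP x v (φ₁ a)) ∈ tsp J p := fun v => mem_tsp.2 fun P hP => by
    rw [g.hp, ← dP_comp, mem_tsp.1 v.2 _ (h.map₁ P hP)]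
  have h2 : LinearIndependent F (Fin.cons (⟨p, tsp_self hJ (g.zp h)⟩, 0) (Fin.cons (0, y)
      fun l => (⟨_, h1 (w l)⟩, fun j => dP x (w l) (φ₂ j))) :
        Fin (m + 2) → tsp J p × (Fin (n + 1) → F)) := by
    refine Fintype.linearIndependent_iff.2 fun τ hτ => ?_
    rw [Fin.sum_univ_succ, Fin.sum_univ_succ] at hτ
    have e1 : ∀ a, τ 0 * p a + ∑ l, τ l.succ.succ * dP x (w l) (φ₁ a) = 0 := fun a => by
      simpa [Prod.fst_sum] using congrFun (congrArg Subtype.val (congrArg Prod.fst hτ)) a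
    have e2 : ∀ j, τ 1 * y j + ∑ l, τ l.succ.succ * dP x (w l) (φ₂ j) = 0 := fun j => by
      simpa [Prod.snd_sum] using congrFun (congrArg Prod.snd hτ) j
    have h3 := g.ψ0
    rw [g.hp, g.hy] at h3
    simp only [← ev_elim] at h3
    obtain ⟨c, hc⟩ := Same.inj (f := id) h.id g.zero g.ne h3
      (Submodule.sum_mem _ fun l (_ : l ∈ Finset.univ) =>
        Submodule.smul_mem _ (τ l.succ.succ) (w l).2) (t := -τ 0 * b.1 + -τ 1 * b.2) fun l => by
      rw [ev_elim, ← g.hp, ← g.hy, ← euler (hb l), dP_comp]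
      congr 1 <;> funext c <;> rcases c with a | a
      · exact (congrFun g.hp a).symm
      · exact (congrFun g.hy a).symm
      · rw [dP_sum, Sum.elim_inl, Sum.elim_inl]
        linear_combination e1 a
      · rw [dP_sum, Sum.elim_inr, Sum.elim_inr]
        linear_combination e2 a
    have h4 : ∀ l : Fin m, τ l.succ.succ = 0 := fun l => Fintype.linearIndependent_iff.1 hw
      (Fin.cons (-c) fun l => τ l.succ.succ) (Subtype.ext (funext fun a => by
        have := hc a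
        rw [Fin.sum_univ_succ]
        simp only [Fin.cons_zero, Fin.cons_succ, Submodule.coe_add, Submodule.coe_smul,
          Submodule.coe_sum, Pi.add_apply, id] at this ⊢
        rw [this]
        simp)) l.succ
    simp only [h4, zero_mul, Finset.sum_const_zero, add_zero] at e1 e2
    obtain ⟨a, ha⟩ := Function.ne_iff.1 g.p0
    exact Fin.cases ((mul_eq_zero.1 (e1 a)).resolve_right ha)
      (Fin.cases ((mul_eq_zero.1 (e2 0)).resolve_right g.y0) h4)
  have h5 := h2.fintype_card_le_finrank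
  rw [finrank_prod, finrank_fin_fun, Fintype.card_fin] at h5
  omega

theorem Good.rank (hI : ∀ P ∈ I, ∀ d, homogeneousComponent d P ∈ I)
    (hJ : ∀ P ∈ J, ∀ d, homogeneousComponent d P ∈ J) (h : Bir I J φ₁ φ₂ ψ)
    (g : Good I φ₁ φ₂ ψ x p y) (hr : finrank F (tsp J p) = r + 1) :
    finrank F (tsp I x) = r + n + 1 := by
  have hp0 : (⟨p, tsp_self hJ (g.zp h)⟩ : tsp J p) ≠ 0 := fun e => g.p0 (congrArg Subtype.val e)
  obtain ⟨w, hw⟩ := bir3_ext hp0 r hr.ge
  have h1 := g.indep h (w := fun l => w l) (fun l => (w l).2) (by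
    have h3 := hw.map' (tsp J p).subtype (Submodule.ker_subtype _)
    rwa [Fin.comp_cons] at h3)
  have h2 : LinearIndependent F fun i => (⟨_, g.mem hI h (fun l => (w l).2) i⟩ : tsp I x) :=
    LinearIndependent.of_comp (tsp I x).subtype h1
  have h3 := h2.fintype_card_le_finrank
  have h4 := g.rank_le hI hJ h
  rw [Fintype.card_fin] at h3
  omega

end

end Pool.Agent.Lib.MP_8865d3_nt.Lr
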