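import Mathlib

/-! Birational maps to a product with a projective space, log resolutions, multiplier ideals. -/

namespace Pool.Agent.Lib.MP_8865d3_nt.Lr

open MvPolynomial NumberField

noncomputable section

variable {k K : Type} [Field k] [Field K] [Algebra k K] {ι κ τ μ β : Type} {g : ℕ}

/-- The forms `φ`, `χ` give a rational map from the variety of `I` to the product of the variety of
`J` and a projective space, the bihomogeneous forms `ψ` give a rational map in the other direction,
and both composites are the identity. -/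
structure BirP (I : Ideal (MvPolynomial κ k)) (J : Ideal (MvPolynomial ι k))
    (φ : ι → MvPolynomial κ k) (χ : τ → MvPolynomial κ k) (ψ : κ → MvPolynomial (ι ⊕ τ) k) :
    Prop where
  hom₁ : ∃ a, ∀ i, (φ i).IsHomogeneous a
  hom₂ : ∃ a, ∀ j, (χ j).IsHomogeneous a
  hom₃ : ∃ d : ℕ × ℕ, ∀ l,
    (ψ l).IsWeightedHomogeneous (Sum.elim (fun _ => (1, 0)) fun _ => (0, 1)) d
  map₁ : ∀ P ∈ J, aeval φ P ∈ I
  map₃ : ∀ P ∈ I, aeval ψ P ∈ J.map (rename Sum.inl)
  ne₁ : ∃ i, aeval ψ (φ i) ∉ J.map (rename Sum.inl)
  ne₂ : ∃ j, aeval ψ (χ j) ∉ J.map (rename Sum.inl)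
  ne₃ : ∃ l, aeval (Sum.elim φ χ) (ψ l) ∉ I
  id₁ : ∀ i i', aeval ψ (φ i) * X (.inl i') - aeval ψ (φ i') * X (.inl i) ∈ J.map (rename Sum.inl)
  id₂ : ∀ j j', aeval ψ (χ j) * X (.inr j') - aeval ψ (χ j') * X (.inr j) ∈ J.map (rename Sum.inl)
  id₃ : ∀ l l', aeval (Sum.elim φ χ) (ψ l) * X l' - aeval (Sum.elim φ χ) (ψ l') * X l ∈ I

/-- `O` is the local ring at a closed point of the projective variety whose generic point has the
homogeneous coordinates `η`: a localisation at a maximal ideal of the coordinate ring of a standard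
affine chart. -/
def Loc (k : Type) [Field k] [Algebra k K] (η : μ → K) (O : LocalSubring K) : Prop :=
  ∃ j, η j ≠ 0 ∧ ∃ (𝔪 : Ideal (Algebra.adjoin k (Set.range fun i => η i / η j)).toSubring)
    (_ : 𝔪.IsMaximal), O = LocalSubring.ofPrime _ 𝔪

/-- The point with local ring `O` lies over the chart `ξ i ≠ 0`, the elements `z` generate the
maximal ideal of `O`, and the forms `F` generate in `O` the ideal of the monomial `∏ z j ^ m j`. -/
structure Nc (ξ : κ → K) (F : β → MvPolynomial κ k) (O : LocalSubring K) (i : κ)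
    (z : Fin g → O.toSubring) (m : Fin g → ℕ) : Prop where
  ne : ξ i ≠ 0
  mem : ∀ a, ξ a / ξ i ∈ O.toSubring
  par : Ideal.span (Set.range z) = IsLocalRing.maximalIdeal O.toSubring
  mon : Submodule.span O.toSubring (Set.range fun l => aeval (fun a => ξ a / ξ i) (F l)) =
    Submodule.span O.toSubring {∏ j, (z j : K) ^ m j}

/-- `K` is the function field of the variety of `I`, with generic point `ξ`; the projective variety
with generic point `η` has the same function field, is regular of dimension `g` at all closed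
points, maps to the variety of `I` by a morphism, and the ideal sheaf generated by the forms `F`
pulls back to the ideal of a divisor with simple normal crossings. -/
structure LogRes (I : Ideal (MvPolynomial κ k)) (g : ℕ) (F : β → MvPolynomial κ k) (ξ : κ → K)
    (η : μ → K) : Prop where
  ne : ξ ≠ 0
  ker : ∀ P d, P.IsHomogeneous d → (aeval ξ P = 0 ↔ P ∈ I)
  top : IntermediateField.adjoin k (Set.range fun p : κ × κ => ξ p.1 / ξ p.2) = ⊤
  ne' : η ≠ 0
  top' : IntermediateField.adjoin k (Set.range fun p : μ × μ => η p.1 / η p.2) = ⊤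
  nc : ∀ O, Loc k η O → ∃ (i : κ) (z : Fin g → O.toSubring) (m : Fin g → ℕ), Nc ξ F O i z m

/-- The equation `a • x₁ ∧ ⋯ ∧ x_g = b • y₁ ∧ ⋯ ∧ y_g` in the exterior power. -/
def Weq {M : Type} [AddCommGroup M] [Module K M] (a : K) (x : Fin g → M) (b : K) (y : Fin g → M) :
    Prop :=
  a • exteriorPower.ιMulti K g x = b • exteriorPower.ιMulti K g y

/-- The differential `d u` in the module of Kaehler differentials. -/
def dif (k : Type) [Field k] [Algebra k K] (u : K) : Ω[K⁄k] := KaehlerDifferential.D k K u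

/-- The form `f` is a section of the multiplier ideal `f_* O (R - ⌊c E⌋)`: at every closed point of
the resolution, `f` times the pull-back of the canonical sheaf lies in `O (-⌊c E⌋)` times the
canonical sheaf of the resolution. -/
def InMult (g : ℕ) (F : β → MvPolynomial κ k) (ξ : κ → K) (η : μ → K) (c : ℚ)
    (f : MvPolynomial κ k) : Prop :=
  ∀ O, Loc k η O → ∀ (i : κ) (z : Fin g → O.toSubring) (m : Fin g → ℕ), Nc ξ F O i z m →
    ∀ S : Fin g → κ, ∃ o ∈ O.toSubring,
      Weq (aeval (fun a => ξ a / ξ i) f) (fun j => dif k (ξ (S j) / ξ i))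
        (o * ∏ j, (z j : K) ^ ⌊c * m j⌋₊) fun j => dif k (z j : K)

/-- The counting function of the coordinate hyperplanes outside `S`. -/
def cnt [NumberField k] {n : ℕ} (S : Finset (FinitePlace k)) (y : Fin (n + 1) → k) : ℝ :=
  ∑ᶠ v ∈ (S : Set (FinitePlace k))ᶜ, Real.log ((⨆ j, v (y j)) ^ (n + 1) / v (∏ j, y j))

end

end Pool.Agent.Lib.MP_8865d3_nt.Lr
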