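import Pool.Agent.Lib.MP_8865d3_nt.Lr.Val
import Pool.Agent.Lib.MP_8865d3_nt.Lr.Bir
import Pool.Agent.Lib.MP_8865d3_nt.Lr.Defs
import Pool.Agent.Lib.MP_8865d3_nt.Sv.FinB
import Pool.Agent.Lib.MP_651af7_nt.Ds.Mor
import Pool.Agent.Lib.MP_651af7_nt.Ds.Tan

/-! Change of the model and descent of a birational map to a finite extension. -/

namespace Pool.Agent.Lib.MP_8865d3_nt.Lr

open MvPolynomial Module Pool.Agent.Lib.MP_651af7_nt Av Bx Ds

set_option linter.unusedSectionVars false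

noncomputable section

variable {k : Type} [Field k] {ι ν κ σ α : Type} {n : ℕ}
  {I : Ideal (MvPolynomial κ k)} {J : Ideal (MvPolynomial ι k)} {J' : Ideal (MvPolynomial ν k)}
  {φ₁ : ι → MvPolynomial κ k} {φ₂ : Fin (n + 1) → MvPolynomial κ k}
  {ψ : κ → MvPolynomial (ι ⊕ Fin (n + 1)) k} {a : ν → MvPolynomial ι k} {b : ι → MvPolynomial ν k}

theorem BirP.bir (h : BirP I J φ₁ φ₂ ψ) : Bir I J φ₁ φ₂ ψ :=
  ⟨h.hom₁, h.hom₂, h.hom₃, h.map₁, h.map₃, ⟨h.ne₃, h.id₃⟩, ⟨h.ne₁, h.id₁⟩, ⟨h.ne₂, h.id₂⟩⟩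

theorem Same.of_gp {P : Ideal (MvPolynomial σ k)} [P.IsPrime] {f f' g : α → MvPolynomial σ k}
    (h : Same P f' g) {c : FractionRing (MvPolynomial σ k ⧸ P)} (hc : c ≠ 0)
    (e : ∀ a, aeval (gp P) (f a) = c * aeval (gp P) (f' a)) : Same P f g := by
  obtain ⟨⟨a, ha⟩, h⟩ := h
  refine ⟨⟨a, fun h0 => mul_ne_zero hc (mt aeval_gp_eq_zero.1 ha)
    (e a ▸ aeval_gp_eq_zero.2 h0)⟩, fun a b => aeval_gp_eq_zero.1 ?_⟩
  have h1 := aeval_gp_eq_zero.2 (h a b)
  simp only [map_sub, map_mul, e] at h1 ⊢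
  rw [mul_assoc, mul_assoc, ← mul_sub, h1, mul_zero]

variable [CharZero k] [Fintype ι] [Fintype κ] [Fintype ν]

theorem inl_mem {P : MvPolynomial ι k} : rename Sum.inl P ∈ pr J n ↔ P ∈ J :=
  ⟨fun h => by
    have := pr_le (L := J) (p := X) (fun P hP => by rwa [aeval_X_left_apply]) (fun _ => 1) _ h
    rwa [aeval_rename, Sum.elim_comp_inl, aeval_X_left_apply] at this, Ideal.mem_map_of_mem _⟩

/-- The product of the map given by `b` with the identity. -/
def tw (b : ι → MvPolynomial ν k) (n : ℕ) :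
    MvPolynomial (ι ⊕ Fin (n + 1)) k →ₐ[k] MvPolynomial (ν ⊕ Fin (n + 1)) k :=
  aeval (Sum.elim (fun i => rename Sum.inl (b i)) fun j => X (.inr j))

theorem ev_tw {R : Type} [CommRing R] [Algebra k R] (z : ν ⊕ Fin (n + 1) → R)
    (H : MvPolynomial (ι ⊕ Fin (n + 1)) k) : aeval z (tw b n H) =
      aeval (Sum.elim (fun i => aeval (z ∘ Sum.inl) (b i)) (z ∘ Sum.inr)) H := by
  rw [tw, ← AlgHom.comp_apply, comp_aeval]
  congr 2
  funext c
  cases c <;> simp [aeval_rename]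

theorem tw_mem (h : Inv J' J b a) : ∀ H ∈ pr J n, tw b n H ∈ pr J' n :=
  pr_le (fun P hP => by
    rw [← comp_aeval_apply]
    exact inl_mem.2 (h.map P hP)) _

theorem tw_not_mem (hJ : J.IsPrime) (h0 : ∃ j, X j ∉ J) (h1 : Inv J J' a b)
    {H : MvPolynomial (ι ⊕ Fin (n + 1)) k} {d : ℕ × ℕ}
    (hH : H.IsWeightedHomogeneous (bw ι (Fin (n + 1))) d) (h : H ∉ pr J n) :
    tw b n H ∉ pr J' n := fun hm => by
  have : (pr J n).IsPrime := Sv.p0_prime_inl hJ
  have hz : ∀ P, aeval (gp (pr J n) ∘ Sum.inl) P = 0 ↔ P ∈ J := fun P => by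
    rw [← aeval_rename, aeval_gp_eq_zero, inl_mem]
  obtain ⟨j, hj⟩ := h0
  obtain ⟨i, hi⟩ := h1.ne
  obtain ⟨c, hc, e⟩ := h1.pt (x := gp (pr J n) ∘ Sum.inl)
    (fun e => hj ((hz _).1 (by rw [aeval_X, e]; rfl))) (fun P => (hz P).2) (mt (hz _).1 hi)
  have h3 := pr_zero (h1.zero fun P => (hz P).2) (gp (pr J n) ∘ Sum.inr) _ hm
  have h4 := aeval_mul_of_bih (d := d.1) (e := d.2) hH c 1 (gp (pr J n) ∘ Sum.inl)
    (gp (pr J n) ∘ Sum.inr)
  simp only [one_mul, one_pow, mul_one, Sum.elim_comp_inl_inr] at h4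
  rw [ev_tw, Sum.elim_comp_inl, Sum.elim_comp_inr, funext e] at h3
  exact mul_ne_zero (pow_ne_zero _ hc) (mt aeval_gp_eq_zero.1 h) (h4.symm.trans h3)

theorem Bir.hom_comp (h : Bir I J φ₁ φ₂ ψ) {H : MvPolynomial κ k} {d : ℕ} (hH : H.IsHomogeneous d) :
    ∃ e, (aeval ψ H).IsWeightedHomogeneous (bw ι (Fin (n + 1))) e :=
  let ⟨e, he⟩ := h.hom
  ⟨_, Sv.homog_aeval (multiplesHom _ e) (fun s => by simpa using he s) hH⟩

theorem Bir.trans (h : Bir I J φ₁ φ₂ ψ) (hI : I.IsPrime) (hJ : J.IsPrime) (hJ' : J'.IsPrime)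
    (h0 : ∃ j, X j ∉ J) (h1 : Inv J J' a b) (h2 : Inv J' J b a) :
    Bir I J' (fun l => aeval φ₁ (a l)) φ₂ fun l => tw b n (ψ l) := by
  have hP : (pr J n).IsPrime := Sv.p0_prime_inl hJ
  have hP' : (pr J' n).IsPrime := Sv.p0_prime_inl hJ'
  obtain ⟨d₁, e₁⟩ := h.hom₁
  obtain ⟨d₂, e₂⟩ := h.hom₂
  obtain ⟨d, e₃⟩ := h.hom
  obtain ⟨da, ea⟩ := h1.hom
  obtain ⟨db, eb⟩ := h2.hom
  obtain ⟨j₀, hj₀⟩ := _root_.id h0
  have hin : ∀ {H : MvPolynomial ι k} {m : ℕ}, H.IsHomogeneous m →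
      (rename Sum.inl H).IsWeightedHomogeneous (bw ι (Fin (n + 1))) (m, 0) := fun hH =>
    Sv.homog_rename (w' := bw ι (Fin (n + 1))) (g := Sum.inl) (AddMonoidHom.inl ℕ ℕ)
      (fun _ => rfl) hH
  have ht : ∀ H, aeval (fun l => tw b n (ψ l)) H = tw b n (aeval ψ H) := fun H =>
    (comp_aeval_apply ψ (tw b n) H).symm
  refine ⟨⟨_, fun l => (ea l).aeval φ₁ e₁⟩, h.hom₂, ⟨_, fun l => Sv.homog_aeval
    ((AddMonoidHom.mulLeft db).prodMap (AddMonoidHom.id ℕ)) ?_ (e₃ l)⟩, fun P hP => ?_,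
    fun P hP => ht P ▸ tw_mem h2 _ (h.map P hP), ?_, ?_, ?_, fun j j' => ?_⟩
  · rintro (i | j)
    · simpa [bw] using Sv.homog_rename (w' := bw ν (Fin (n + 1))) (g := Sum.inl)
        (AddMonoidHom.inl ℕ ℕ) (fun _ => rfl) (eb i)
    · simpa [bw] using isWeightedHomogeneous_X k (bw ν (Fin (n + 1))) (.inr j)
  · rw [← trans_aev]
    exact h.map₁ _ (h1.map P hP)
  · have hn : ∀ {H : MvPolynomial ι k} {m : ℕ}, H.IsHomogeneous m → H ∉ J →
        aeval (fun i => aeval (gp I) (φ₁ i)) H ≠ 0 := fun hH hH' e =>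
      h.pull' hP (hin hH) (mt inl_mem.1 hH') (aeval_gp_eq_zero.1 (by
        rw [aeval_rename, Sum.elim_comp_inl, trans_aev, e]))
    obtain ⟨i, hi⟩ := h1.ne
    obtain ⟨c, hc, e⟩ := h1.pt (x := fun i => aeval (gp I) (φ₁ i))
      (fun e => hn (isHomogeneous_X k j₀) hj₀ (by rw [aeval_X]; exact congrFun e j₀))
      (fun P hP => by rw [← trans_aev]; exact aeval_gp_eq_zero.2 (h.map₁ P hP))
      (hn ((eb i).aeval a ea) hi)
    refine h.id.of_gp (pow_ne_zero d.1 hc) fun l => ?_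
    have h4 := aeval_mul_of_bih (d := d.1) (e := d.2) (e₃ l) c 1 (fun i => aeval (gp I) (φ₁ i))
      fun j => aeval (gp I) (φ₂ j)
    simp only [one_mul, one_pow, mul_one] at h4
    rw [ev_elim, ev_elim, ev_tw, Sum.elim_comp_inl, Sum.elim_comp_inr, ← h4]
    simp only [trans_aev (gp I) φ₁, e]
  · have hn : ∀ {H : MvPolynomial (ι ⊕ Fin (n + 1)) k} {m : ℕ × ℕ},
        H.IsWeightedHomogeneous (bw ι (Fin (n + 1))) m → H ∉ pr J n → aeval (Sum.elim
          (fun i => aeval (gp (pr J' n) ∘ Sum.inl) (b i)) (gp (pr J' n) ∘ Sum.inr)) H ≠ 0 :=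
      fun hH hH' e => tw_not_mem hJ h0 h1 hH hH' (aeval_gp_eq_zero.1 ((ev_tw _ _).trans e))
    obtain ⟨i, hi⟩ := h.id₁.1
    obtain ⟨m, hm⟩ := h.hom_comp (e₁ i)
    obtain ⟨c, hc, e⟩ := Same.pt (f := Sum.inl) (z := Sum.elim
      (fun i => aeval (gp (pr J' n) ∘ Sum.inl) (b i)) (gp (pr J' n) ∘ Sum.inr)) h.id₁
      (fun P hP => (ev_tw _ _).symm.trans (aeval_gp_eq_zero.2 (tw_mem h2 P hP)))
      (fun e => hn (hin (isHomogeneous_X k j₀)) (mt inl_mem.1 hj₀)
        (by rw [rename_X, aeval_X]; exact congrFun e j₀))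
      fun e => hn hm hi (congrFun e i)
    have hs : Same (pr J' n) (fun l => rename Sum.inl (aeval b (a l))) fun l => X (.inl l) :=
      ⟨h2.ne.imp fun _ => mt inl_mem.1, fun l l' => by
        simpa only [map_sub, map_mul, rename_X] using (inl_mem (n := n)).2 (h2.id l l')⟩
    refine hs.of_gp (pow_ne_zero da hc) fun l => ?_
    rw [ht, ev_tw, trans_aev ψ, trans_aev, aeval_rename, trans_aev _ b, ← aeval_mul_of_hom (ea l),
      funext e]
    rfl
  · obtain ⟨j, hj⟩ := h.id₂.1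
    obtain ⟨m, hm⟩ := h.hom_comp (e₂ j)
    exact ⟨j, fun e => tw_not_mem hJ h0 h1 hm hj (ht _ ▸ e)⟩
  · have := tw_mem h2 _ (h.id₂.2 j j')
    simp only [map_sub, map_mul, ← ht] at this
    simpa only [tw, aeval_X, Sum.elim_inr] using this

end

variable {k K Ω : Type} [Field k] [Field K] [Field Ω] [Algebra K Ω] {ι κ : Type} {n : ℕ}

theorem pr_dn {J : Ideal (MvPolynomial ι Ω)} (hm : (dn K J).map (map (algebraMap K Ω)) = J) :
    pr (dn K J) n = dn K (pr J n) := by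
  have e : pr J n = (pr (dn K J) n).map (map (algebraMap K Ω)) := by
    conv_lhs => rw [← hm]
    refine le_antisymm (Ideal.map_le_iff_le_comap.2 (Ideal.map_le_iff_le_comap.2 fun P hP => ?_))
      (Ideal.map_le_iff_le_comap.2 (Ideal.map_le_iff_le_comap.2 fun P hP => ?_))
    · rw [Ideal.mem_comap, Ideal.mem_comap, ← map_rename]
      exact Ideal.mem_map_of_mem _ (Ideal.mem_map_of_mem _ hP)
    · rw [Ideal.mem_comap, Ideal.mem_comap, map_rename]
      exact Ideal.mem_map_of_mem _ (Ideal.mem_map_of_mem _ hP)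
  ext P
  rw [mem_dn, e]
  exact ⟨Ideal.mem_map_of_mem _, mem_of_map_mem⟩

theorem Same.dn {σ α : Type} {P : Ideal (MvPolynomial σ Ω)} {f : α → MvPolynomial σ K} {g : α → σ}
    {f' : α → MvPolynomial σ Ω} (h : Same P f' fun a => X (g a))
    (e : ∀ a, map (algebraMap K Ω) (f a) = f' a) : Same (dn K P) f fun a => X (g a) :=
  ⟨h.1.imp fun a ha hm => ha (e a ▸ hm), fun a b => by
    simpa only [mem_dn, map_sub, map_mul, map_X, e] using h.2 a b⟩

theorem bir_dn {I : Ideal (MvPolynomial κ Ω)} {J : Ideal (MvPolynomial ι Ω)}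
    (hm : (dn K J).map (map (algebraMap K Ω)) = J) {φ₁ : ι → MvPolynomial κ K}
    {φ₂ : Fin (n + 1) → MvPolynomial κ K} {ψ : κ → MvPolynomial (ι ⊕ Fin (n + 1)) K}
    (h : Bir I J (fun a => map (algebraMap K Ω) (φ₁ a)) (fun j => map (algebraMap K Ω) (φ₂ j))
      fun l => map (algebraMap K Ω) (ψ l)) : Bir (dn K I) (dn K J) φ₁ φ₂ ψ := by
  have e : ∀ {α β : Type} (χ : α → MvPolynomial β K) (P : MvPolynomial α K),
      map (algebraMap K Ω) (aeval χ P) =
        aeval (fun j => map (algebraMap K Ω) (χ j)) (map (algebraMap K Ω) P) :=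
    fun χ P => map_bind₁ _ χ P
  refine ⟨h.hom₁.imp fun _ ha j => wh_of_map (ha j), h.hom₂.imp fun _ ha j => wh_of_map (ha j),
    h.hom.imp fun _ ha j => wh_of_map (ha j), fun P hP => ?_, fun P hP => ?_,
    Same.dn (g := id) h.id fun l => ?_, pr_dn hm ▸ h.id₁.dn fun _ => e _ _,
    pr_dn hm ▸ h.id₂.dn fun _ => e _ _⟩
  · rw [mem_dn, e]
    exact h.map₁ _ hP
  · rw [pr_dn hm, mem_dn, e]
    exact h.map _ hP
  · rw [e]
    congr 2
    funext c
    cases c <;> rfl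

theorem up_eq [Fintype κ] [Algebra k K] [Algebra K (AlgebraicClosure k)]
    [IsScalarTower k K (AlgebraicClosure k)] (I : Ideal (MvPolynomial κ k)) :
    up K I = I.map (map (algebraMap k K)) := by
  refine le_antisymm (fun P hP => mem_of_map_mem (R := AlgebraicClosure k) ?_) map_le_up
  have e : (map (algebraMap K (AlgebraicClosure k))).comp (map (σ := κ) (algebraMap k K)) =
      map (algebraMap k (AlgebraicClosure k)) :=
    RingHom.ext fun Q => by rw [RingHom.comp_apply, map_map, ← IsScalarTower.algebraMap_eq]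
  rw [Ideal.map_map, e]
  exact hP

/-- The special model and the birational map are defined over a finite extension. -/
theorem descendP [CharZero k] [Fintype ι] [Fintype κ] {I : Ideal (MvPolynomial κ k)} (hI : Var I)
    {J : Ideal (MvPolynomial ι (AlgebraicClosure k))} {A : Type} [AddCommGroup A]
    {co : A → ι → AlgebraicClosure k} (hJ : Pts J co) (hm : HasModel co)
    {φ : ι → MvPolynomial κ (AlgebraicClosure k)} {χ : Fin (n + 1) → MvPolynomial κ k}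
    {ψ : κ → MvPolynomial (ι ⊕ Fin (n + 1)) (AlgebraicClosure k)}
    (hb : Bir (I.map (map (algebraMap k (AlgebraicClosure k)))) J φ
      (fun j => map (algebraMap k (AlgebraicClosure k)) (χ j)) ψ) :
    ∃ K : IntermediateField k (AlgebraicClosure k), FiniteDimensional k K ∧
      ∃ (m : ℕ) (B : AV K (Fin m)) (φ' : Fin m → MvPolynomial κ K)
        (ψ' : κ → MvPolynomial (Fin m ⊕ Fin (n + 1)) K),
        (I.map (map (algebraMap k K))).IsPrime ∧
        Bir (I.map (map (algebraMap k K))) B.I φ' (fun j => map (algebraMap k K) (χ j)) ψ' := by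
  obtain ⟨m, J', co', Φ, h, hΦ, h3, h4⟩ := hm
  have : Nonempty A := ⟨0⟩
  obtain ⟨a, b, h1, h2⟩ := hJ.birat h h3 h4
  have hb' := hb.trans hI.prime hJ.prime h.prime hJ.exists_X h1 h2
  generalize (fun l => aeval φ (a l)) = φ₀, (fun l => tw b n (ψ l)) = ψ₀ at hb'
  obtain ⟨s, hs⟩ : J'.FG := IsNoetherian.noetherian J'
  obtain ⟨K, hK, a1, a2, a3⟩ := exists_field (k := k) s.finite_toSet (Set.finite_range φ₀)
    ((Set.finite_range fun p : Fin m × Fin m => rename Sum.inl (Φ p.1 p.2)).union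
      (Set.finite_range fun l => rename Sum.inr (ψ₀ l)))
  have a4 : ∀ {σ τ : Type} {f : σ → τ} (_ : f.Injective) (P : MvPolynomial σ (AlgebraicClosure k)),
      rename f P ∈ Set.range (map (algebraMap K (AlgebraicClosure k))) →
      ∃ Q, map (algebraMap K (AlgebraicClosure k)) Q = P := fun hf P ⟨Q, hQ⟩ =>
    ⟨killCompl hf Q, by rw [← killCompl_map, hQ, killCompl_rename_app]⟩
  choose φ' hφ using fun j => a2 ⟨j, rfl⟩
  choose ψ' hψ using fun l => a4 Sum.inr_injective _ (a3 (.inr ⟨l, rfl⟩))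
  choose Φ' hΦ' using fun a b => a4 Sum.inl_injective _ (a3 (.inl ⟨(a, b), rfl⟩))
  have hm := dn_map (K := K) hs.symm a1
  have ev : ∀ {σ : Type} (v : σ → AlgebraicClosure k) (P : MvPolynomial σ K),
      aeval v P = eval v (map (algebraMap K (AlgebraicClosure k)) P) := fun v P => by
    rw [eval_map, aeval_def]
  obtain ⟨B, hB, -⟩ := exists_av (AlgebraicClosure k) (dn K J') (dn_hom h.hom)
    (hm.symm ▸ h.prime) A co' h.ne (fun x P hP => (ev _ P).trans (h.zero x _ hP))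
    (fun v hv hz => h.bij v hv fun P hP => by
      have : (dn K J').map (map (algebraMap K (AlgebraicClosure k))) ≤ RingHom.ker (eval v) :=
        Ideal.map_le_iff_le_comap.2 fun Q hQ => (ev v Q).symm.trans (hz Q hQ)
      exact this (hm.symm ▸ hP))
    Φ' (fun a b => wh_of_map (Ω := AlgebraicClosure k) ((hΦ' a b).symm ▸ hΦ.1 a b)) fun x y => by
      obtain ⟨c, hc, e⟩ := hΦ.2 x y
      exact ⟨c, hc, fun a b => by rw [ev, hΦ' a b, e]⟩
  refine ⟨K, hK, m, B, φ', ψ', up_eq (K := K) I ▸ hI.prime.comap _, ?_⟩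
  rw [hB, ← up_eq]
  refine bir_dn hm ?_
  simpa only [hφ, hψ, map_map, ← IsScalarTower.algebraMap_eq] using hb'

end Pool.Agent.Lib.MP_8865d3_nt.Lr
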