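import Pool.Agent.Lib.MP_8865d3_nt.Lr.Core
import Pool.Agent.Lib.MP_8865d3_nt.Lr.Down

/-! The inequality over the ground field from the model over the algebraic closure. -/

namespace Pool.Agent.Lib.MP_8865d3_nt.Lr

open MvPolynomial Module NumberField Height Pool.Agent.Lib.MP_651af7_nt Bx Ds

theorem of_model {k K ι κ β γ μ : Type} [Field k] [NumberField k] [Field K] [Algebra k K]
    [Fintype ι] [Fintype κ] [Fintype β] [Fintype γ] [Fintype μ] {n g e e' : ℕ}
    {I : Ideal (MvPolynomial κ k)} (hI : Var I) (hs : Smooth I g)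
    {J : Ideal (MvPolynomial ι (AlgebraicClosure k))} {A : Type} [AddCommGroup A]
    {co : A → ι → AlgebraicClosure k} (hJ : Pts J co) (hm : HasModel co)
    {φ : ι → MvPolynomial κ (AlgebraicClosure k)} {χ : Fin (n + 1) → MvPolynomial κ k}
    {ψ : κ → MvPolynomial (ι ⊕ Fin (n + 1)) (AlgebraicClosure k)}
    (hb : BirP (I.map (map (algebraMap k (AlgebraicClosure k)))) J φ
      (fun j => map (algebraMap k (AlgebraicClosure k)) (χ j)) ψ)
    {F : β → MvPolynomial κ k} (hF : ∀ l, (F l).IsHomogeneous e)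
    {G : γ → MvPolynomial κ k} (hG : ∀ l, (G l).IsHomogeneous e') {ξ : κ → K} {η : μ → K}
    (hr : LogRes I g F ξ η) (hm' : ∀ l, ∀ c : ℚ, 0 < c → c < 1 → InMult g F ξ η c (G l))
    {ε : ℝ} (hε : 0 < ε) : Concl I g χ F e G e' ε := by
  obtain ⟨L, hL, m, B, φ', ψ', h1, h2⟩ := descendP hI hJ hm hb.bir
  have : NumberField L := NumberField.of_module_finite k L
  exact Concl.down (K := L) (core B hI.hom h1 hs h2 hF hG hr hm' hε)

end Pool.Agent.Lib.MP_8865d3_nt.Lr
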