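import Mathlib

/-! The valuation attached to a grading of a domain and derivations that respect it. -/

namespace Pool.Agent.Lib.MP_8865d3_nt.Lr

open Polynomial WithZero

noncomputable section

theorem grd_le {F : Type} [Field F] (p : F[X]) (m : ℕ) :
    (idealX F).intValuation p ≤ exp (-(m : ℤ)) ↔ ∀ i < m, p.coeff i = 0 := by
  rw [IsDedekindDomain.HeightOneSpectrum.intValuation_le_pow_iff_mem, idealX_span,
    Ideal.span_singleton_pow, Ideal.mem_span_singleton, X_pow_dvd_iff]

theorem grd_eq {F : Type} [Field F] {p : F[X]} (hp : p ≠ 0) :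
    (idealX F).intValuation p = exp (-(p.natTrailingDegree : ℤ)) := by
  refine le_antisymm ((grd_le p _).2 fun i hi => coeff_eq_zero_of_lt_natTrailingDegree hi) ?_
  have h : ¬ (idealX F).intValuation p ≤ exp (-((p.natTrailingDegree + 1 : ℕ) : ℤ)) := fun h =>
    trailingCoeff_nonzero_iff_nonzero.2 hp ((grd_le p _).1 h _ (Nat.lt_succ_self _))
  have h0 := (idealX F).intValuation_ne_zero p hp
  rw [← exp_log h0, exp_le_exp] at h ⊢
  push_cast at h
  omega

variable {L Q : Type} [Field L] [CommRing Q] [IsDomain Q] [Algebra L Q] (F : Type) [Field F]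
  [Algebra Q F] [IsFractionRing Q F] [Algebra L F] [IsScalarTower L Q F]

omit [Algebra L F] [IsScalarTower L Q F] in
/-- A valuation on the field of fractions given by the trailing degree of `s`. -/
theorem exists_val (s : Q →ₐ[L] Q[X]) (hs : Function.Injective s) :
    ∃ v : Valuation F ℤᵐ⁰, (∀ q, q ≠ 0 → v (algebraMap Q F q) =
      exp (-((s q).natTrailingDegree : ℤ))) ∧ ∀ (q : Q) (m : ℕ), v (algebraMap Q F q) ≤
      exp (-(m : ℤ)) ↔ ∀ i < m, (s q).coeff i = 0 := by
  have hi := IsFractionRing.injective Q F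
  let v₀ : Valuation Q ℤᵐ⁰ :=
    (idealX F).intValuation.comap ((mapRingHom (algebraMap Q F)).comp (s : Q →+* Q[X]))
  have h0 : ∀ q, v₀ q = (idealX F).intValuation ((s q).map (algebraMap Q F)) := fun _ => rfl
  have h1 : ∀ q, q ≠ 0 → (s q).map (algebraMap Q F) ≠ 0 := fun q hq h =>
    hq (hs (by rw [map_zero, ← Polynomial.map_eq_zero_iff hi, h]))
  have hS : nonZeroDivisors Q ≤ v₀.supp.primeCompl := fun q hq h =>
    (idealX F).intValuation_ne_zero _ (h1 q (nonZeroDivisors.ne_zero hq)) h
  refine ⟨v₀.extendToLocalization hS F, fun q hq => ?_, fun q m => ?_⟩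
  · rw [Valuation.extendToLocalization_apply_map_apply, h0, grd_eq (h1 q hq)]
    congr 3
    simp only [natTrailingDegree, trailingDegree, support_map_of_injective _ hi]
  · rw [Valuation.extendToLocalization_apply_map_apply, h0, grd_le]
    simp only [coeff_map, map_eq_zero_iff _ hi]

/-- A derivation extends to the field of fractions. -/
theorem exists_ext (g : Q →ₐ[L] DualNumber F) (hg : ∀ q, (g q).fst = algebraMap Q F q) :
    ∃ θ : Derivation L F F, ∀ q, θ (algebraMap Q F q) = (g q).snd := by
  have hu : ∀ y : nonZeroDivisors Q, IsUnit (g y) := fun y =>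
    TrivSqZeroExt.isUnit_iff_isUnit_fst.2 (isUnit_iff_ne_zero.2 (by
      rw [hg]; exact IsFractionRing.to_map_ne_zero_of_mem_nonZeroDivisors y.2))
  let G : F →ₐ[L] DualNumber F := IsLocalization.liftAlgHom (M := nonZeroDivisors Q) (f := g) hu
  have hG : ∀ q, G (algebraMap Q F q) = g q := fun q => IsLocalization.lift_eq hu q
  have h1 : ∀ z, (G z).fst = z := fun z => by
    have h : ((TrivSqZeroExt.fstHom L F F).comp G : F →+* F) = RingHom.id F :=
      IsLocalization.ringHom_ext (nonZeroDivisors Q) (RingHom.ext fun q => by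
        change (G (algebraMap Q F q)).fst = _
        rw [hG, hg]; rfl)
    exact RingHom.congr_fun h z
  refine ⟨Derivation.mk' ((TrivSqZeroExt.sndHom F F).restrictScalars L ∘ₗ G.toLinearMap)
    fun a b => ?_, fun q => congrArg TrivSqZeroExt.snd (hG q)⟩
  change (G (a * b)).snd = a • (G b).snd + b • (G a).snd
  rw [map_mul, DualNumber.snd_mul, h1, h1, smul_eq_mul, smul_eq_mul, mul_comm b]

variable {F}

omit [Algebra L Q] [IsScalarTower L Q F] in
/-- A derivation that does not decrease the order on `Q` does not decrease it on the field of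
fractions. -/
theorem der_le {Γ : Type} [LinearOrderedCommGroupWithZero Γ] (v : Valuation F Γ)
    (θ : Derivation L F F) (h : ∀ q : Q, v (θ (algebraMap Q F q)) ≤ v (algebraMap Q F q)) (z : F) :
    v (θ z) ≤ v z := by
  obtain ⟨a, b, hb, rfl⟩ := IsFractionRing.div_surjective (A := Q) z
  have h0 : algebraMap Q F b ≠ 0 := IsFractionRing.to_map_ne_zero_of_mem_nonZeroDivisors hb
  have h1 : 0 < v (algebraMap Q F b) := (v.pos_iff).2 h0
  rw [Derivation.leibniz_div, smul_eq_mul, smul_eq_mul, smul_eq_mul, map_mul, map_pow, map_inv₀,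
    map_div₀, inv_pow, inv_mul_le_iff₀ (pow_pos h1 2)]
  have h2 : v (algebraMap Q F b) ^ 2 * (v (algebraMap Q F a) / v (algebraMap Q F b)) =
      v (algebraMap Q F b) * v (algebraMap Q F a) := by
    field_simp
  rw [h2]
  refine v.map_sub_le ?_ ?_
  · rw [map_mul]; exact mul_le_mul_right (h a) _
  · rw [map_mul, mul_comm]; exact mul_le_mul_left (h b) _

end

end Pool.Agent.Lib.MP_8865d3_nt.Lr
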