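import Pool.Agent.Lib.MP_8865d3_nt.Lr.Defs
import Pool.Agent.Lib.MP_8865d3_nt.Lr.Ord

/-! The inequality for valuations from a log resolution. -/

namespace Pool.Agent.Lib.MP_8865d3_nt.Lr

open MvPolynomial WithZero Pool.Agent.Lib.MP_651af7_nt.Av Pool.Agent.Lib.MP_651af7_nt.Bx

noncomputable section

variable {k K E κ μ β : Type} [Field k] [Field K] [Algebra k K] [Field E] [Algebra k E] {g : ℕ}

theorem log_emb {u : κ → K} {u' : κ → E}
    (h : ∀ p : MvPolynomial κ k, aeval u p = 0 ↔ aeval u' p = 0)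
    (top : IntermediateField.adjoin k (Set.range u) = ⊤) :
    ∃ j : K →ₐ[k] E, ∀ a, j (u a) = u' a := by
  let P := RingHom.ker (aeval u : MvPolynomial κ k →ₐ[k] K)
  let f : (MvPolynomial κ k ⧸ P) →ₐ[k] K := Ideal.Quotient.liftₐ P (aeval u) fun _ hp => hp
  let f' : (MvPolynomial κ k ⧸ P) →ₐ[k] E :=
    Ideal.Quotient.liftₐ P (aeval u') fun p hp => (h p).1 hp
  have hf : Function.Injective f := (injective_iff_map_eq_zero _).2 fun q hq => by
    obtain ⟨p, rfl⟩ := Ideal.Quotient.mk_surjective q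
    exact Ideal.Quotient.eq_zero_iff_mem.2 hq
  have hf' : Function.Injective f' := (injective_iff_map_eq_zero _).2 fun q hq => by
    obtain ⟨p, rfl⟩ := Ideal.Quotient.mk_surjective q
    exact Ideal.Quotient.eq_zero_iff_mem.2 ((h p).2 hq)
  let : Algebra (MvPolynomial κ k ⧸ P) K := f.toRingHom.toAlgebra
  have : IsScalarTower k (MvPolynomial κ k ⧸ P) K :=
    .of_algebraMap_eq fun c => (f.commutes c).symm
  have : FaithfulSMul (MvPolynomial κ k ⧸ P) K :=
    (faithfulSMul_iff_algebraMap_injective _ _).2 hf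
  have : IsFractionRing (MvPolynomial κ k ⧸ P) K := .of_field _ _ fun z => by
    obtain ⟨r, s, hz⟩ := (IntermediateField.mem_adjoin_range_iff k u z).1
      (top ▸ IntermediateField.mem_top)
    exact ⟨Ideal.Quotient.mk P r, Ideal.Quotient.mk P s, hz⟩
  refine ⟨IsFractionRing.liftAlgHom (g := f') hf', fun a => ?_⟩
  have h1 : u a = algebraMap (MvPolynomial κ k ⧸ P) K (Ideal.Quotient.mk P (X a)) :=
    (aeval_X u a).symm
  rw [h1, IsFractionRing.liftAlgHom_apply, IsFractionRing.lift_algebraMap]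
  exact aeval_X u' a

theorem log_hom (a : κ) (p : MvPolynomial κ k) : ∃ (q : MvPolynomial κ k) (d : ℕ),
    q.IsHomogeneous d ∧ ∀ (R : Type) [CommRing R] [Algebra k R] (u : κ → R), u a = 1 →
      aeval u q = aeval u p := by
  refine ⟨∑ d ∈ Finset.range (p.totalDegree + 1), X a ^ (p.totalDegree - d) *
    homogeneousComponent d p, p.totalDegree, IsHomogeneous.sum _ _ _ fun d hd => ?_,
    fun R _ _ u hu => ?_⟩
  · have h := ((isHomogeneous_X k a).pow (p.totalDegree - d)).mul
      (homogeneousComponent_isHomogeneous d p)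
    rwa [one_mul, Nat.sub_add_cancel (Nat.lt_succ_iff.1 (Finset.mem_range.1 hd))] at h
  · conv_rhs => rw [← sum_homogeneousComponent p]
    simp [hu]

/-- Two generic points. -/
theorem log_gen {I : Ideal (MvPolynomial κ k)} {ξ : κ → K} {ξ' : κ → E} (ne : ξ ≠ 0)
    (ker : ∀ P d, P.IsHomogeneous d → (aeval ξ P = 0 ↔ P ∈ I))
    (ker' : ∀ P d, P.IsHomogeneous d → (aeval ξ' P = 0 ↔ P ∈ I))
    (top : IntermediateField.adjoin k (Set.range fun p : κ × κ => ξ p.1 / ξ p.2) = ⊤) :
    ∃ j : K →ₐ[k] E, (∀ a, ξ a ≠ 0 → ξ' a ≠ 0) ∧ ∀ a b, j (ξ a / ξ b) = ξ' a / ξ' b := by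
  have h0 : ∀ a, ξ a ≠ 0 → ξ' a ≠ 0 := fun a ha h => ha (by
    rw [← aeval_X (R := k) ξ a, ker _ 1 (isHomogeneous_X k a), ← ker' _ 1 (isHomogeneous_X k a),
      aeval_X, h])
  obtain ⟨a, ha⟩ := Function.ne_iff.1 ne
  have ha' := h0 a ha
  obtain ⟨j, hj⟩ := log_emb (k := k) (u := fun b => (ξ a)⁻¹ * ξ b) (u' := fun b => (ξ' a)⁻¹ * ξ' b)
    (fun p => by
      obtain ⟨q, d, hq, h1⟩ := log_hom a p
      rw [← h1 K _ (inv_mul_cancel₀ ha), ← h1 E _ (inv_mul_cancel₀ ha'), aeval_mul_of_hom hq,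
        aeval_mul_of_hom hq, mul_eq_zero_iff_left (pow_ne_zero _ (inv_ne_zero ha)),
        mul_eq_zero_iff_left (pow_ne_zero _ (inv_ne_zero ha')), ker q d hq, ker' q d hq])
    (by
      rw [eq_top_iff, ← top, IntermediateField.adjoin_le_iff]
      rintro _ ⟨p, rfl⟩
      have h1 := div_mem (IntermediateField.subset_adjoin k
        (Set.range fun b => (ξ a)⁻¹ * ξ b) ⟨p.1, rfl⟩) (IntermediateField.subset_adjoin k
        (Set.range fun b => (ξ a)⁻¹ * ξ b) ⟨p.2, rfl⟩)
      rwa [mul_div_mul_left _ _ (inv_ne_zero ha)] at h1)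
  refine ⟨j, h0, fun b c => ?_⟩
  rw [← mul_div_mul_left (ξ b) _ (inv_ne_zero ha), map_div₀, hj, hj,
    mul_div_mul_left _ _ (inv_ne_zero ha')]

/-- A valuation is bounded by one on the local ring of some closed point. -/
theorem log_centre [Finite μ] {Γ : Type} [LinearOrderedCommGroupWithZero Γ] (w : Valuation K Γ)
    (hw : ∀ c : k, w (algebraMap k K c) ≤ 1) {η : μ → K} (ne : η ≠ 0) :
    ∃ O, Loc k η O ∧ ∀ x ∈ O.toSubring, w x ≤ 1 := by
  obtain ⟨a, ha⟩ := Function.ne_iff.1 ne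
  have : Nonempty μ := ⟨a⟩
  obtain ⟨j, hj⟩ := Finite.exists_max fun i => w (η i)
  have h0 : 0 < w (η j) := ((w.pos_iff).2 ha).trans_le (hj a)
  have h1 : ∀ x ∈ Algebra.adjoin k (Set.range fun i => η i / η j), w x ≤ 1 := fun x hx => by
    induction hx using Algebra.adjoin_induction with
    | mem x hx =>
      obtain ⟨i, rfl⟩ := hx
      rw [map_div₀, div_le_one₀ h0]
      exact hj i
    | algebraMap c => exact hw c
    | add x y _ _ hx hy => exact w.map_add_le hx hy
    | mul x y _ _ hx hy => rw [map_mul]; exact mul_le_one' hx hy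
  let p : Ideal (Algebra.adjoin k (Set.range fun i => η i / η j)).toSubring :=
    { carrier := {x | w x < 1}
      zero_mem' := by simp
      add_mem' := fun hx hy => w.map_add_lt hx hy
      smul_mem' := fun c x hx => by
        change w (c * x) < 1
        rw [map_mul]
        exact (mul_le_of_le_one_left' (h1 c c.2)).trans_lt hx }
  obtain ⟨𝔪, hm, h2⟩ := p.exists_le_maximal ((Ideal.ne_top_iff_one _).2 fun h => by
    have h3 : w 1 < 1 := h
    simp at h3)
  refine ⟨_, ⟨j, (w.pos_iff).1 h0, 𝔪, hm, rfl⟩, fun x hx => ?_⟩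
  obtain ⟨⟨r, s⟩, h3⟩ := IsLocalization.surj 𝔪.primeCompl
    (⟨x, hx⟩ : (LocalSubring.ofPrime _ 𝔪).toSubring)
  have h4 : x * s.1.1 = r.1 := congrArg Subtype.val h3
  have h5 : w s.1.1 = 1 := le_antisymm (h1 _ s.1.2) (not_lt.1 fun h => s.2 (h2 h))
  have h6 := h1 _ r.2
  rwa [← h4, map_mul, h5, mul_one] at h6

/-- Pairing of a top form with derivations. -/
theorem log_pair (j : K →ₐ[k] E) (θ : Fin g → Derivation k E E) {a b : K} {x y : Fin g → K}
    (h : Weq a (fun j => dif k (x j)) b fun j => dif k (y j)) :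
    j a * (Matrix.of fun i m => θ i (j (x m))).det =
      j b * (Matrix.of fun i m => θ i (j (y m))).det := by
  let : Algebra K E := j.toRingHom.toAlgebra
  have : IsScalarTower k K E := .of_algebraMap_eq fun c => (j.commutes c).symm
  let L : Ω[K⁄k] →ₗ[K] (Fin g → E) :=
    LinearMap.pi fun i => ((θ i).compAlgebraMap K).liftKaehlerDifferential
  let A : (Fin g → E) [⋀^Fin g]→ₗ[K] E :=
    ⟨(Matrix.detRowAlternating (n := Fin g) (R := E)).toMultilinearMap.restrictScalars K,
      fun v _ _ h1 h2 => Matrix.detRowAlternating.map_eq_zero_of_eq v h1 h2⟩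
  have h1 : ∀ z : Fin g → K, exteriorPower.alternatingMapLinearEquiv (A.compLinearMap L)
      (exteriorPower.ιMulti K g fun m => dif k (z m)) =
        (Matrix.of fun i m => θ i (j (z m))).det := fun z => by
    rw [exteriorPower.alternatingMapLinearEquiv_apply_ιMulti, ← Matrix.det_transpose]
    change Matrix.det (Matrix.of fun m => L (KaehlerDifferential.D k K (z m))) = _
    congr 1
    ext m i
    exact Derivation.liftKaehlerDifferential_comp_D _ _
  have h2 := congrArg (exteriorPower.alternatingMapLinearEquiv (A.compLinearMap L)) h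
  rwa [map_smul, map_smul, h1, h1, Algebra.smul_def, Algebra.smul_def] at h2

/-- The inequality for valuations at any generic point. -/
theorem log_val [Finite μ] [Finite β] [Nonempty β] {I : Ideal (MvPolynomial κ k)}
    {F : β → MvPolynomial κ k} {ξ : κ → K} {η : μ → K} (hr : LogRes I g F ξ η)
    {f : MvPolynomial κ k} (hm : ∀ c : ℚ, 0 < c → c < 1 → InMult g F ξ η c f) {ξ' : κ → E}
    (ker' : ∀ P d, P.IsHomogeneous d → (aeval ξ' P = 0 ↔ P ∈ I)) (v : Valuation E ℤᵐ⁰)
    (hv : ∀ c : k, v (algebraMap k E c) ≤ 1) : VIneq v ξ' g F f := by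
  intro θ hθ S
  obtain ⟨j, h0, hj⟩ := log_gen hr.ne hr.ker ker' hr.top
  obtain ⟨O, hO, h1⟩ := log_centre (v.comap j.toRingHom) (fun c => (congrArg v (j.commutes c)).trans_le
    (hv c)) hr.ne'
  replace h1 : ∀ x ∈ O.toSubring, v (j x) ≤ 1 := h1
  obtain ⟨i, z, m, hn⟩ := hr.nc O hO
  obtain ⟨c, c0, c1, hc⟩ := exists_rat m
  have h2 : ∀ p : MvPolynomial κ k, j (aeval (fun a => ξ a / ξ i) p) =
      aeval (fun a => ξ' a / ξ' i) p := fun p => by
    rw [comp_aeval_apply]
    simp only [hj]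
  have h3 : ∀ s, v (ξ' s / ξ' i) ≤ 1 := fun s => hj s i ▸ h1 _ (hn.mem s)
  obtain ⟨l, hl⟩ := Finite.exists_max fun l => v (aeval (fun a => ξ' a / ξ' i) (F l))
  have h4 : ∀ x ∈ Submodule.span O.toSubring
      (Set.range fun l => aeval (fun a => ξ a / ξ i) (F l)),
      v (j x) ≤ v (aeval (fun a => ξ' a / ξ' i) (F l)) := fun x hx => by
    induction hx using Submodule.span_induction with
    | mem x hx =>
      obtain ⟨l', rfl⟩ := hx
      rw [h2]
      exact hl l'
    | zero => simp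
    | add x y _ _ hx hy => rw [map_add]; exact v.map_add_le hx hy
    | smul a x _ hx =>
      change v (j (a * x)) ≤ _
      rw [map_mul, map_mul]
      exact (mul_le_of_le_one_left' (h1 _ a.2)).trans hx
  refine ⟨i, l, h0 i hn.ne, fun s => ?_, ?_⟩
  · have h5 := h3 s
    rwa [map_div₀, div_le_one₀ ((v.pos_iff).2 (h0 i hn.ne))] at h5
  refine (val_minors_le v hθ h3 (z := fun a => j (z a)) (e := fun a => ⌊c * m a⌋₊)
    (fun T => ?_) S).trans (le_trans ?_ (h4 _ (hn.mon ▸ Submodule.mem_span_singleton_self _)))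
  · obtain ⟨o, ho, h5⟩ := hm c c0 c1 O hO i z m hn T
    have h6 := log_pair j θ h5
    simp only [h2, hj, map_mul, map_prod, map_pow] at h6
    exact ⟨j o, h1 o ho, h6⟩
  · simp only [map_prod, map_pow]
    exact Finset.prod_le_prod' fun a _ => pow_le_pow_right_of_le_one' (h1 _ (z a).2) (hc a)

end

end Pool.Agent.Lib.MP_8865d3_nt.Lr
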