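import Pool.Agent.Lib.MP_8865d3_nt.Lr.Grd
import Pool.Agent.Lib.MP_8865d3_nt.Sv.Stm
import Pool.Agent.Lib.MP_651af7_nt.Av.LieA

/-! Monomial valuations on the field of fractions of the coordinate ring of the product. -/

namespace Pool.Agent.Lib.MP_8865d3_nt.Lr

open MvPolynomial WithZero Pool.Agent.Lib.MP_651af7_nt.Av

noncomputable section

variable {K ι : Type} [Field K] {n : ℕ}

/-- The substitution of `t ^ lam * Y` for `Y`. -/
def sg (P : Ideal (MvPolynomial (ι ⊕ Fin (n + 1)) K)) (lam : Fin (n + 1) → ℕ) :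
    MvPolynomial (ι ⊕ Fin (n + 1)) K →ₐ[K] Polynomial (MvPolynomial (ι ⊕ Fin (n + 1)) K ⧸ P) :=
  aeval (Sum.elim (fun a => Polynomial.C (Ideal.Quotient.mk P (X (.inl a))))
    fun j => Polynomial.X ^ lam j * Polynomial.C (Ideal.Quotient.mk P (X (.inr j))))

theorem ord_eq {α : Type} (P : Ideal (MvPolynomial (ι ⊕ Fin (n + 1)) K)) (lam : Fin (n + 1) → ℕ)
    (Γ : α → MvPolynomial (ι ⊕ Fin (n + 1)) K) :
    Sv.Stm.ord P lam Γ = ⨅ l, (sg P lam (Γ l)).trailingDegree := rfl

/-- The generic point. -/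
def gp {σ : Type} (P : Ideal (MvPolynomial σ K)) (s : σ) : FractionRing (MvPolynomial σ K ⧸ P) :=
  algebraMap (MvPolynomial σ K ⧸ P) _ (Ideal.Quotient.mk P (X s))

theorem aeval_gp {σ : Type} (P : Ideal (MvPolynomial σ K)) (p : MvPolynomial σ K) :
    aeval (gp P) p = algebraMap (MvPolynomial σ K ⧸ P) _ (Ideal.Quotient.mk P p) := by
  have h : aeval (gp P) = (IsScalarTower.toAlgHom K (MvPolynomial σ K ⧸ P)
      (FractionRing (MvPolynomial σ K ⧸ P))).comp (Ideal.Quotient.mkₐ K P) := by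
    ext s
    simp [gp]
  rw [h]
  rfl

theorem aeval_gp_eq_zero {σ : Type} {P : Ideal (MvPolynomial σ K)} {p : MvPolynomial σ K} :
    aeval (gp P) p = 0 ↔ p ∈ P := by
  rw [aeval_gp, map_eq_zero_iff _ (IsFractionRing.injective _ _), Ideal.Quotient.eq_zero_iff_mem]

variable {P : Ideal (MvPolynomial (ι ⊕ Fin (n + 1)) K)} {lam : Fin (n + 1) → ℕ}

theorem sg_X (s : ι ⊕ Fin (n + 1)) : sg P lam (X s) =
    Polynomial.X ^ Sum.elim (fun _ => 0) lam s * Polynomial.C (Ideal.Quotient.mk P (X s)) := by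
  cases s <;> simp [sg]

theorem sg_inl (f : MvPolynomial ι K) :
    sg P lam (rename Sum.inl f) = Polynomial.C (Ideal.Quotient.mk P (rename Sum.inl f)) := by
  have h : (sg P lam).comp (rename Sum.inl) =
      (Polynomial.CAlgHom.comp (Ideal.Quotient.mkₐ K P)).comp (rename Sum.inl) := by
    ext1 a
    simp [sg]
  exact AlgHom.congr_fun h f

theorem eval_sg (p : MvPolynomial (ι ⊕ Fin (n + 1)) K) :
    (sg P lam p).eval 1 = Ideal.Quotient.mk P p := by
  induction p using MvPolynomial.induction_on with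
  | C a => rw [← algebraMap_eq, AlgHom.commutes, Polynomial.algebraMap_apply, Polynomial.eval_C]; rfl
  | add p q hp hq => rw [map_add, Polynomial.eval_add, hp, hq, map_add]
  | mul_X p s hp => simp [sg_X, hp]

theorem sg_ne {p : MvPolynomial (ι ⊕ Fin (n + 1)) K} (h : p ∉ P) : sg P lam p ≠ 0 := fun h0 =>
  h (Ideal.Quotient.eq_zero_iff_mem.1 (by rw [← eval_sg (lam := lam), h0, Polynomial.eval_zero]))

variable {I : Ideal (MvPolynomial ι K)}

theorem sg_zero (hP : P = I.map (rename Sum.inl)) {p : MvPolynomial (ι ⊕ Fin (n + 1)) K}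
    (h : p ∈ P) : sg P lam p = 0 := by
  have h1 : I.map (rename (Sum.inl : ι → ι ⊕ Fin (n + 1))) ≤ RingHom.ker (sg P lam) := by
    refine Ideal.map_le_iff_le_comap.2 fun f hf => ?_
    rw [Ideal.mem_comap, RingHom.mem_ker, sg_inl,
      Ideal.Quotient.eq_zero_iff_mem.2 (hP ▸ Ideal.mem_map_of_mem _ hf), map_zero]
  exact h1 (hP ▸ h)

theorem X_inr_notMem [hp : P.IsPrime] (hP : P = I.map (rename Sum.inl)) (j : Fin (n + 1)) :
    X (.inr j) ∉ P := fun h => by
  let e : MvPolynomial (ι ⊕ Fin (n + 1)) K →ₐ[K] MvPolynomial (ι ⊕ Fin (n + 1)) K :=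
    aeval (Sum.elim (fun a => X (.inl a)) fun _ => 1)
  have h2 : I.map (rename (Sum.inl : ι → ι ⊕ Fin (n + 1))) ≤ P.comap e := by
    refine Ideal.map_le_iff_le_comap.2 fun f hf => ?_
    have h3 : e.comp (rename Sum.inl) = rename Sum.inl := by
      ext1 a
      simp [e]
    rw [Ideal.mem_comap, Ideal.mem_comap, ← AlgHom.comp_apply, h3, hP]
    exact Ideal.mem_map_of_mem _ hf
  have h4 := h2 (hP ▸ h)
  rw [Ideal.mem_comap, aeval_X] at h4
  exact hp.ne_top ((Ideal.eq_top_iff_one _).2 h4)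

/-- The monomial valuation and the derivations given by vector fields of weight zero. -/
theorem exists_vl [P.IsPrime] (hP : P = I.map (rename Sum.inl)) (lam : Fin (n + 1) → ℕ) :
    ∃ v : Valuation (FractionRing (MvPolynomial (ι ⊕ Fin (n + 1)) K ⧸ P)) ℤᵐ⁰,
      (∀ p, p ∉ P → v (aeval (gp P) p) = exp (-((sg P lam p).natTrailingDegree : ℤ))) ∧
      ∀ W : ι ⊕ Fin (n + 1) → MvPolynomial (ι ⊕ Fin (n + 1)) K, (∀ p ∈ P, dP X W p ∈ P) →
        (∀ s, sg P lam (W s) = Polynomial.X ^ Sum.elim (fun _ => 0) lam s *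
          Polynomial.C (Ideal.Quotient.mk P (W s))) →
        ∃ θ : Derivation K (FractionRing (MvPolynomial (ι ⊕ Fin (n + 1)) K ⧸ P))
          (FractionRing (MvPolynomial (ι ⊕ Fin (n + 1)) K ⧸ P)),
          (∀ p : MvPolynomial (ι ⊕ Fin (n + 1)) K, θ (aeval (gp P) p) = aeval (gp P) (dP X W p)) ∧
            ∀ z, v (θ z) ≤ v z := by
  let s := Ideal.Quotient.liftₐ P (sg P lam) fun _ h => sg_zero hP h
  have hs : ∀ p, s (Ideal.Quotient.mk P p) = sg P lam p := fun _ => rfl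
  have hi : Function.Injective s := (injective_iff_map_eq_zero _).2 fun q hq => by
    obtain ⟨p, rfl⟩ := Ideal.Quotient.mk_surjective q
    exact Ideal.Quotient.eq_zero_iff_mem.2 (not_not.1 fun h => sg_ne h hq)
  obtain ⟨v, h1, h2⟩ := exists_val (FractionRing (MvPolynomial (ι ⊕ Fin (n + 1)) K ⧸ P)) s hi
  refine ⟨v, fun p hp => ?_, fun W hW hw => ?_⟩
  · rw [aeval_gp, h1 _ (mt Ideal.Quotient.eq_zero_iff_mem.1 hp), hs]
  have h3 : ∀ p : MvPolynomial (ι ⊕ Fin (n + 1)) K,
      dP (gp P) (fun s => aeval (gp P) (W s)) p = aeval (gp P) (dP X W p) := fun p => by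
    rw [map_dP]
    simp only [aeval_X]
  obtain ⟨θ, hθ⟩ := exists_ext (FractionRing (MvPolynomial (ι ⊕ Fin (n + 1)) K ⧸ P))
    (Ideal.Quotient.liftₐ P (aeval (dw (gp P) fun s => aeval (gp P) (W s))) fun p hp =>
      TrivSqZeroExt.ext ((fst_aeval_dw _ _ _).trans (aeval_gp_eq_zero.2 hp))
        ((h3 p).trans (aeval_gp_eq_zero.2 (hW p hp)))) fun q => by
      obtain ⟨p, rfl⟩ := Ideal.Quotient.mk_surjective q
      exact (fst_aeval_dw _ _ _).trans (aeval_gp P p)
  have h4 : ∀ p : MvPolynomial (ι ⊕ Fin (n + 1)) K,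
      θ (aeval (gp P) p) = aeval (gp P) (dP X W p) := fun p => by
    rw [aeval_gp, hθ, ← h3]
    rfl
  have h5 : ∀ (p : MvPolynomial (ι ⊕ Fin (n + 1)) K) (i : ℕ),
      algebraMap _ _ ((sg P lam (dP X W p)).coeff i) =
        θ (algebraMap _ _ ((sg P lam p).coeff i)) := fun p => by
    induction p using MvPolynomial.induction_on with
    | C a =>
      intro i
      rw [dP_C, map_zero, Polynomial.coeff_zero, map_zero, ← algebraMap_eq, AlgHom.commutes,
        Polynomial.algebraMap_apply, Polynomial.coeff_C]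
      split_ifs
      · rw [← IsScalarTower.algebraMap_apply, Derivation.map_algebraMap]
      · rw [map_zero, map_zero]
    | add p q hp hq =>
      intro i
      simp only [dP_add_pol, map_add, Polynomial.coeff_add, hp, hq]
    | mul_X p t hp =>
      intro i
      have h6 := h4 (X t)
      rw [dP_X, aeval_gp, aeval_gp] at h6
      rw [dP_mul_pol, aeval_X_left_apply, aeval_X_left_apply, dP_X]
      simp only [map_add, map_mul, hw, sg_X, ← mul_assoc, Polynomial.coeff_add,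
        Polynomial.coeff_mul_C, Polynomial.coeff_mul_X_pow', Derivation.leibniz, h6, smul_eq_mul]
      split_ifs
      · rw [hp, mul_comm (θ _)]
      · simp
  refine ⟨θ, h4, der_le (Q := MvPolynomial (ι ⊕ Fin (n + 1)) K ⧸ P) v θ fun q => ?_⟩
  obtain ⟨p, rfl⟩ := Ideal.Quotient.mk_surjective q
  by_cases h0 : Ideal.Quotient.mk P p = 0
  · simp [h0]
  rw [h1 _ h0, ← aeval_gp, h4, aeval_gp, h2]
  intro i hi'
  rw [hs] at hi' ⊢
  refine IsFractionRing.injective _ (FractionRing (MvPolynomial (ι ⊕ Fin (n + 1)) K ⧸ P)) ?_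
  rw [h5, Polynomial.coeff_eq_zero_of_lt_natTrailingDegree hi', map_zero, map_zero]

end

end Pool.Agent.Lib.MP_8865d3_nt.Lr
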